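import Pool.Agent.J4H31.SA.Law
import Pool.Agent.J4H8.LH.Aut
import Pool.Agent.J4H1.LG.Dr

/-!
# Project SA: L-functions have the properties `AF`, uniformly in the conductor
-/

set_option autoImplicit false

open Complex MeasureTheory Filter Topology Set
open scoped ComplexConjugate

namespace Pool.Agent.J4H31.SA

open H353.E H353.F
open Pool.Agent.J4H34.HF (DR Xi cond_ge LL LL_bound xi_eq)
open Pool.Agent.J4H1.LH
open Pool.Agent.J4H8.LH
open Pool.Agent.W169.HF (UD)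

variable {m : ℕ} {K N : ℝ} {μ : Fin m → ℂ} {α : Fin m → ℕ → ℂ} {ε : ℂ} {Λ : ℂ → ℂ}

/-- the completed L-function seen from the height `T`, normalised -/
noncomputable def FF (N : ℝ) (μ : Fin m → ℂ) (Λ : ℂ → ℂ) (T : ℝ) (u : ℂ) : ℂ :=
  fT N Λ T u * cexp (-(lT N μ T : ℂ) * u) * (((GT N μ T)⁻¹ : ℝ) : ℂ)

lemma FF_norm (T : ℝ) (hG : 0 < GT N μ T) (u : ℂ) : ‖FF N μ Λ T u‖ =
    ‖fT N Λ T u‖ * Real.exp (-(lT N μ T * u.re)) * (GT N μ T)⁻¹ := by
  unfold FF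
  rw [norm_mul, norm_mul, Complex.norm_exp, Complex.norm_real, Real.norm_of_nonneg (by positivity)]
  congr 3
  rw [neg_mul, neg_re, Complex.re_ofReal_mul]

lemma pt_sq (s t : ℝ) : ‖pt s t‖ ^ 2 = s ^ 2 + t ^ 2 := by
  rw [Complex.sq_norm, Complex.normSq_apply, pt_re, pt_im]
  ring

lemma pt_eta (u : ℂ) : pt u.re u.im = u := by
  unfold pt
  rw [Complex.re_add_im]

/-- the properties `AF` from two-sided bounds -/
theorem af_of {T : ℝ} (hN : 1 ≤ N) {K1 K2 A₀ κ' η K' : ℝ} (hK10 : 0 ≤ K1) (hK12 : K1 ≤ K2) (hκ : 0 < κ') (hη : 0 < η)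
    (hη1 : η ≤ 1 / 4)
    (hu : UD K1 (3 / 2) (lT N μ T) (GT N μ T) (fT N Λ T))
    (hts : ∀ u : ℂ, 1 / 2 + η ≤ u.re →
      GT N μ T * Real.exp (lT N μ T * u.re -
        (A₀ * Real.sqrt (1 + 2 * lT N μ T) + K2 * (1 + ‖u‖ ^ 2))) ≤ ‖fT N Λ T u‖ ∧
      ‖fT N Λ T u‖ ≤ GT N μ T * Real.exp (lT N μ T * u.re +
        (A₀ * Real.sqrt (1 + 2 * lT N μ T) + K2 * (1 + ‖u‖ ^ 2))))
    (hK' : κ' + A₀ ^ 2 / (4 * κ') + 102 * K2 ≤ K') :
    AF (2 * lT N μ T) (κ' * (2 * lT N μ T) + K') (2 * (2 * lT N μ T) + K') K' η (FF N μ Λ T) := by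
  have hG := hu.hG
  have hℓ := lT_nonneg (μ := μ) hN T
  obtain ⟨ℓ, hℓd⟩ : ∃ ℓ : ℝ, ℓ = lT N μ T := ⟨_, rfl⟩
  obtain ⟨G, hGd⟩ : ∃ G : ℝ, G = GT N μ T := ⟨_, rfl⟩
  have hnorm := fun u => FF_norm (N := N) (μ := μ) (Λ := Λ) T hG u
  have hup := hu.up
  rw [← hℓd, ← hGd] at hnorm hts hup
  rw [← hℓd] at hℓ ⊢
  rw [← hGd] at hG
  -- the square root
  have hsq : A₀ * Real.sqrt (1 + 2 * ℓ) ≤ κ' * (2 * ℓ) + (κ' + A₀ ^ 2 / (4 * κ')) := by
    have h1 := Real.sq_sqrt (show (0 : ℝ) ≤ 1 + 2 * ℓ by linarith)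
    obtain ⟨y, hy⟩ : ∃ y : ℝ, y = Real.sqrt (1 + 2 * ℓ) := ⟨_, rfl⟩
    rw [← hy] at h1 ⊢
    have h2 : κ' * (2 * ℓ) + (κ' + A₀ ^ 2 / (4 * κ')) = κ' * y ^ 2 + A₀ ^ 2 / (4 * κ') := by
      rw [h1]; ring
    have h3 : κ' * y ^ 2 + A₀ ^ 2 / (4 * κ') - A₀ * y = (2 * κ' * y - A₀) ^ 2 / (4 * κ') := by
      field_simp
      ring
    have h4 : 0 ≤ (2 * κ' * y - A₀) ^ 2 / (4 * κ') := by positivity
    rw [h2]
    linarith
  have hsq0 : 0 ≤ κ' + A₀ ^ 2 / (4 * κ') := by positivity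
  have herr : ∀ s t : ℝ, 1 / 2 + η ≤ s → s ≤ 10 →
      A₀ * Real.sqrt (1 + 2 * ℓ) + K2 * (1 + ‖pt s t‖ ^ 2) ≤
        κ' * (2 * ℓ) + K' + K' * t ^ 2 := by
    intro s t hs hs'
    rw [pt_sq]
    have h1 : K2 * (1 + (s ^ 2 + t ^ 2)) ≤ K2 * (101 + t ^ 2) := by
      have h2 : s ^ 2 ≤ 100 := by nlinarith
      exact mul_le_mul_of_nonneg_left (by linarith) (hK10.trans hK12)
    have h5 : K2 * t ^ 2 ≤ K' * t ^ 2 := by
      gcongr
      linarith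
    linarith
  have hK'0 : 0 ≤ K' := by linarith
  have hK1' : 102 * K1 ≤ K' := by linarith
  have hK2' : 102 * K2 ≤ K' := by linarith
  refine
    { diff := ?_
      L0 := by positivity
      e0 := by positivity
      U0 := by positivity
      k0 := hK'0
      η0 := hη
      η1 := hη1
      up := fun s t hs hs' => ?_
      lo := fun s t hs hs' => ?_
      hi := fun s t hs hs' => ?_
      refl := fun x t => ?_ }
  · unfold FF
    exact (hu.slow.1.mul (by fun_prop)).mul (differentiable_const _)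
  · rw [hnorm, pt_re]
    have h1 := hup (pt s t)
    rw [pt_sq, pt_re] at h1
    calc ‖fT N Λ T (pt s t)‖ * Real.exp (-(ℓ * s)) * G⁻¹
        ≤ (G * Real.exp (ℓ * max |s| (3 / 2) + K1 * (1 + (s ^ 2 + t ^ 2)))) *
          Real.exp (-(ℓ * s)) * G⁻¹ := by gcongr
      _ = Real.exp (ℓ * max |s| (3 / 2) + K1 * (1 + (s ^ 2 + t ^ 2)) + -(ℓ * s)) := by
          rw [Real.exp_add (ℓ * max |s| (3 / 2) + K1 * (1 + (s ^ 2 + t ^ 2)))]
          field_simp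
      _ ≤ _ := by
          apply Real.exp_le_exp.2
          have h2 : s ^ 2 ≤ 100 := by nlinarith
          have h3 : max |s| (3 / 2) - s ≤ 3 := by
            have : max |s| (3 / 2) ≤ s + 3 := by
              apply max_le
              · rw [abs_le]; constructor <;> linarith
              · linarith
            linarith
          have h4 : ℓ * (max |s| (3 / 2) - s) ≤ ℓ * 3 := mul_le_mul_of_nonneg_left h3 hℓ
          have h5 : K1 * (1 + (s ^ 2 + t ^ 2)) ≤ K1 * (101 + t ^ 2) :=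
            mul_le_mul_of_nonneg_left (by linarith) hK10
          have h6 : K1 * t ^ 2 ≤ K' * t ^ 2 := by gcongr; linarith
          linarith
  · rw [hnorm, pt_re]
    have h1 := (hts (pt s t) (by rw [pt_re]; exact hs)).1
    rw [pt_re] at h1
    have h2 := herr s t hs hs'
    calc Real.exp (-(κ' * (2 * ℓ) + K' + K' * t ^ 2))
        ≤ Real.exp (ℓ * s - (A₀ * Real.sqrt (1 + 2 * ℓ) + K2 * (1 + ‖pt s t‖ ^ 2)) +
          -(ℓ * s)) := by
          apply Real.exp_le_exp.2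
          linarith
      _ = (G * Real.exp (ℓ * s - (A₀ * Real.sqrt (1 + 2 * ℓ) + K2 * (1 + ‖pt s t‖ ^ 2)))) *
          Real.exp (-(ℓ * s)) * G⁻¹ := by
          rw [Real.exp_add]
          field_simp
      _ ≤ _ := by gcongr
  · rw [hnorm, pt_re]
    have h1 := (hts (pt s t) (by rw [pt_re]; exact hs)).2
    rw [pt_re] at h1
    have h2 := herr s t hs hs'
    calc ‖fT N Λ T (pt s t)‖ * Real.exp (-(ℓ * s)) * G⁻¹
        ≤ (G * Real.exp (ℓ * s + (A₀ * Real.sqrt (1 + 2 * ℓ) + K2 * (1 + ‖pt s t‖ ^ 2)))) *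
          Real.exp (-(ℓ * s)) * G⁻¹ := by gcongr
      _ = Real.exp (ℓ * s + (A₀ * Real.sqrt (1 + 2 * ℓ) + K2 * (1 + ‖pt s t‖ ^ 2)) +
          -(ℓ * s)) := by
          rw [Real.exp_add _ (-(ℓ * s))]
          field_simp
      _ ≤ _ := by
          apply Real.exp_le_exp.2
          linarith
  · obtain ⟨ε', hε', hfe⟩ := hu.fe
    have e1 : -conj (pt (-x) t) = pt x t := by
      unfold pt
      simp [add_comm]
    have e2 : ‖fT N Λ T (pt (-x) t)‖ = ‖fT N Λ T (pt x t)‖ := by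
      rw [hfe (pt (-x) t), norm_mul, hε', one_mul, Complex.norm_conj, e1]
    rw [hnorm, hnorm, e2, pt_re, pt_re]
    have e3 : Real.exp (-(ℓ * -x)) = Real.exp (2 * ℓ * x) * Real.exp (-(ℓ * x)) := by
      rw [← Real.exp_add]
      congr 1
      ring
    rw [e3]
    ring

/-- the properties of a class -/
def HAF (m : ℕ) (P : ℝ → (Fin m → ℂ) → (ℂ → ℂ) → Prop) : Prop :=
  ∀ κ' η : ℝ, 0 < κ' → 0 < η → η ≤ 1 / 4 → ∃ K0 : ℝ, 0 ≤ K0 ∧
    ∀ (N : ℝ) (μ : Fin m → ℂ) (Λ : ℂ → ℂ), P N μ Λ → ∀ T K' : ℝ, K0 ≤ K' →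
      AF (2 * lT N μ T) (κ' * (2 * lT N μ T) + K') (2 * (2 * lT N μ T) + K') K' η (FF N μ Λ T)

/-- **L-functions have the properties `AF`** -/
theorem af (hm : 1 ≤ m) (hK : 0 ≤ K) : HAF m (Pool.Agent.J4H1.LG.PD (m := m) K) := by
  intro κ' η hκ hη hη1
  have hm' : (1 : ℝ) ≤ m := by exact_mod_cast hm
  obtain ⟨K1, hK1, hUD⟩ := ud_all m hm
  obtain ⟨A₀, hA0, hLL⟩ := LL_bound hK (η₂ := η) hη (by linarith)
  have hK10 : 0 ≤ K1 := by linarith
  refine ⟨κ' + A₀ ^ 2 / (4 * κ') + 102 * K1, by positivity, ?_⟩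
  rintro N μ Λ ⟨α, ε, d⟩ T K' hK'
  have hN := d.dat.one_le
  have hG := GT_pos hm hN d.dat.re_le T
  refine af_of hN hK10 le_rfl hκ hη hη1 (hUD K N μ α ε Λ d T) (fun u hu => ?_) hK'
  obtain ⟨h1, h2⟩ := two_sided hm d hη hA0 (fun t s hs => hLL m N μ α ε Λ d t s hs) T hu
  have h3 : (90 : ℝ) * m * (1 + ‖u‖ ^ 2) ≤ K1 * (1 + ‖u‖ ^ 2) :=
    mul_le_mul_of_nonneg_right (by linarith) (by positivity)
  constructor
  · refine le_trans ?_ h1
    exact mul_le_mul_of_nonneg_left (Real.exp_le_exp.2 (by linarith)) hG.le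
  · refine h2.trans ?_
    exact mul_le_mul_of_nonneg_left (Real.exp_le_exp.2 (by linarith)) hG.le

end Pool.Agent.J4H31.SA
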