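import Mathlib
import Pool.Agent.Y757.LS.Strip

/-!
# Project SA: the Poisson inequality at the centre of a strip, quadratic growth

As in `Pool.Agent.Y757.LS.Strip`, but the growth of `log⁺ |F|` may be quadratic.
-/

set_option autoImplicit false

open MeasureTheory Filter Topology Set Real

namespace Pool.Agent.J4H31.SA

open Pool.Agent.Y757.LS (ker ker_pos ker_continuous ker_integrable_of_le ang ang_mem M M_mem M_im
  norm_circle_lt log_cayley_bound neg_log_sin_ang two two_continuous two_nonneg tendsto_two step1)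

variable {F : ℂ → ℂ} {z₀ : ℂ} {h A B : ℝ}

lemma u_bound (hh : 0 < h) (hB : 0 ≤ B)
    (hbd : ∀ z : ℂ, |z.re - z₀.re| ≤ h → log⁺ ‖F z‖ ≤ A + B * (z.im - z₀.im) ^ 2)
    {r : ℝ} (hr : 0 ≤ r) (hr1 : r < 1) (θ : ℝ) (hs : Real.sin θ ≠ 0) {w : ℝ}
    (hw : Real.log 2 - Real.log (Real.sin θ) ≤ w) :
    log⁺ ‖F (M z₀ h (circleMap 0 r θ))‖ ≤ A + B * (2 * h / π * w) ^ 2 := by
  have h1 := norm_circle_lt hr hr1 θ
  refine (hbd _ (M_mem hh h1).le).trans ?_
  have hpi := Real.pi_pos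
  have h2 : |(M z₀ h (circleMap 0 r θ)).im - z₀.im| ≤ 2 * h / π * w := by
    rw [M_im, add_sub_cancel_left, abs_mul, abs_of_pos (by positivity : 0 < 2 * h / π)]
    exact mul_le_mul_of_nonneg_left ((log_cayley_bound r θ hr hr1.le hs).trans hw) (by positivity)
  rw [← sq_abs ((M z₀ h (circleMap 0 r θ)).im - z₀.im)]
  gcongr

lemma two_bound (hh : 0 < h) (hB : 0 ≤ B)
    (hbd : ∀ z : ℂ, |z.re - z₀.re| ≤ h → log⁺ ‖F z‖ ≤ A + B * (z.im - z₀.im) ^ 2)
    {r : ℝ} (hr : 0 ≤ r) (hr1 : r < 1) (y : ℝ) :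
    two F z₀ h r (ang h y) ≤ 2 * (A + B * (2 * h / π * (Real.log 2 + |π * y / (2 * h)|)) ^ 2) := by
  have h0 := ang_mem h y
  have hs : Real.sin (ang h y) ≠ 0 := (Real.sin_pos_of_pos_of_lt_pi h0.1 h0.2).ne'
  have hs' : Real.sin (-ang h y) ≠ 0 := by rw [Real.sin_neg]; exact neg_ne_zero.2 hs
  have h3 := neg_log_sin_ang h y
  have h1 := u_bound hh hB hbd hr hr1 (ang h y) hs (w := Real.log 2 + |π * y / (2 * h)|) (by linarith)
  have h2 := u_bound hh hB hbd hr hr1 (-ang h y) hs' (w := Real.log 2 + |π * y / (2 * h)|) (by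
    rw [Real.sin_neg, Real.log_neg_eq_log]; linarith)
  unfold two
  linarith

/-- **Poisson inequality for the centre of a strip** -/
theorem strip_poisson (hh : 0 < h) (hB : 0 ≤ B)
    (hF : ∀ z : ℂ, |z.re - z₀.re| ≤ h → AnalyticAt ℂ F z)
    (hbd : ∀ z : ℂ, |z.re - z₀.re| ≤ h → log⁺ ‖F z‖ ≤ A + B * (z.im - z₀.im) ^ 2) :
    log⁺ ‖F z₀‖ ≤ ∫ y : ℝ, (log⁺ ‖F (z₀ - h + y * Complex.I)‖ +
      log⁺ ‖F (z₀ + h + y * Complex.I)‖) / 2 * ker h y := by
  have hpi := Real.pi_pos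
  set bd : ℝ → ℝ := fun y => (A + B * (2 * h / π * (Real.log 2 + |π * y / (2 * h)|)) ^ 2) * ker h y
    with hbd'
  have hev : ∀ᶠ r : ℝ in 𝓝[<] 1, 0 < r ∧ r < 1 := by
    have := Ioo_mem_nhdsLT (show (0:ℝ) < 1 by norm_num)
    filter_upwards [this] with r hr
    exact hr
  have hint : Integrable bd := by
    refine ker_integrable_of_le hh
      (A := |A| + B * ((2 * h / π) ^ 2 * (2 * Real.log 2 ^ 2 + 2 * (π / (2 * h)) ^ 2)))
      (by fun_prop) fun y => ?_
    have hl2 : 0 ≤ Real.log 2 := Real.log_nonneg (by norm_num)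
    have hy2 : 1 ≤ 1 + y ^ 2 := by nlinarith [sq_nonneg y]
    have e : |π * y / (2 * h)| = π / (2 * h) * |y| := by
      rw [abs_div, abs_mul, abs_of_pos hpi, abs_of_pos (by linarith : 0 < 2 * h)]
      ring
    rw [e]
    have hc : 0 < π / (2 * h) := by positivity
    have h3 : (Real.log 2 + π / (2 * h) * |y|) ^ 2 ≤
        (2 * Real.log 2 ^ 2 + 2 * (π / (2 * h)) ^ 2) * (1 + y ^ 2) := by
      have h4 : (Real.log 2 + π / (2 * h) * |y|) ^ 2 ≤
          2 * Real.log 2 ^ 2 + 2 * (π / (2 * h)) ^ 2 * y ^ 2 := by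
        have h5 : (π / (2 * h) * |y|) ^ 2 = (π / (2 * h)) ^ 2 * y ^ 2 := by rw [mul_pow, sq_abs]
        nlinarith [sq_nonneg (Real.log 2 - π / (2 * h) * |y|)]
      have h6 : 0 ≤ 2 * Real.log 2 ^ 2 * y ^ 2 := by positivity
      have h7 : 0 ≤ 2 * (π / (2 * h)) ^ 2 := by positivity
      nlinarith
    calc |A + B * (2 * h / π * (Real.log 2 + π / (2 * h) * |y|)) ^ 2|
        ≤ |A| + |B * (2 * h / π * (Real.log 2 + π / (2 * h) * |y|)) ^ 2| := abs_add_le _ _
      _ = |A| + B * ((2 * h / π) ^ 2 * (Real.log 2 + π / (2 * h) * |y|) ^ 2) := by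
          rw [abs_of_nonneg (by positivity :
            0 ≤ B * (2 * h / π * (Real.log 2 + π / (2 * h) * |y|)) ^ 2), mul_pow]
      _ ≤ |A| * (1 + y ^ 2) +
          B * ((2 * h / π) ^ 2 * ((2 * Real.log 2 ^ 2 + 2 * (π / (2 * h)) ^ 2) * (1 + y ^ 2))) := by
          gcongr
          exact le_mul_of_one_le_right (abs_nonneg _) hy2
      _ = _ := by ring
  have hlim : Tendsto (fun r => ∫ y, two F z₀ h r (ang h y) / 2 * ker h y) (𝓝[<] 1)
      (𝓝 (∫ y : ℝ, (log⁺ ‖F (z₀ - h + y * Complex.I)‖ +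
      log⁺ ‖F (z₀ + h + y * Complex.I)‖) / 2 * ker h y)) := by
    refine tendsto_integral_filter_of_dominated_convergence bd ?_ ?_ hint ?_
    · filter_upwards [hev] with r hr
      have h1 := two_continuous hh hF hr.1.le hr.2
      have h2 : Continuous (ang h) := by unfold ang; fun_prop
      exact (((h1.comp h2).div_const 2).mul (ker_continuous hh)).aestronglyMeasurable
    · filter_upwards [hev] with r hr
      refine Eventually.of_forall fun y => ?_
      have h1 := two_nonneg (F := F) (z₀ := z₀) (h := h) r (ang h y)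
      have h2 := two_bound hh hB hbd hr.1.le hr.2 y
      have h3 := ker_pos hh y
      rw [Real.norm_of_nonneg (by positivity)]
      simp only [hbd']
      gcongr
      linarith
    · refine Eventually.of_forall fun y => ?_
      exact ((tendsto_two hh hF y).div_const 2).mul_const _
  refine ge_of_tendsto hlim ?_
  filter_upwards [hev] with r hr
  exact step1 hh hF hr.1 hr.2

end Pool.Agent.J4H31.SA
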