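import Mathlib
import Pool.Agent.J4H31.SA.Strip

/-!
# Project SA: horizontal integrals of the truncated logarithm

As in `Pool.Agent.Y757.LS.D`, for a general function.
-/

set_option autoImplicit false

open MeasureTheory Filter Topology Set Real

namespace Pool.Agent.J4H31.SA

open Pool.Agent.Y757.LS (ker ker_pos ker_continuous ker_integrable_of_le ker_integrable integral_ker
  ker_sq_integrable)

/-- the point `s + it` -/
noncomputable def pt (s t : ℝ) : ℂ := s + t * Complex.I

lemma pt_re (s t : ℝ) : (pt s t).re = s := by simp [pt]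
lemma pt_im (s t : ℝ) : (pt s t).im = t := by simp [pt]

/-- the properties of the function: `L` is the logarithm of the conductor -/
structure AF (L e U k η : ℝ) (F : ℂ → ℂ) : Prop where
  diff : Differentiable ℂ F
  L0 : 0 ≤ L
  e0 : 0 ≤ e
  U0 : 0 ≤ U
  k0 : 0 ≤ k
  η0 : 0 < η
  η1 : η ≤ 1 / 4
  up : ∀ s t : ℝ, -(3/2) ≤ s → s ≤ 10 → ‖F (pt s t)‖ ≤ Real.exp (U + k * t ^ 2)
  lo : ∀ s t : ℝ, 1/2 + η ≤ s → s ≤ 10 → Real.exp (-(e + k * t ^ 2)) ≤ ‖F (pt s t)‖
  hi : ∀ s t : ℝ, 1/2 + η ≤ s → s ≤ 10 → ‖F (pt s t)‖ ≤ Real.exp (e + k * t ^ 2)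
  refl : ∀ x t : ℝ, ‖F (pt (-x) t)‖ = Real.exp (L * x) * ‖F (pt x t)‖

/-- `log |F|` -/
noncomputable def g (F : ℂ → ℂ) (s t : ℝ) : ℝ := Real.log ‖F (pt s t)‖

/-- `log |F|` truncated from below at `-N` -/
noncomputable def gN (F : ℂ → ℂ) (N s t : ℝ) : ℝ := log⁺ (Real.exp N * ‖F (pt s t)‖) - N

lemma pt_measurable : Measurable (fun p : ℝ × ℝ => pt p.1 p.2) := by
  unfold pt
  fun_prop

variable {F : ℂ → ℂ} {L e U k η : ℝ}

lemma gN_measurable (hc : Continuous F) (N : ℝ) : Measurable (fun p : ℝ × ℝ => gN F N p.1 p.2) := by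
  unfold gN
  refine Measurable.sub_const ?_ _
  refine Real.continuous_posLog.measurable.comp ?_
  exact ((hc.measurable.comp pt_measurable).norm).const_mul _

lemma gN_meas_comp (hc : Continuous F) (N : ℝ) {α : Type*} [MeasurableSpace α] {u v : α → ℝ}
    (hu : Measurable u) (hv : Measurable v) : Measurable (fun x => gN F N (u x) (v x)) := by
  have h1 : Measurable (fun x => (u x, v x)) := hu.prodMk hv
  have h2 := (gN_measurable hc N).comp h1
  have h3 : ((fun p : ℝ × ℝ => gN F N p.1 p.2) ∘ fun x => (u x, v x)) =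
      fun x => gN F N (u x) (v x) := by
    funext x
    rfl
  rw [h3] at h2
  exact h2

lemma g_measurable (hc : Continuous F) : Measurable (fun p : ℝ × ℝ => g F p.1 p.2) := by
  unfold g
  exact Real.measurable_log.comp ((hc.measurable.comp pt_measurable).norm)

lemma g_meas_comp (hc : Continuous F) {α : Type*} [MeasurableSpace α] {u v : α → ℝ} (hu : Measurable u)
    (hv : Measurable v) : Measurable (fun x => g F (u x) (v x)) := by
  have h1 : Measurable (fun x => (u x, v x)) := hu.prodMk hv
  have h2 := (g_measurable hc).comp h1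
  have h3 : ((fun p : ℝ × ℝ => g F p.1 p.2) ∘ fun x => (u x, v x)) =
      fun x => g F (u x) (v x) := by
    funext x
    rfl
  rw [h3] at h2
  exact h2

lemma gN_of_ne {N s t : ℝ} (h : F (pt s t) ≠ 0) : gN F N s t = max (-N) (g F s t) := by
  unfold gN g
  rw [posLog_apply, Real.log_mul (Real.exp_pos _).ne' (norm_ne_zero_iff.2 h), Real.log_exp]
  rcases le_total 0 (N + Real.log ‖F (pt s t)‖) with h1 | h1
  · rw [max_eq_right h1, max_eq_right (by linarith)]; ring
  · rw [max_eq_left h1, max_eq_left (by linarith)]; ring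

lemma gN_of_zero {N s t : ℝ} (h : F (pt s t) = 0) : gN F N s t = -N := by
  unfold gN
  rw [h, norm_zero, mul_zero, posLog_zero]
  ring

lemma gN_ge (N s t : ℝ) : -N ≤ gN F N s t := by
  unfold gN
  have := @posLog_nonneg (Real.exp N * ‖F (pt s t)‖)
  linarith

/-- common upper bound -/
lemma AF.g_le (A : AF L e U k η F) {s t : ℝ} (hs : -(3/2) ≤ s) (hs' : s ≤ 10) :
    g F s t ≤ U + k * t ^ 2 := by
  have hU := A.U0
  have hk := A.k0
  unfold g
  rcases eq_or_ne (F (pt s t)) 0 with h0 | h0
  · rw [h0, norm_zero, Real.log_zero]; positivity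
  · exact (Real.log_le_iff_le_exp (norm_pos_iff.2 h0)).2 (A.up s t hs hs')

lemma AF.posLog_le (A : AF L e U k η F) {s t : ℝ} (hs : -(3/2) ≤ s) (hs' : s ≤ 10) {N : ℝ}
    (hN : 0 ≤ N) : log⁺ (Real.exp N * ‖F (pt s t)‖) ≤ N + (U + k * t ^ 2) := by
  have hU := A.U0
  have hk := A.k0
  rcases eq_or_ne (F (pt s t)) 0 with h0 | h0
  · rw [h0, norm_zero, mul_zero, posLog_zero]; positivity
  · have h3 := (Real.log_le_iff_le_exp (norm_pos_iff.2 h0)).2 (A.up s t hs hs')
    rw [posLog_apply, Real.log_mul (Real.exp_pos _).ne' (norm_ne_zero_iff.2 h0), Real.log_exp]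
    apply max_le
    · positivity
    · linarith

lemma AF.gN_le (A : AF L e U k η F) {s t : ℝ} (hs : -(3/2) ≤ s) (hs' : s ≤ 10) {N : ℝ}
    (hN : 0 ≤ N) : gN F N s t ≤ U + k * t ^ 2 := by
  have := A.posLog_le hs hs' hN (t := t)
  unfold gN
  linarith

lemma sq_add_le (k t y : ℝ) (hk : 0 ≤ k) : k * (t + y) ^ 2 ≤ 2 * k * t ^ 2 + 2 * k * y ^ 2 := by
  nlinarith [sq_nonneg (t - y)]

/-- quadratic bound for the truncated function -/
lemma AF.gN_abs_le (A : AF L e U k η F) {N : ℝ} (hN : 0 ≤ N) {s t y : ℝ} (hs : -(3/2) ≤ s)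
    (hs' : s ≤ 10) : |gN F N s (t + y)| ≤ (N + U + 2 * k) * (1 + t ^ 2) * (1 + y ^ 2) := by
  have hU := A.U0
  have hk := A.k0
  have h1 := A.gN_le (t := t + y) hs hs' hN
  have h2 := gN_ge (F := F) N s (t + y)
  have h3 := sq_add_le k t y hk
  have ht := sq_nonneg t
  have hy := sq_nonneg y
  have h5 : (0:ℝ) ≤ t ^ 2 * y ^ 2 := by positivity
  have h6 : (1:ℝ) ≤ (1 + t ^ 2) * (1 + y ^ 2) := by nlinarith
  have h7 : t ^ 2 + y ^ 2 ≤ (1 + t ^ 2) * (1 + y ^ 2) := by nlinarith
  have h8 : (N + U) * 1 ≤ (N + U) * ((1 + t ^ 2) * (1 + y ^ 2)) := by gcongr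
  have h9 : 2 * k * (t ^ 2 + y ^ 2) ≤ 2 * k * ((1 + t ^ 2) * (1 + y ^ 2)) := by gcongr
  have h10 : (N + U + 2 * k) * (1 + t ^ 2) * (1 + y ^ 2) = (N + U) * ((1 + t ^ 2) * (1 + y ^ 2)) +
      2 * k * ((1 + t ^ 2) * (1 + y ^ 2)) := by ring
  have h11 : 0 ≤ 2 * k * ((1 + t ^ 2) * (1 + y ^ 2)) := by positivity
  rw [h10, abs_le]
  constructor <;> linarith

/-- the Poisson inequality for the truncated function -/
lemma AF.poisson_gN (A : AF L e U k η F) {N s t h : ℝ} (hN : 0 ≤ N) (hh : 0 < h)
    (hs : -(3/2) ≤ s - h) (hs' : s + h ≤ 10) :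
    gN F N s t ≤ ∫ y, (gN F N (s - h) (t + y) + gN F N (s + h) (t + y)) / 2 * ker h y := by
  have hU := A.U0
  have hk := A.k0
  set G : ℂ → ℂ := fun z => (Real.exp N : ℂ) * F z with hG
  have hGn : ∀ z, ‖G z‖ = Real.exp N * ‖F z‖ := by
    intro z
    simp only [hG]
    rw [norm_mul, Complex.norm_real, Real.norm_of_nonneg (Real.exp_pos _).le]
  have hre := pt_re s t
  have him := pt_im s t
  have h1 := strip_poisson (F := G) (z₀ := pt s t) (h := h)
    (A := N + U + 2 * k * t ^ 2) (B := 2 * k) hh (by positivity) (by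
      intro z hz
      exact analyticAt_const.mul (A.diff.analyticAt z)) (by
      intro z hz
      rw [hre, abs_le] at hz
      rw [hGn, him]
      have e1 : z = pt z.re z.im := by unfold pt; rw [Complex.re_add_im]
      have h2 := A.posLog_le (s := z.re) (t := z.im) (by linarith) (by linarith) hN
      rw [← e1] at h2
      have h3 := sq_add_le k t (z.im - t) hk
      rw [add_sub_cancel] at h3
      linarith)
  simp only [hGn] at h1
  have e1 : ∀ y : ℝ, pt s t - h + y * Complex.I = pt (s - h) (t + y) := by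
    intro y; unfold pt; push_cast; ring
  have e2 : ∀ y : ℝ, pt s t + h + y * Complex.I = pt (s + h) (t + y) := by
    intro y; unfold pt; push_cast; ring
  simp only [e1, e2] at h1
  have m1 : ∀ c, Measurable (fun y : ℝ => gN F N c (t + y)) := fun c =>
    gN_meas_comp A.diff.continuous N measurable_const (measurable_const_add t)
  have i1 : Integrable (fun y : ℝ => (gN F N (s - h) (t + y) + gN F N (s + h) (t + y)) / 2 * ker h y) := by
    refine ker_integrable_of_le hh (A := (N + U + 2 * k) * (1 + t ^ 2))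
      (((m1 _).add (m1 _)).div_const 2).aestronglyMeasurable fun y => ?_
    have a1 := A.gN_abs_le hN (s := s - h) (t := t) (y := y) (by linarith) (by linarith)
    have a2 := A.gN_abs_le hN (s := s + h) (t := t) (y := y) (by linarith) (by linarith)
    have a3 := abs_add_le (gN F N (s - h) (t + y)) (gN F N (s + h) (t + y))
    rw [abs_div, abs_two]
    linarith
  have e3 : ∀ y : ℝ, (log⁺ (Real.exp N * ‖F (pt (s - h) (t + y))‖) +
      log⁺ (Real.exp N * ‖F (pt (s + h) (t + y))‖)) / 2 * ker h y =
      (gN F N (s - h) (t + y) + gN F N (s + h) (t + y)) / 2 * ker h y + N * ker h y := by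
    intro y
    unfold gN
    ring
  simp only [e3] at h1
  rw [integral_add i1 ((ker_integrable hh).const_mul N), integral_const_mul, integral_ker hh] at h1
  unfold gN at h1 ⊢
  linarith

/-- horizontal integrals -/
noncomputable def II (F : ℂ → ℂ) (a b t : ℝ) : ℝ := ∫ s in a..b, g F s t

/-- truncated horizontal integrals -/
noncomputable def IN (F : ℂ → ℂ) (N a b t : ℝ) : ℝ := ∫ s in a..b, gN F N s t

lemma AF.gN_intervalIntegrable (A : AF L e U k η F) {N : ℝ} (hN : 0 ≤ N) {a b : ℝ} (ha : -(3/2) ≤ a)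
    (hab : a ≤ b) (hb : b ≤ 10) (t : ℝ) : IntervalIntegrable (fun s => gN F N s t) volume a b := by
  rw [intervalIntegrable_iff_integrableOn_Ioc_of_le hab]
  refine Integrable.mono' (g := fun _ => (N + U + 2 * k) * (1 + t ^ 2)) (integrable_const _) ?_ ?_
  · exact (gN_meas_comp A.diff.continuous N measurable_id measurable_const).aestronglyMeasurable
  · rw [ae_restrict_iff' measurableSet_Ioc]
    refine Eventually.of_forall fun s hs => ?_
    have := A.gN_abs_le hN (s := s) (t := t) (y := 0) (by linarith [hs.1]) (by linarith [hs.2])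
    rw [add_zero] at this
    rw [Real.norm_eq_abs]
    linarith

lemma AF.IN_split (A : AF L e U k η F) {N : ℝ} (hN : 0 ≤ N) {a b c : ℝ} (ha : -(3/2) ≤ a)
    (hab : a ≤ b) (hbc : b ≤ c) (hc : c ≤ 10) (t : ℝ) : IN F N a c t = IN F N a b t + IN F N b c t := by
  unfold IN
  rw [intervalIntegral.integral_add_adjacent_intervals
    (A.gN_intervalIntegrable hN ha hab (by linarith) t)
    (A.gN_intervalIntegrable hN (by linarith) hbc hc t)]

lemma IN_measurable (hc : Continuous F) (N a b : ℝ) : Measurable (IN F N a b) := by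
  unfold IN
  have h1 : ∀ (a b : ℝ), Measurable (fun t => ∫ s in Ioc a b, gN F N s t) := by
    intro a b
    have h2 : StronglyMeasurable (Function.uncurry fun (t s : ℝ) => gN F N s t) :=
      (gN_meas_comp hc N measurable_snd measurable_fst).stronglyMeasurable
    exact (h2.integral_prod_right (ν := volume.restrict (Ioc a b))).measurable
  unfold intervalIntegral
  exact (h1 a b).sub (h1 b a)

lemma II_measurable (hc : Continuous F) (a b : ℝ) : Measurable (II F a b) := by
  unfold II
  have h1 : ∀ (a b : ℝ), Measurable (fun t => ∫ s in Ioc a b, g F s t) := by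
    intro a b
    have h2 : StronglyMeasurable (Function.uncurry fun (t s : ℝ) => g F s t) :=
      (g_meas_comp hc measurable_snd measurable_fst).stronglyMeasurable
    exact (h2.integral_prod_right (ν := volume.restrict (Ioc a b))).measurable
  unfold intervalIntegral
  exact (h1 a b).sub (h1 b a)

/-- the integrated Poisson inequality, truncated version -/
lemma AF.D_N (A : AF L e U k η F) {N a b h : ℝ} (hN : 0 ≤ N) (hh : 0 < h) (hab : a ≤ b)
    (ha : -(3/2) ≤ a - h) (hb : b + h ≤ 10) (t : ℝ) :
    IN F N a b t ≤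
      ∫ y, (IN F N (a - h) (b - h) (t + y) + IN F N (a + h) (b + h) (t + y)) / 2 * ker h y := by
  have hU := A.U0
  have hk0 := A.k0
  have hcF := A.diff.continuous
  set f : ℝ → ℝ → ℝ := fun s y => (gN F N (s - h) (t + y) + gN F N (s + h) (t + y)) / 2 * ker h y with hf
  have hfm : Measurable (Function.uncurry f) := by
    have hk : Measurable (ker h) := (ker_continuous hh).measurable
    have a1 : Measurable (fun p : ℝ × ℝ => gN F N (p.1 - h) (t + p.2)) :=
      gN_meas_comp hcF N (measurable_fst.sub_const h) (measurable_snd.const_add t)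
    have a2 : Measurable (fun p : ℝ × ℝ => gN F N (p.1 + h) (t + p.2)) :=
      gN_meas_comp hcF N (measurable_fst.add_const h) (measurable_snd.const_add t)
    exact ((a1.add a2).div_const 2).mul (hk.comp measurable_snd)
  have hfb : ∀ s ∈ Ioc a b, ∀ y, |f s y| ≤ (N + U + 2 * k) * (1 + t ^ 2) * ((1 + y ^ 2) * ker h y) := by
    intro s hs y
    have a1 := A.gN_abs_le hN (s := s - h) (t := t) (y := y) (by linarith [hs.1]) (by linarith [hs.2])
    have a2 := A.gN_abs_le hN (s := s + h) (t := t) (y := y) (by linarith [hs.1]) (by linarith [hs.2])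
    have a3 := abs_add_le (gN F N (s - h) (t + y)) (gN F N (s + h) (t + y))
    have hk := ker_pos hh y
    simp only [hf]
    rw [abs_mul, abs_div, abs_two, abs_of_pos hk]
    have : |gN F N (s - h) (t + y) + gN F N (s + h) (t + y)| / 2 ≤
        (N + U + 2 * k) * (1 + t ^ 2) * (1 + y ^ 2) := by
      linarith
    calc _ ≤ (N + U + 2 * k) * (1 + t ^ 2) * (1 + y ^ 2) * ker h y := by gcongr
      _ = _ := by ring
  have hint : Integrable (Function.uncurry f) ((volume.restrict (Ioc a b)).prod volume) := by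
    have i1 : Integrable (fun p : ℝ × ℝ => (N + U + 2 * k) * (1 + t ^ 2) * ((1 + p.2 ^ 2) * ker h p.2))
        ((volume.restrict (Ioc a b)).prod volume) :=
      ((ker_sq_integrable hh).const_mul _).comp_snd _
    refine i1.mono' hfm.aestronglyMeasurable ?_
    have hae : ∀ᵐ p : ℝ × ℝ ∂((volume.restrict (Ioc a b)).prod volume), p.1 ∈ Ioc a b := by
      have h1 : ∀ᵐ s ∂(volume.restrict (Ioc a b)), s ∈ Ioc a b := ae_restrict_mem measurableSet_Ioc
      exact Measure.quasiMeasurePreserving_fst.ae h1
    filter_upwards [hae] with p hp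
    rw [Real.norm_eq_abs]
    exact hfb p.1 hp p.2
  have hle : IN F N a b t ≤ ∫ s in a..b, ∫ y, f s y := by
    unfold IN
    have hint2 : IntervalIntegrable (fun s => ∫ y, f s y) volume a b := by
      rw [intervalIntegrable_iff_integrableOn_Ioc_of_le hab]
      exact hint.integral_prod_left
    refine intervalIntegral.integral_mono_on hab
      (A.gN_intervalIntegrable hN (by linarith) hab (by linarith) t) hint2 ?_
    intro s hs
    exact A.poisson_gN hN hh (by linarith [hs.1]) (by linarith [hs.2])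
  refine hle.trans (le_of_eq ?_)
  rw [intervalIntegral.integral_of_le hab, integral_integral_swap hint]
  refine integral_congr_ae (Eventually.of_forall fun y => ?_)
  simp only [hf]
  rw [integral_mul_const]
  congr 1
  rw [← intervalIntegral.integral_of_le hab, intervalIntegral.integral_div]
  congr 1
  have j1 : IntervalIntegrable (fun s => gN F N (s - h) (t + y)) volume a b := by
    have := A.gN_intervalIntegrable hN (a := a - h) (b := b - h) (by linarith) (by linarith)
      (by linarith) (t + y)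
    have h3 := this.comp_sub_right h
    simpa using h3
  have j2 : IntervalIntegrable (fun s => gN F N (s + h) (t + y)) volume a b := by
    have := A.gN_intervalIntegrable hN (a := a + h) (b := b + h) (by linarith) (by linarith)
      (by linarith) (t + y)
    have h3 := this.comp_add_right h
    simpa using h3
  rw [intervalIntegral.integral_add j1 j2]
  unfold IN
  congr 1
  · exact intervalIntegral.integral_comp_sub_right (fun s => gN F N s (t + y)) h
  · exact intervalIntegral.integral_comp_add_right (fun s => gN F N s (t + y)) h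

end Pool.Agent.J4H31.SA
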