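import Mathlib
import Pool.Agent.J4H31.SA.D

/-!
# Project SA: the integrated Poisson inequality without truncation
-/

set_option autoImplicit false

open MeasureTheory Filter Topology Set Real

namespace Pool.Agent.J4H31.SA

open Pool.Agent.Y757.LS (ker ker_pos ker_continuous ker_integrable_of_le ker_integrable integral_ker
  ker_sq_integrable ker_le C0 C0_nonneg integral_quad_ker)

variable {F : ℂ → ℂ} {L e U k η : ℝ}

/-- two-sided bounds to the right of `Re = 1` -/
lemma AF.right_bound (A : AF L e U k η F) {s : ℝ} (hs : 1 / 2 + η ≤ s) (hs' : s ≤ 10) (t : ℝ) :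
    F (pt s t) ≠ 0 ∧ |g F s t| ≤ e + k * t ^ 2 := by
  have h1 := A.lo s t hs hs'
  have h2 := A.hi s t hs hs'
  have h3 : 0 < ‖F (pt s t)‖ := lt_of_lt_of_le (Real.exp_pos _) h1
  refine ⟨norm_pos_iff.1 h3, ?_⟩
  unfold g
  rw [abs_le]
  exact ⟨(Real.le_log_iff_exp_le h3).2 h1, (Real.log_le_iff_le_exp h3).2 h2⟩

/-- the restriction to a horizontal line is real-analytic -/
lemma AF.line_analyticAt (A : AF L e U k η F) (s t : ℝ) :
    AnalyticAt ℝ (fun s : ℝ => F (pt s t)) s := by
  have h1 : AnalyticAt ℝ F (pt s t) := (A.diff.analyticAt (pt s t)).restrictScalars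
  have h2 : AnalyticAt ℝ (fun s : ℝ => pt s t) s := by
    unfold pt
    refine AnalyticAt.add ?_ analyticAt_const
    exact Complex.ofRealCLM.analyticAt s
  exact AnalyticAt.fun_comp h1 h2

lemma AF.g_intervalIntegrable (A : AF L e U k η F) (a b t : ℝ) :
    IntervalIntegrable (fun s => g F s t) volume a b := by
  unfold g
  refine MeromorphicOn.intervalIntegrable_log_norm (f := fun s : ℝ => F (pt s t)) ?_
  intro s _
  exact (A.line_analyticAt s t).meromorphicAt

/-- zeros on a horizontal line are negligible -/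
lemma AF.ae_ne (A : AF L e U k η F) {a b : ℝ} (ha : -(3/2) ≤ a) (hb : b ≤ 10) (t : ℝ) :
    ∀ᵐ s ∂(volume.restrict (Ioc a b)), F (pt s t) ≠ 0 := by
  have h1 : AnalyticOnNhd ℝ (fun s : ℝ => F (pt s t)) (Icc (-(3/2)) 10) := by
    intro s hs
    exact A.line_analyticAt s t
  have h2 : IsPreconnected (Icc (-(3/2) : ℝ) 10) := isPreconnected_Icc
  rcases h1.eqOn_zero_or_eventually_ne_zero_of_preconnected h2 with h3 | h3
  · exfalso
    have h4 := h3 (show (2:ℝ) ∈ Icc (-(3/2) : ℝ) 10 by constructor <;> norm_num)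
    have := A.η1
    exact (A.right_bound (s := 2) (by linarith) (by norm_num) t).1 h4
  · have h4 := ae_restrict_le_codiscreteWithin (μ := volume) measurableSet_Icc h3
    have h5 : Ioc a b ⊆ Icc (-(3/2) : ℝ) 10 := fun x hx =>
      ⟨by linarith [hx.1], by linarith [hx.2]⟩
    exact ae_restrict_of_ae_restrict_of_subset h5 h4

lemma gN_antitone (s t : ℝ) {N N' : ℝ} (h : N ≤ N') : gN F N' s t ≤ gN F N s t := by
  by_cases h0 : F (pt s t) = 0
  · rw [gN_of_zero h0, gN_of_zero h0]; linarith
  · rw [gN_of_ne h0, gN_of_ne h0]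
    exact max_le_max (by linarith) le_rfl

lemma g_le_gN {s t : ℝ} (h0 : F (pt s t) ≠ 0) (N : ℝ) : g F s t ≤ gN F N s t := by
  rw [gN_of_ne h0]; exact le_max_right _ _

lemma gN_eq {s t N : ℝ} (h0 : F (pt s t) ≠ 0) (hN : |g F s t| ≤ N) : gN F N s t = g F s t := by
  rw [gN_of_ne h0]
  exact max_eq_right (by linarith [neg_abs_le (g F s t)])

lemma AF.IN_antitone (A : AF L e U k η F) {a b : ℝ} (ha : -(3/2) ≤ a) (hab : a ≤ b) (hb : b ≤ 10)
    {N N' : ℝ} (hN : 0 ≤ N) (h : N ≤ N') (t : ℝ) : IN F N' a b t ≤ IN F N a b t := by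
  unfold IN
  exact intervalIntegral.integral_mono_on hab (A.gN_intervalIntegrable (by linarith) ha hab hb t)
    (A.gN_intervalIntegrable hN ha hab hb t) (fun s _ => gN_antitone s t h)

lemma AF.II_le_IN (A : AF L e U k η F) {a b : ℝ} (ha : -(3/2) ≤ a) (hab : a ≤ b) (hb : b ≤ 10)
    {N : ℝ} (hN : 0 ≤ N) (t : ℝ) : II F a b t ≤ IN F N a b t := by
  unfold II IN
  rw [intervalIntegral.integral_of_le hab, intervalIntegral.integral_of_le hab]
  refine integral_mono_ae ?_ ?_ ?_
  · exact (intervalIntegrable_iff_integrableOn_Ioc_of_le hab).1 (A.g_intervalIntegrable a b t)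
  · exact (intervalIntegrable_iff_integrableOn_Ioc_of_le hab).1
      (A.gN_intervalIntegrable hN ha hab hb t)
  · filter_upwards [A.ae_ne ha hb t] with s hs
    exact g_le_gN hs N

lemma AF.IN_tendsto (A : AF L e U k η F) {a b : ℝ} (ha : -(3/2) ≤ a) (hab : a ≤ b) (hb : b ≤ 10)
    (t : ℝ) : Tendsto (fun n : ℕ => IN F n a b t) atTop (𝓝 (II F a b t)) := by
  unfold II IN
  simp only [intervalIntegral.integral_of_le hab]
  refine tendsto_integral_of_dominated_convergence (fun s => |g F s t|) ?_ ?_ ?_ ?_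
  · intro n
    exact (gN_meas_comp A.diff.continuous n measurable_id measurable_const).aestronglyMeasurable
  · exact ((intervalIntegrable_iff_integrableOn_Ioc_of_le hab).1
      (A.g_intervalIntegrable a b t)).abs
  · intro n
    filter_upwards [A.ae_ne ha hb t] with s hs
    rw [gN_of_ne hs, Real.norm_eq_abs]
    have hn : (0:ℝ) ≤ n := Nat.cast_nonneg n
    rcases le_total (-(n:ℝ)) (g F s t) with h1 | h1
    · rw [max_eq_right h1]
    · rw [max_eq_left h1, abs_neg, abs_of_nonneg hn, abs_of_nonpos (by linarith)]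
      linarith
  · filter_upwards [A.ae_ne ha hb t] with s hs
    refine tendsto_const_nhds.congr' ?_
    obtain ⟨n, hn⟩ := exists_nat_ge |g F s t|
    filter_upwards [eventually_ge_atTop n] with m hm
    rw [gN_eq hs (hn.trans (by exact_mod_cast hm))]

/-- upper bound of the horizontal integrals -/
lemma AF.II_upper (A : AF L e U k η F) {a b : ℝ} (ha : -(3/2) ≤ a) (hab : a ≤ b) (hb : b ≤ 10)
    (t : ℝ) : II F a b t ≤ (b - a) * (U + k * t ^ 2) ∧
    ∀ N : ℝ, 0 ≤ N → IN F N a b t ≤ (b - a) * (U + k * t ^ 2) := by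
  have key : ∀ N : ℝ, 0 ≤ N → IN F N a b t ≤ (b - a) * (U + k * t ^ 2) := by
    intro N hN
    unfold IN
    have h1 := intervalIntegral.integral_mono_on hab (A.gN_intervalIntegrable hN ha hab hb t)
      (intervalIntegrable_const (c := U + k * t ^ 2))
      (fun s hs => A.gN_le (s := s) (t := t) (by linarith [hs.1]) (by linarith [hs.2]) hN)
    rw [intervalIntegral.integral_const, smul_eq_mul] at h1
    exact h1
  exact ⟨(A.II_le_IN ha hab hb le_rfl t).trans (key 0 le_rfl), key⟩

/-- the bound of the horizontal integrals to the right of `1` -/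
lemma AF.II_right (A : AF L e U k η F) {a b : ℝ} (ha : 1 / 2 + η ≤ a) (hab : a ≤ b) (hb : b ≤ 10)
    (t : ℝ) : |II F a b t| ≤ (e + k * t ^ 2) * (b - a) ∧
    ∀ N : ℝ, 0 ≤ N → -((e + k * t ^ 2) * (b - a)) ≤ IN F N a b t ∧
      IN F N a b t ≤ (e + k * t ^ 2) * (b - a) := by
  have he := A.e0
  have hk := A.k0
  have hη := A.η0
  have hc : 0 ≤ e + k * t ^ 2 := by positivity
  refine ⟨?_, fun N hN => ?_⟩
  · unfold II
    rw [← Real.norm_eq_abs]
    have h1 := intervalIntegral.norm_integral_le_of_norm_le_const (f := fun s => g F s t)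
      (C := e + k * t ^ 2) (a := a) (b := b) (fun s hs => by
        rw [uIoc_of_le hab] at hs
        rw [Real.norm_eq_abs]
        exact (A.right_bound (by linarith [hs.1]) (by linarith [hs.2]) t).2)
    rwa [abs_of_nonneg (by linarith)] at h1
  · have hb1 : ∀ s ∈ Icc a b, -(e + k * t ^ 2) ≤ gN F N s t ∧ gN F N s t ≤ e + k * t ^ 2 := by
      intro s hs
      obtain ⟨h1, h2⟩ := A.right_bound (s := s) (by linarith [hs.1]) (by linarith [hs.2]) t
      rw [abs_le] at h2
      rw [gN_of_ne h1]
      exact ⟨h2.1.trans (le_max_right _ _), max_le (by linarith) h2.2⟩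
    have hi := A.gN_intervalIntegrable hN (by linarith) hab hb t
    unfold IN
    have h1 := intervalIntegral.integral_mono_on hab hi
      (intervalIntegrable_const (c := e + k * t ^ 2)) (fun s hs => (hb1 s hs).2)
    have h2 := intervalIntegral.integral_mono_on hab (intervalIntegrable_const (c := -(e + k * t ^ 2))) hi
      (fun s hs => (hb1 s hs).1)
    rw [intervalIntegral.integral_const, smul_eq_mul] at h1 h2
    constructor <;> linarith

lemma AF.IN_ker_integrable (A : AF L e U k η F) {N a b h : ℝ} (hN : 0 ≤ N) (ha : -(3/2) ≤ a)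
    (hab : a ≤ b) (hb : b ≤ 10) (hh : 0 < h) (t : ℝ) :
    Integrable (fun y => IN F N a b (t + y) * ker h y) := by
  refine ker_integrable_of_le hh (A := (N + U + 2 * k) * (1 + t ^ 2) * (b - a))
    ((IN_measurable A.diff.continuous N a b).comp (measurable_const_add t)).aestronglyMeasurable
    fun y => ?_
  unfold IN
  rw [← Real.norm_eq_abs]
  have h1 := intervalIntegral.norm_integral_le_of_norm_le_const (f := fun s => gN F N s (t + y))
    (C := (N + U + 2 * k) * (1 + t ^ 2) * (1 + y ^ 2)) (a := a) (b := b) (fun s hs => by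
      rw [uIoc_of_le hab] at hs
      rw [Real.norm_eq_abs]
      exact A.gN_abs_le hN (by linarith [hs.1]) (by linarith [hs.2]))
  rw [abs_of_nonneg (show 0 ≤ b - a by linarith)] at h1
  linarith

lemma quad_int {h : ℝ} (hh : 0 < h) (p q t : ℝ) :
    Integrable (fun y => (p + q * (t + y) ^ 2) * ker h y) := by
  refine ker_integrable_of_le hh (A := |p| + |q| * (2 * t ^ 2 + 2)) (by fun_prop) fun y => ?_
  have h1 : (t + y) ^ 2 ≤ (2 * t ^ 2 + 2) * (1 + y ^ 2) := by
    nlinarith [sq_nonneg (t - y), sq_nonneg t, sq_nonneg y, mul_nonneg (sq_nonneg t) (sq_nonneg y)]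
  have h2 : |p + q * (t + y) ^ 2| ≤ |p| + |q| * (t + y) ^ 2 := by
    refine (abs_add_le _ _).trans ?_
    rw [abs_mul, abs_of_nonneg (sq_nonneg (t + y))]
  have h3 : |p| ≤ |p| * (1 + y ^ 2) :=
    le_mul_of_one_le_right (abs_nonneg _) (by nlinarith [sq_nonneg y])
  have h4 : |q| * (t + y) ^ 2 ≤ |q| * ((2 * t ^ 2 + 2) * (1 + y ^ 2)) :=
    mul_le_mul_of_nonneg_left h1 (abs_nonneg _)
  calc |p + q * (t + y) ^ 2| ≤ |p| + |q| * (t + y) ^ 2 := h2
    _ ≤ |p| * (1 + y ^ 2) + |q| * ((2 * t ^ 2 + 2) * (1 + y ^ 2)) := by linarith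
    _ = _ := by ring

/-- lower bound for averages over the kernel `ker 3` -/
lemma AF.IN_avg_lower (A : AF L e U k η F) {N a b : ℝ} (hN : 0 ≤ N) (ha : -(3/2) ≤ a)
    (hab : a ≤ b) (hb : b ≤ 4) (t : ℝ) :
    -((3 * e + 3 * k * t ^ 2 + 9 * k * C0) * (b - a)) ≤ ∫ y, IN F N a b (t + y) * ker 3 y := by
  have hη := A.η1
  have hba : 0 ≤ b - a := by linarith
  have h1 := A.D_N (N := N) (a := a + 3) (b := b + 3) (h := 3) hN (by norm_num) (by linarith)
    (by linarith) (by linarith) t
  rw [show a + 3 - 3 = a by ring, show b + 3 - 3 = b by ring, show a + 3 + 3 = a + 6 by ring,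
    show b + 3 + 3 = b + 6 by ring] at h1
  have i1 := A.IN_ker_integrable hN ha hab (by linarith) (by norm_num : (0:ℝ) < 3) t
  have i2 := A.IN_ker_integrable (a := a + 6) (b := b + 6) hN (by linarith) (by linarith)
    (by linarith) (by norm_num : (0:ℝ) < 3) t
  have e1 : (fun y => (IN F N a b (t + y) + IN F N (a + 6) (b + 6) (t + y)) / 2 * ker 3 y) =
      fun y => (1/2 : ℝ) * (IN F N a b (t + y) * ker 3 y) +
        (1/2 : ℝ) * (IN F N (a + 6) (b + 6) (t + y) * ker 3 y) := by
    funext y; ring
  rw [e1, integral_add (i1.const_mul _) (i2.const_mul _), integral_const_mul,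
    integral_const_mul] at h1
  have h2 := ((A.II_right (a := a + 3) (b := b + 3) (by linarith) (by linarith) (by linarith) t).2
    N hN).1
  have h3 : ∫ y, IN F N (a + 6) (b + 6) (t + y) * ker 3 y ≤
      (e + k * (t ^ 2 + C0 * 3 ^ 2)) * (b - a) := by
    calc ∫ y, IN F N (a + 6) (b + 6) (t + y) * ker 3 y ≤
          ∫ y, (b - a) * ((e + k * (t + y) ^ 2) * ker 3 y) := by
          refine integral_mono i2 ((quad_int (by norm_num) e k t).const_mul _) fun y => ?_
          have := ((A.II_right (a := a + 6) (b := b + 6) (by linarith) (by linarith) (by linarith)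
            (t + y)).2 N hN).2
          have hk := ker_pos (by norm_num : (0:ℝ) < 3) y
          rw [show b + 6 - (a + 6) = b - a by ring] at this
          calc IN F N (a + 6) (b + 6) (t + y) * ker 3 y ≤
                ((e + k * (t + y) ^ 2) * (b - a)) * ker 3 y := by gcongr
            _ = _ := by ring
      _ = _ := by rw [integral_const_mul, integral_quad_ker (by norm_num)]; ring
  rw [show b + 3 - (a + 3) = b - a by ring] at h2
  nlinarith

/-- integrability of the horizontal integral against the kernels -/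
lemma AF.II_ker_integrable (A : AF L e U k η F) {a b h : ℝ} (ha : -(3/2) ≤ a) (hab : a ≤ b)
    (hb : b ≤ 4) (hh : 0 < h) (hh3 : h ≤ 3) (t : ℝ) :
    Integrable (fun y => II F a b (t + y) * ker h y) := by
  have hba : 0 ≤ b - a := by linarith
  have hU0 := A.U0
  have hk0 := A.k0
  have hcF := A.diff.continuous
  set W : ℝ → ℝ := fun y => (b - a) * (U + k * (t + y) ^ 2) with hW
  have hWc : Continuous W := by fun_prop
  have iW : ∀ {κ : ℝ}, 0 < κ → Integrable (fun y => W y * ker κ y) := fun hκ => by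
    refine ((quad_int hκ U k t).const_mul (b - a)).congr (Eventually.of_forall fun y => ?_)
    simp only [hW]
    ring
  set φ : ℕ → ℝ → ℝ := fun n y => (W y - IN F n a b (t + y)) * ker h y with hφ
  set ψ : ℝ → ℝ := fun y => (W y - II F a b (t + y)) * ker h y with hψ
  have hup := fun τ => A.II_upper (a := a) (b := b) ha hab (by linarith) τ
  have hφ0 : ∀ n y, 0 ≤ φ n y := by
    intro n y
    have h1 := (hup (t + y)).2 n (Nat.cast_nonneg n)
    have h2 := ker_pos hh y
    simp only [hφ, hW]
    exact mul_nonneg (by linarith) h2.le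
  have hψ0 : ∀ y, 0 ≤ ψ y := by
    intro y
    have h1 := (hup (t + y)).1
    have h2 := ker_pos hh y
    simp only [hψ, hW]
    exact mul_nonneg (by linarith) h2.le
  have hφm : ∀ n, Measurable (φ n) := by
    intro n
    exact (hWc.measurable.sub ((IN_measurable hcF n a b).comp (measurable_const_add t))).mul
      (ker_continuous hh).measurable
  have hψm : Measurable ψ :=
    (hWc.measurable.sub ((II_measurable hcF a b).comp (measurable_const_add t))).mul
      (ker_continuous hh).measurable
  have hlim : ∀ y, Tendsto (fun n => φ n y) atTop (𝓝 (ψ y)) := fun y =>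
    ((A.IN_tendsto ha hab (by linarith) (t + y)).const_sub _).mul_const _
  have hφi : ∀ n, Integrable (φ n) := by
    intro n
    have h1 := (iW hh).sub (A.IN_ker_integrable (Nat.cast_nonneg n) ha hab (by linarith) hh t)
    refine h1.congr (Eventually.of_forall fun y => ?_)
    simp only [hφ, Pi.sub_apply]
    ring
  set B : ℝ := 3 / h * ((∫ y, W y * ker 3 y) + (3 * e + 3 * k * t ^ 2 + 9 * k * C0) * (b - a)) with hB
  have hφB : ∀ n, ∫ y, φ n y ≤ B := by
    intro n
    have i3 := A.IN_ker_integrable (Nat.cast_nonneg n) ha hab (by linarith) (by norm_num : (0:ℝ) < 3) t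
    calc ∫ y, φ n y ≤ ∫ y, 3 / h * (W y * ker 3 y - IN F n a b (t + y) * ker 3 y) := by
          refine integral_mono (hφi n) (((iW (by norm_num)).sub i3).const_mul _) fun y => ?_
          have h1 := (hup (t + y)).2 n (Nat.cast_nonneg n)
          have h2 := ker_le hh hh3 y
          simp only [hφ]
          have h3 : 0 ≤ W y - IN F n a b (t + y) := by simp only [hW]; linarith
          calc (W y - IN F n a b (t + y)) * ker h y ≤ (W y - IN F n a b (t + y)) * (3 / h * ker 3 y) :=
                mul_le_mul_of_nonneg_left h2 h3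
            _ = _ := by ring
      _ = 3 / h * ((∫ y, W y * ker 3 y) - ∫ y, IN F n a b (t + y) * ker 3 y) := by
          rw [integral_const_mul, integral_sub (iW (by norm_num)) i3]
      _ ≤ B := by
          have := A.IN_avg_lower (N := n) (Nat.cast_nonneg n) ha hab hb t
          rw [hB]
          have : 0 < 3 / h := by positivity
          gcongr
          linarith
  have hψi : Integrable ψ := by
    refine ⟨hψm.aestronglyMeasurable, ?_⟩
    rw [hasFiniteIntegral_iff_ofReal (Eventually.of_forall hψ0)]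
    have h1 : ∀ y, ENNReal.ofReal (ψ y) = liminf (fun n => ENNReal.ofReal (φ n y)) atTop := by
      intro y
      exact ((ENNReal.continuous_ofReal.tendsto _).comp (hlim y)).liminf_eq.symm
    calc ∫⁻ y, ENNReal.ofReal (ψ y) = ∫⁻ y, liminf (fun n => ENNReal.ofReal (φ n y)) atTop := by
          simp only [h1]
      _ ≤ liminf (fun n => ∫⁻ y, ENNReal.ofReal (φ n y)) atTop :=
          lintegral_liminf_le fun n => (hφm n).ennreal_ofReal
      _ ≤ ENNReal.ofReal B := by
          refine liminf_le_of_frequently_le' (Frequently.of_forall fun n => ?_)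
          rw [← ofReal_integral_eq_lintegral_ofReal (hφi n) (Eventually.of_forall (hφ0 n))]
          exact ENNReal.ofReal_le_ofReal (hφB n)
      _ < ⊤ := ENNReal.ofReal_lt_top
  have h2 := (iW hh).sub hψi
  refine h2.congr (Eventually.of_forall fun y => ?_)
  simp only [hψ, Pi.sub_apply]
  ring

lemma AF.IN_ker_tendsto (A : AF L e U k η F) {a b h : ℝ} (ha : -(3/2) ≤ a) (hab : a ≤ b)
    (hb : b ≤ 4) (hh : 0 < h) (hh3 : h ≤ 3) (t : ℝ) :
    Tendsto (fun n : ℕ => ∫ y, IN F n a b (t + y) * ker h y) atTop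
      (𝓝 (∫ y, II F a b (t + y) * ker h y)) := by
  have i0 := A.IN_ker_integrable (N := 0) le_rfl ha hab (by linarith : b ≤ 10) hh t
  have i1 := A.II_ker_integrable ha hab hb hh hh3 t
  refine tendsto_integral_of_dominated_convergence
    (fun y => |IN F 0 a b (t + y) * ker h y| + |II F a b (t + y) * ker h y|) ?_ (i0.abs.add i1.abs)
    ?_ ?_
  · intro n
    exact (A.IN_ker_integrable (Nat.cast_nonneg n) ha hab (by linarith) hh t).aestronglyMeasurable
  · intro n
    refine Eventually.of_forall fun y => ?_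
    have hk := ker_pos hh y
    rw [Real.norm_eq_abs, abs_mul, abs_mul, abs_mul, abs_of_pos hk, ← add_mul]
    have h1 := A.II_le_IN ha hab (by linarith : b ≤ 10) (Nat.cast_nonneg n) (t + y)
    have h2 := A.IN_antitone ha hab (by linarith : b ≤ 10) le_rfl (Nat.cast_nonneg n) (t + y)
    have h3 : |IN F n a b (t + y)| ≤ |IN F 0 a b (t + y)| + |II F a b (t + y)| := by
      rw [abs_le]
      have a1 := neg_abs_le (II F a b (t + y))
      have a2 := le_abs_self (IN F 0 a b (t + y))
      have a3 := abs_nonneg (IN F 0 a b (t + y))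
      have a4 := abs_nonneg (II F a b (t + y))
      constructor <;> linarith
    gcongr
  · refine Eventually.of_forall fun y => ?_
    exact (A.IN_tendsto ha hab (by linarith) (t + y)).mul_const _

/-- **the integrated Poisson inequality** -/
theorem AF.D_ineq (A : AF L e U k η F) {a b h : ℝ} (hh : 0 < h) (hh3 : h ≤ 3) (hab : a ≤ b)
    (ha : -(3/2) ≤ a - h) (hb : b + h ≤ 4) (t : ℝ) :
    II F a b t ≤ (1/2) * ((∫ y, II F (a - h) (b - h) (t + y) * ker h y) +
      ∫ y, II F (a + h) (b + h) (t + y) * ker h y) := by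
  have h1 := A.IN_ker_tendsto (a := a - h) (b := b - h) ha (by linarith) (by linarith) hh hh3 t
  have h2 := A.IN_ker_tendsto (a := a + h) (b := b + h) (by linarith) (by linarith) hb hh hh3 t
  have h3 := (h1.add h2).const_mul (1/2)
  have h4 := A.IN_tendsto (a := a) (b := b) (by linarith) hab (by linarith) t
  refine le_of_tendsto_of_tendsto' h4 h3 fun n => ?_
  have h5 := A.D_N (N := n) (Nat.cast_nonneg n) hh hab ha (by linarith) t
  refine h5.trans (le_of_eq ?_)
  have i1 := A.IN_ker_integrable (a := a - h) (b := b - h) (Nat.cast_nonneg n) ha (by linarith)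
    (by linarith) hh t
  have i2 := A.IN_ker_integrable (a := a + h) (b := b + h) (Nat.cast_nonneg n) (by linarith)
    (by linarith) (by linarith) hh t
  rw [← integral_add i1 i2, ← integral_const_mul]
  refine integral_congr_ae (Eventually.of_forall fun y => ?_)
  simp only
  ring

end Pool.Agent.J4H31.SA
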