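import Mathlib
import Pool.Agent.J4H31.SA.L

/-!
# Project SA: quadratic majorants, doubling of windows
-/

set_option autoImplicit false

open MeasureTheory Filter Topology Set Real

namespace Pool.Agent.J4H31.SA

open Pool.Agent.Y757.LS (ker ker_pos ker_continuous ker_integrable_of_le ker_integrable integral_ker
  ker_sq_integrable ker_le C0 C0_nonneg integral_quad_ker)

/-- average over the kernel -/
noncomputable def E (h : ℝ) (f : ℝ → ℝ) (t : ℝ) : ℝ := ∫ y, f (t + y) * ker h y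

/-- integrability against the kernel -/
def KI (h : ℝ) (f : ℝ → ℝ) : Prop := ∀ t, Integrable (fun y => f (t + y) * ker h y)

/-- quadratic majorant -/
def Maj (f : ℝ → ℝ) (p q : ℝ) : Prop := ∀ t, f t ≤ p + q * t ^ 2

lemma Maj.mono {f : ℝ → ℝ} {p q p' q' : ℝ} (h : Maj f p q) (hp : p ≤ p') (hq : q ≤ q') :
    Maj f p' q' := by
  intro t
  have h1 := h t
  have h2 : q * t ^ 2 ≤ q' * t ^ 2 := mul_le_mul_of_nonneg_right hq (sq_nonneg _)
  linarith

lemma E_quad {h : ℝ} (hh : 0 < h) (p q t : ℝ) :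
    ∫ y, (p + q * (t + y) ^ 2) * ker h y = p + q * C0 * h ^ 2 + q * t ^ 2 := by
  rw [integral_quad_ker hh]
  ring

lemma E_le_of_Maj {f : ℝ → ℝ} {p q h : ℝ} (hh : 0 < h) (hi : KI h f) (hm : Maj f p q) :
    Maj (E h f) (p + q * C0 * h ^ 2) q := by
  intro t
  unfold E
  rw [← E_quad hh p q t]
  refine integral_mono (hi t) (quad_int hh p q t) fun y => ?_
  exact mul_le_mul_of_nonneg_right (hm (t + y)) (ker_pos hh y).le

variable {F : ℂ → ℂ} {L e U k η : ℝ}

lemma AF.II_split (A : AF L e U k η F) (a b c t : ℝ) : II F a c t = II F a b t + II F b c t := by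
  unfold II
  rw [intervalIntegral.integral_add_adjacent_intervals
    (A.g_intervalIntegrable a b t) (A.g_intervalIntegrable b c t)]

lemma AF.II_KI (A : AF L e U k η F) {a b h : ℝ} (ha : -(3/2) ≤ a) (hab : a ≤ b) (hb : b ≤ 4)
    (hh : 0 < h) (hh3 : h ≤ 3) : KI h (II F a b) := fun t => A.II_ker_integrable ha hab hb hh hh3 t

/-- doubling -/
lemma AF.II_double (A : AF L e U k η F) {c δ : ℝ} (hδ : 0 < δ) (hδ3 : δ ≤ 3)
    (h1 : -(3/2) ≤ c - 2 * δ) (h2 : c + 2 * δ ≤ 4) (t : ℝ) :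
    II F (c - δ) (c + δ) t ≤ (1/2) * E δ (II F (c - 2 * δ) (c + 2 * δ)) t := by
  have h3 := A.D_ineq (a := c - δ) (b := c + δ) (h := δ) hδ hδ3 (by linarith) (by linarith)
    (by linarith) t
  rw [show c - δ - δ = c - 2 * δ by ring, show c + δ - δ = c by ring,
    show c - δ + δ = c by ring, show c + δ + δ = c + 2 * δ by ring] at h3
  refine h3.trans (le_of_eq ?_)
  unfold E
  rw [← integral_add (A.II_ker_integrable h1 (by linarith) (by linarith) hδ hδ3 t)
    (A.II_ker_integrable (by linarith) (by linarith) h2 hδ hδ3 t)]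
  congr 1
  refine integral_congr_ae (Eventually.of_forall fun y => ?_)
  simp only
  rw [A.II_split (c - 2 * δ) c (c + 2 * δ) (t + y)]
  ring

/-- sums over windows -/
noncomputable def V (F : ℂ → ℂ) (S : Finset ℝ) (δ t : ℝ) : ℝ :=
  ∑ c ∈ S, (1 / (2 * δ)) * II F (c - δ) (c + δ) t

lemma AF.V_double (A : AF L e U k η F) {S : Finset ℝ} {δ : ℝ} (hδ : 0 < δ) (hδ3 : δ ≤ 3)
    (hS : ∀ c ∈ S, -(3/2) ≤ c - 2 * δ ∧ c + 2 * δ ≤ 4) (t : ℝ) :
    V F S δ t ≤ E δ (V F S (2 * δ)) t := by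
  unfold V E
  have e1 : ∀ y, (∑ c ∈ S, 1 / (2 * (2 * δ)) * II F (c - 2 * δ) (c + 2 * δ) (t + y)) * ker δ y =
      ∑ c ∈ S, 1 / (2 * (2 * δ)) * (II F (c - 2 * δ) (c + 2 * δ) (t + y) * ker δ y) := by
    intro y
    rw [Finset.sum_mul]
    refine Finset.sum_congr rfl fun c _ => ?_
    ring
  simp only [e1]
  rw [integral_finsetSum S (fun c hc => (A.II_ker_integrable (hS c hc).1 (by linarith)
    (hS c hc).2 hδ hδ3 t).const_mul _)]
  refine Finset.sum_le_sum fun c hc => ?_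
  rw [integral_const_mul]
  have h1 := A.II_double hδ hδ3 (hS c hc).1 (hS c hc).2 t
  unfold E at h1
  have h2 : 0 < 1 / (2 * δ) := by positivity
  calc 1 / (2 * δ) * II F (c - δ) (c + δ) t ≤ 1 / (2 * δ) *
        ((1/2) * ∫ y, II F (c - 2 * δ) (c + 2 * δ) (t + y) * ker δ y) := by gcongr
    _ = _ := by field_simp

lemma AF.V_KI (A : AF L e U k η F) {S : Finset ℝ} {δ h : ℝ} (hδ : 0 < δ) (hh : 0 < h) (hh3 : h ≤ 3)
    (hS : ∀ c ∈ S, -(3/2) ≤ c - δ ∧ c + δ ≤ 4) : KI h (V F S δ) := by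
  intro t
  unfold V
  have e1 : (fun y => (∑ c ∈ S, 1 / (2 * δ) * II F (c - δ) (c + δ) (t + y)) * ker h y) =
      fun y => ∑ c ∈ S, 1 / (2 * δ) * (II F (c - δ) (c + δ) (t + y) * ker h y) := by
    funext y
    rw [Finset.sum_mul]
    refine Finset.sum_congr rfl fun c _ => ?_
    ring
  rw [e1]
  exact integrable_finsetSum S (fun c hc => (A.II_ker_integrable (hS c hc).1 (by linarith)
    (hS c hc).2 hh hh3 t).const_mul _)

/-- iterated doubling of majorants -/
lemma AF.V_iter (A : AF L e U k η F) {S : Finset ℝ} {δ p q : ℝ} (hδ : 0 < δ) (hδ3 : δ ≤ 3)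
    (hS : ∀ c ∈ S, -(3/2) ≤ c - δ ∧ c + δ ≤ 4) (hq : 0 ≤ q) (hm : Maj (V F S δ) p q) (n : ℕ) :
    Maj (V F S (δ / 2 ^ n)) (p + q * C0 * δ ^ 2 * (1 - 1 / 4 ^ n)) q := by
  induction n with
  | zero =>
    simpa using hm
  | succ n ih =>
    set d : ℝ := δ / 2 ^ (n + 1) with hd
    have hd0 : 0 < d := by positivity
    have h2n : (1:ℝ) ≤ 2 ^ n := one_le_pow₀ (by norm_num)
    have e1 : δ / 2 ^ n = 2 * d := by rw [hd, pow_succ]; field_simp
    have hdd : 2 * d ≤ δ := by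
      rw [← e1]
      exact div_le_self hδ.le h2n
    rw [e1] at ih
    have hS' : ∀ c ∈ S, -(3/2) ≤ c - 2 * d ∧ c + 2 * d ≤ 4 := fun c hc =>
      ⟨by linarith [(hS c hc).1], by linarith [(hS c hc).2]⟩
    have h1 := E_le_of_Maj hd0 (A.V_KI (by linarith) hd0 (by linarith) hS') ih
    intro t
    refine (A.V_double hd0 (by linarith) hS' t).trans ((h1 t).trans ?_)
    have e2 : q * C0 * d ^ 2 = q * C0 * δ ^ 2 * (1 / 4 ^ (n + 1)) := by
      rw [hd, div_pow, ← pow_mul, mul_comm (n + 1) 2, pow_mul]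
      norm_num
      ring
    rw [e2]
    have h4 : (0:ℝ) < 1 / 4 ^ (n + 1) := by positivity
    have e3 : (1:ℝ) / 4 ^ n = 4 * (1 / 4 ^ (n + 1)) := by rw [pow_succ]; field_simp
    rw [e3]
    have h5 : 0 ≤ q * C0 * δ ^ 2 := by have := C0_nonneg; positivity
    nlinarith

/-- `g` is continuous off the zeros -/
lemma AF.g_continuousAt (A : AF L e U k η F) {c T : ℝ} (h0 : F (pt c T) ≠ 0) :
    ContinuousAt (fun s => g F s T) c := by
  have h1 : ContinuousAt (fun s => F (pt s T)) c := (A.line_analyticAt c T).continuousAt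
  unfold g
  exact (h1.norm).log (norm_ne_zero_iff.2 h0)

lemma AF.window_lower (A : AF L e U k η F) {c T ε : ℝ} (h0 : F (pt c T) ≠ 0) (hε : 0 < ε) :
    ∃ r : ℝ, 0 < r ∧ ∀ d : ℝ, 0 < d → d < r →
      g F c T - ε ≤ (1 / (2 * d)) * II F (c - d) (c + d) T := by
  have h1 := A.g_continuousAt h0
  rw [Metric.continuousAt_iff] at h1
  obtain ⟨r, hr0, hr⟩ := h1 ε hε
  refine ⟨r, hr0, fun d hd hdr => ?_⟩
  have h2 : ∫ _ in (c - d)..(c + d), (g F c T - ε) ≤ II F (c - d) (c + d) T := by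
    unfold II
    refine intervalIntegral.integral_mono_on (by linarith) intervalIntegrable_const
      (A.g_intervalIntegrable _ _ T) fun s hs => ?_
    have h3 := hr (x := s) (by
      rw [Real.dist_eq, abs_lt]
      constructor <;> linarith [hs.1, hs.2])
    rw [Real.dist_eq, abs_lt] at h3
    linarith [h3.1]
  rw [intervalIntegral.integral_const, smul_eq_mul, show c + d - (c - d) = 2 * d by ring] at h2
  rw [one_div, le_inv_mul_iff₀ (by positivity)]
  exact h2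

/-- **the values at the centres are bounded by a majorant for the windows** -/
theorem AF.centre_le (A : AF L e U k η F) {S : Finset ℝ} {δ p q : ℝ} (hδ : 0 < δ) (hδ3 : δ ≤ 3)
    (hS : ∀ c ∈ S, -(3/2) ≤ c - δ ∧ c + δ ≤ 4) (h0 : ∀ c ∈ S, F (pt c 0) ≠ 0)
    (hq : 0 ≤ q) (hm : Maj (V F S δ) p q) : ∑ c ∈ S, g F c 0 ≤ p + q * C0 * δ ^ 2 := by
  have key : ∀ ε : ℝ, 0 < ε → ∑ c ∈ S, (g F c 0 - ε) ≤ p + q * C0 * δ ^ 2 := by
    intro ε hε
    have h1 : ∀ c ∈ S, ∃ r : ℝ, 0 < r ∧ ∀ d : ℝ, 0 < d → d < r →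
      g F c 0 - ε ≤ (1 / (2 * d)) * II F (c - d) (c + d) 0 := fun c hc =>
        A.window_lower (h0 c hc) hε
    have h2 : ∀ᶠ n : ℕ in atTop, ∀ c ∈ S, g F c 0 - ε ≤
        (1 / (2 * (δ / 2 ^ n))) * II F (c - δ / 2 ^ n) (c + δ / 2 ^ n) 0 := by
      rw [Filter.eventually_all_finset]
      intro c hc
      obtain ⟨r, hr0, hr⟩ := h1 c hc
      have h3 : Tendsto (fun n : ℕ => δ / 2 ^ n) atTop (𝓝 0) := by
        have h4 := tendsto_pow_atTop_nhds_zero_of_lt_one (r := (1/2 : ℝ)) (by norm_num) (by norm_num)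
        have h5 := h4.const_mul δ
        rw [mul_zero] at h5
        refine h5.congr fun n => ?_
        rw [one_div, inv_pow]
        rfl
      filter_upwards [h3.eventually_lt_const hr0] with n hn
      exact hr _ (by positivity) hn
    obtain ⟨n, hn⟩ := h2.exists
    have h3 := A.V_iter hδ hδ3 hS hq hm n 0
    have h4 : ∑ c ∈ S, (g F c 0 - ε) ≤ V F S (δ / 2 ^ n) 0 := Finset.sum_le_sum fun c hc => hn c hc
    have h5 : 0 ≤ q * C0 * δ ^ 2 := by have := C0_nonneg; positivity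
    have h6 : (0:ℝ) ≤ 1 / 4 ^ n := by positivity
    have h7 : q * (0:ℝ) ^ 2 = 0 := by ring
    rw [h7] at h3
    nlinarith
  by_contra hcon
  rw [not_le] at hcon
  set X := ∑ c ∈ S, g F c 0 with hX
  set Y := p + q * C0 * δ ^ 2 with hY
  have h1 := key ((X - Y) / (2 * (S.card + 1))) (by
    have : (0:ℝ) < S.card + 1 := by positivity
    have : 0 < X - Y := by linarith
    positivity)
  rw [Finset.sum_sub_distrib, Finset.sum_const, nsmul_eq_mul, ← hX] at h1
  have h2 : (S.card : ℝ) * ((X - Y) / (2 * (S.card + 1))) ≤ (X - Y) / 2 := by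
    have h3 : (0:ℝ) < S.card + 1 := by positivity
    have h4 : 0 < X - Y := by linarith
    have e1 : (S.card : ℝ) * ((X - Y) / (2 * (S.card + 1))) = (X - Y) / 2 * (S.card / (S.card + 1)) := by
      field_simp
    rw [e1]
    have h5 : (S.card : ℝ) / (S.card + 1) ≤ 1 := by
      rw [div_le_one h3]; linarith
    have : 0 ≤ (X - Y) / 2 := by linarith
    nlinarith
  linarith

end Pool.Agent.J4H31.SA
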