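import Mathlib
import Pool.Agent.J4H31.SA.E

/-!
# Project SA: reflection, and the first main inequality
-/

set_option autoImplicit false

open MeasureTheory Filter Topology Set Real

namespace Pool.Agent.J4H31.SA

open Pool.Agent.Y757.LS (ker ker_pos C0 C0_nonneg)

variable {F : ℂ → ℂ} {L e U k η : ℝ}

/-- reflection -/
lemma AF.g_refl (A : AF L e U k η F) {x : ℝ} (hx : 0 ≤ x) (t : ℝ) :
    g F (-x) t ≤ g F x t + x * L ∧
    (F (pt x t) ≠ 0 → F (pt (-x) t) ≠ 0 ∧ g F (-x) t = g F x t + x * L) := by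
  have h1 := A.refl x t
  have hL := A.L0
  have key : F (pt x t) ≠ 0 → F (pt (-x) t) ≠ 0 ∧ g F (-x) t = g F x t + x * L := by
    intro h0
    have h3 : 0 < ‖F (pt x t)‖ := norm_pos_iff.2 h0
    have h4 : 0 < ‖F (pt (-x) t)‖ := by rw [h1]; positivity
    refine ⟨norm_pos_iff.1 h4, ?_⟩
    unfold g
    rw [h1, Real.log_mul (Real.exp_pos _).ne' h3.ne', Real.log_exp]
    ring
  refine ⟨?_, key⟩
  rcases eq_or_ne (F (pt x t)) 0 with h0 | h0
  · have h2 : g F (-x) t = 0 := by
      unfold g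
      rw [h1, h0, norm_zero, mul_zero, Real.log_zero]
    have h3 : g F x t = 0 := by
      unfold g
      rw [h0, norm_zero, Real.log_zero]
    rw [h2, h3]
    positivity
  · exact (key h0).2.le

lemma II_left (F : ℂ → ℂ) (x t : ℝ) : II F (-x) 0 t = ∫ s in (0:ℝ)..x, g F (-s) t := by
  unfold II
  have := intervalIntegral.integral_comp_neg (fun s => g F s t) (a := 0) (b := x)
  rw [this, neg_zero]

/-- the integral over a symmetric window -/
lemma AF.II_sym (A : AF L e U k η F) {x : ℝ} (hx : 0 ≤ x) (t : ℝ) :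
    II F (-x) x t ≤ 2 * II F 0 x t + x ^ 2 / 2 * L := by
  rw [A.II_split (-x) 0 x t, II_left]
  have i1 := A.g_intervalIntegrable 0 x t
  have i2 : IntervalIntegrable (fun s => g F (-s) t) volume 0 x := by
    have := A.g_intervalIntegrable (-x) 0 t
    have h3 := (IntervalIntegrable.iff_comp_neg (f := fun s => g F s t)).1 this
    simp only [neg_neg, neg_zero] at h3
    exact h3.symm
  have il : IntervalIntegrable (fun s : ℝ => s * L) volume 0 x :=
    (continuous_id.mul continuous_const).intervalIntegrable 0 x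
  have h1 : ∫ s in (0:ℝ)..x, g F (-s) t ≤ ∫ s in (0:ℝ)..x, (g F s t + s * L) :=
    intervalIntegral.integral_mono_on hx i2 (i1.add il) fun s hs => (A.g_refl hs.1 t).1
  have h2 : ∫ s in (0:ℝ)..x, (g F s t + s * L) = II F 0 x t + x ^ 2 / 2 * L := by
    rw [intervalIntegral.integral_add i1 il, intervalIntegral.integral_mul_const, integral_id]
    unfold II
    ring
  linarith

/-- **first main inequality** -/
theorem AF.main1 (A : AF L e U k η F) {x : ℝ} (hx : 1/4 < x) (hx' : x ≤ 1/2) (hηx : 1/2 + η ≤ 2 * x)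
    {p q : ℝ} (hq : k ≤ q) (hm : Maj (II F 0 (3/2)) p q) (h0 : F (pt 0 0) ≠ 0) :
    g F 0 0 ≤ p / x + x / 4 * L + 6 * e + 2 * C0 * q := by
  have hC0 := C0_nonneg
  have hx0 : 0 < x := by linarith
  have hk := A.k0
  have he := A.e0
  have hη := A.η0
  have hη1 := A.η1
  have hq0 : 0 ≤ q := hk.trans hq
  set S : Finset ℝ := {-(2 * x), 0, 2 * x} with hS
  have hSm : ∀ c ∈ S, c = -(2 * x) ∨ c = 0 ∨ c = 2 * x := by
    intro c hc
    simpa [hS] using hc
  have n1 : -(2 * x) ≠ 0 := by linarith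
  have n2 : -(2 * x) ≠ 2 * x := by linarith
  have n3 : (0:ℝ) ≠ 2 * x := by linarith
  have hsum : ∀ f : ℝ → ℝ, ∑ c ∈ S, f c = f (-(2 * x)) + f 0 + f (2 * x) := by
    intro f
    rw [hS, Finset.sum_insert, Finset.sum_insert, Finset.sum_singleton]
    · ring
    · simp [n3]
    · simp only [Finset.mem_insert, Finset.mem_singleton, not_or]
      exact ⟨n1, n2⟩
  have hV : ∀ t, V F S x t = (1 / (2 * x)) * II F (-(3 * x)) (3 * x) t := by
    intro t
    unfold V
    rw [hsum, ← mul_add, ← mul_add]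
    congr 1
    rw [show -(2 * x) - x = -(3 * x) by ring, show -(2 * x) + x = -x by ring,
      show 0 - x = -x by ring, show 0 + x = x by ring, show 2 * x - x = x by ring,
      show 2 * x + x = 3 * x by ring, ← A.II_split (-(3 * x)) (-x) x, ← A.II_split (-(3 * x)) x (3 * x)]
  have hmaj : Maj (V F S x) (p / x + 9 * x / 4 * L + 4 * e) (8 * q) := by
    intro t
    rw [hV t]
    have hx2 : 0 < 1 / (2 * x) := by positivity
    have hsq := sq_nonneg t
    have h1 := A.II_sym (x := 3 * x) (by linarith) t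
    have h2 := A.II_split 0 (3 * x) (3/2) t
    have h3 := (A.II_right (a := 3 * x) (b := 3/2) (by linarith) (by linarith) (by norm_num) t).1
    rw [abs_le] at h3
    have h3' : (e + k * t ^ 2) * (3 / 2 - 3 * x) ≤ e + k * t ^ 2 := by
      have h5 : 0 ≤ e + k * t ^ 2 := by positivity
      nlinarith
    have h4 := hm t
    have h6 : II F (-(3 * x)) (3 * x) t ≤ 2 * (p + q * t ^ 2 + (e + k * t ^ 2)) +
        (3 * x) ^ 2 / 2 * L := by linarith
    have h7 : 1 / x ≤ 4 := by
      rw [div_le_iff₀ hx0]; linarith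
    have h8 : k * t ^ 2 ≤ q * t ^ 2 := mul_le_mul_of_nonneg_right hq hsq
    have h9 : 0 ≤ e + 2 * q * t ^ 2 := by positivity
    calc 1 / (2 * x) * II F (-(3 * x)) (3 * x) t ≤ 1 / (2 * x) *
          (2 * (p + q * t ^ 2 + (e + k * t ^ 2)) + (3 * x) ^ 2 / 2 * L) := by gcongr
      _ = p / x + 9 * x / 4 * L + 1 / x * (e + q * t ^ 2 + k * t ^ 2) := by
          field_simp
          ring
      _ ≤ p / x + 9 * x / 4 * L + 1 / x * (e + 2 * q * t ^ 2) := by
          have : 0 < 1 / x := by positivity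
          exact add_le_add le_rfl (mul_le_mul_of_nonneg_left (by linarith) this.le)
      _ ≤ p / x + 9 * x / 4 * L + 4 * (e + 2 * q * t ^ 2) :=
          add_le_add le_rfl (mul_le_mul_of_nonneg_right h7 h9)
      _ = _ := by ring
  have hr := A.right_bound (s := 2 * x) hηx (by linarith) 0
  have hl := (A.g_refl (x := 2 * x) (by linarith) 0).2 hr.1
  have hcen := A.centre_le (S := S) (δ := x) hx0 (by linarith) (by
    intro c hc
    rcases hSm c hc with h | h | h <;> rw [h] <;> constructor <;> linarith) (by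
    intro c hc
    rcases hSm c hc with h | h | h
    · rw [h]; exact hl.1
    · rw [h]; exact h0
    · rw [h]; exact hr.1) (by positivity) hmaj
  rw [hsum] at hcen
  have h1 := neg_abs_le (g F (2 * x) 0)
  have h2 := hr.2
  have h3 := hl.2
  have h4 : 8 * q * C0 * x ^ 2 ≤ 2 * C0 * q := by
    have e1 : x ^ 2 ≤ 1 / 4 := by nlinarith
    have e2 : 0 ≤ 8 * q * C0 := by positivity
    nlinarith
  have h5 : k * (0:ℝ) ^ 2 = 0 := by ring
  rw [h5] at h2
  linarith

end Pool.Agent.J4H31.SA
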