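import Mathlib
import Pool.Agent.J4H31.SA.R

/-!
# Project SA: the second main inequality
-/

set_option autoImplicit false

open MeasureTheory Filter Topology Set Real

namespace Pool.Agent.J4H31.SA

open Pool.Agent.Y757.LS (ker ker_pos ker_le ker_integrable integral_ker C0 C0_nonneg integral_quad_ker)

variable {F : ℂ → ℂ} {L e U k η : ℝ}

/-- lower bound for averages of the horizontal integral -/
lemma AF.avg_lower (A : AF L e U k η F) {δ H : ℝ} (hδ : 0 ≤ δ) (hδ' : δ ≤ 3/2) (hH : 0 < H)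
    (hH1 : H ≤ 1) (hd : 1/2 + η ≤ δ + H) (t : ℝ) :
    -(5 * e + 5 * k * t ^ 2 + 2 * k * C0) ≤ E H (II F δ (3/2)) t := by
  have hk := A.k0
  have he := A.e0
  have hη := A.η0
  have hC0 := C0_nonneg
  have h1 := A.D_ineq (a := δ + H) (b := 3/2 + H) (h := H) hH (by linarith) (by linarith)
    (by linarith) (by linarith) t
  rw [show δ + H - H = δ by ring, show 3/2 + H - H = 3/2 by ring] at h1
  have h2 := (A.II_right (a := δ + H) (b := 3/2 + H) hd (by linarith) (by linarith) t).1
  rw [abs_le] at h2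
  have hx : 0 ≤ e + k * t ^ 2 := by positivity
  have h3 : ∫ y, II F (δ + H + H) (3/2 + H + H) (t + y) * ker H y ≤
      (3/2) * (e + k * (t ^ 2 + C0 * H ^ 2)) := by
    calc ∫ y, II F (δ + H + H) (3/2 + H + H) (t + y) * ker H y ≤
          ∫ y, (3/2) * ((e + k * (t + y) ^ 2) * ker H y) := by
          refine integral_mono (A.II_ker_integrable (by linarith) (by linarith) (by linarith) hH
            (by linarith) t) ((quad_int hH e k t).const_mul _) fun y => ?_
          have h4 := (A.II_right (a := δ + H + H) (b := 3/2 + H + H) (by linarith) (by linarith)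
            (by linarith) (t + y)).1
          rw [abs_le] at h4
          have hy : 0 ≤ e + k * (t + y) ^ 2 := by positivity
          have h5 : (e + k * (t + y) ^ 2) * (3/2 + H + H - (δ + H + H)) ≤
              (e + k * (t + y) ^ 2) * (3/2) := by gcongr; linarith
          calc II F (δ + H + H) (3/2 + H + H) (t + y) * ker H y ≤
                ((e + k * (t + y) ^ 2) * (3/2)) * ker H y :=
                mul_le_mul_of_nonneg_right (h4.2.trans h5) (ker_pos hH y).le
            _ = _ := by ring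
      _ = _ := by rw [integral_const_mul, integral_quad_ker hH]
  have h5 : (e + k * t ^ 2) * (3/2 + H - (δ + H)) ≤ (e + k * t ^ 2) * (3/2) := by gcongr; linarith
  have h6 : k * (C0 * H ^ 2) ≤ k * (C0 * 1) := by
    have : H ^ 2 ≤ 1 := by nlinarith
    gcongr
  have h7 : 0 ≤ k * t ^ 2 := by positivity
  have h8 : 0 ≤ k * C0 := by positivity
  unfold E
  nlinarith

/-- **lower bound for the values of the horizontal integral** -/
theorem AF.main0 (A : AF L e U k η F) {p q : ℝ} (hm : Maj (II F 0 (3/2)) p q) :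
    -(5 * e + 2 * k * C0) ≤ p + q * C0 := by
  have hη := A.η0
  have hη1 := A.η1
  have h1 := A.avg_lower (δ := 0) (H := 1) le_rfl (by norm_num) one_pos le_rfl (by linarith) 0
  have h2 := E_le_of_Maj one_pos (A.II_KI (a := 0) (b := 3/2) (by norm_num) (by norm_num)
    (by norm_num) one_pos (by norm_num)) hm 0
  have h3 : 5 * k * (0:ℝ) ^ 2 = 0 := by ring
  have h4 : q * (0:ℝ) ^ 2 = 0 := by ring
  rw [h3] at h1
  rw [h4] at h2
  linarith

/-- convexity of the horizontal integrals -/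
lemma AF.J_conv (A : AF L e U k η F) {h : ℝ} (hh : 0 < h) (hh' : h ≤ 3/4) {p p' q q' : ℝ}
    (hqq : q ≤ q') (hq' : 0 ≤ q') (hm : Maj (II F 0 (3/2)) p q) (hm' : Maj (II F (2 * h) (3/2)) p' q') :
    Maj (II F h (3/2)) ((p + p') / 2 + e + (q' + k) * C0) (q' + k * h) := by
  have hk := A.k0
  have he := A.e0
  have hη1 := A.η1
  have hc := C0_nonneg
  intro t
  have h1 := A.D_ineq (a := h) (b := 3/2) (h := h) hh (by linarith) (by linarith)
    (by linarith) (by linarith) t
  rw [sub_self, show h + h = 2 * h by ring] at h1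
  have m1 : Maj (II F 0 (3/2 - h)) (p + e * h) (q' + k * h) := by
    intro τ
    have h2 := A.II_split 0 (3/2 - h) (3/2) τ
    have h3 := (A.II_right (a := 3/2 - h) (b := 3/2) (by linarith) (by linarith) (by linarith) τ).1
    rw [abs_le, show (3:ℝ)/2 - (3/2 - h) = h by ring] at h3
    have h4 := hm τ
    have h5 : q * τ ^ 2 ≤ q' * τ ^ 2 := mul_le_mul_of_nonneg_right hqq (sq_nonneg _)
    linarith
  have m2 : Maj (II F (2 * h) (3/2 + h)) (p' + e * h) (q' + k * h) := by
    intro τ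
    have h2 := A.II_split (2 * h) (3/2) (3/2 + h) τ
    have h3 := (A.II_right (a := 3/2) (b := 3/2 + h) (by linarith) (by linarith) (by linarith) τ).1
    rw [abs_le, show (3:ℝ)/2 + h - 3/2 = h by ring] at h3
    have h4 := hm' τ
    linarith
  have e1 := E_le_of_Maj hh (A.II_KI (by norm_num) (by linarith) (by linarith) hh (by linarith)) m1 t
  have e2 := E_le_of_Maj hh (A.II_KI (by linarith) (by linarith) (by linarith) hh (by linarith)) m2 t
  unfold E at e1 e2
  have h5 : e * h ≤ e * 1 := by gcongr; linarith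
  have h6 : (q' + k * h) * C0 * h ^ 2 ≤ (q' + k) * C0 := by
    have h7 : h ^ 2 ≤ 1 := by nlinarith
    have h8 : k * h ≤ k * 1 := by gcongr; linarith
    calc (q' + k * h) * C0 * h ^ 2 ≤ (q' + k * 1) * C0 * 1 := by gcongr
      _ = _ := by ring
  linarith

lemma AF.J_dyadic (A : AF L e U k η F) {x p q : ℝ} (hx : 0 < x) (hx' : x ≤ 3/2)
    (hq : 0 ≤ q) (hm : Maj (II F 0 (3/2)) p q)
    (hmx : Maj (II F x (3/2)) (p + 2 * (e + (q + 4 * k) * C0)) q) (n : ℕ) :
    Maj (II F (x / 2 ^ n) (3/2)) (p + 2 * (e + (q + 4 * k) * C0)) (q + 3 * k * (1 - 1 / 2 ^ n)) := by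
  have hk := A.k0
  have hc := C0_nonneg
  induction n with
  | zero => simpa using hmx
  | succ n ih =>
    have e1 : x / 2 ^ n = 2 * (x / 2 ^ (n + 1)) := by rw [pow_succ]; field_simp
    rw [e1] at ih
    have h2p : (1:ℝ) ≤ 2 ^ n := one_le_pow₀ (by norm_num)
    have h1 : x / 2 ^ (n + 1) ≤ 3/4 := by
      rw [div_le_iff₀ (by positivity), pow_succ]
      nlinarith
    have hi : 0 ≤ 1 - 1 / (2:ℝ) ^ n := by
      rw [sub_nonneg, div_le_one (by positivity)]
      exact h2p
    have hi1 : (0:ℝ) < 1 / 2 ^ n := by positivity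
    have h2 := A.J_conv (h := x / 2 ^ (n + 1)) (by positivity) h1 (p := p)
      (q := q) (q' := q + 3 * k * (1 - 1 / 2 ^ n)) (by
        have : 0 ≤ 3 * k * (1 - 1 / 2 ^ n) := by positivity
        linarith) (by positivity) hm ih
    refine h2.mono ?_ ?_
    · have h3 : 3 * k * (1 - 1 / 2 ^ n) ≤ 3 * k := by
        have : 1 - 1 / (2:ℝ) ^ n ≤ 1 := by linarith
        calc 3 * k * (1 - 1 / 2 ^ n) ≤ 3 * k * 1 := by gcongr
          _ = _ := by ring
      have h4 : (q + 3 * k * (1 - 1 / 2 ^ n) + k) * C0 ≤ (q + 4 * k) * C0 :=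
        mul_le_mul_of_nonneg_right (by linarith) hc
      linarith
    · have e2 : (1:ℝ) / 2 ^ (n + 1) = 1 / 2 ^ n / 2 := by rw [pow_succ]; field_simp
      have e3 : x / 2 ^ (n + 1) = x * (1 / 2 ^ n / 2) := by rw [pow_succ]; field_simp
      rw [e2, e3]
      have h5 : k * (x * (1 / 2 ^ n / 2)) ≤ k * (3/2 * (1 / 2 ^ n)) := by
        gcongr k * ?_
        nlinarith
      nlinarith

/-- the horizontal integrals over smaller ranges are bounded by the same majorant -/
lemma AF.J_right (A : AF L e U k η F) {δ : ℝ} (hδ : 0 < δ) (hδ' : δ ≤ 3/2) {p q : ℝ} (hp : 0 ≤ p)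
    (hq : k ≤ q) (hm : Maj (II F 0 (3/2)) p q) :
    Maj (II F δ (3/2)) (p + 2 * e + 10 * C0 * q) (4 * q) := by
  have hk := A.k0
  have he := A.e0
  have hη1 := A.η1
  have hc := C0_nonneg
  have hq0 : 0 ≤ q := hk.trans hq
  obtain ⟨n, hn1, hn2⟩ := exists_nat_pow_near (x := 3 / 2 / δ) (y := (2:ℝ))
    ((one_le_div₀ hδ).2 hδ') (by norm_num)
  rw [le_div_iff₀ hδ] at hn1
  rw [div_lt_iff₀ hδ, pow_succ] at hn2
  set x : ℝ := 2 ^ n * δ with hx
  have hx0 : 0 < x := by positivity
  have e1 : δ = x / 2 ^ n := by rw [hx]; field_simp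
  have hmx : Maj (II F x (3/2)) (p + 2 * (e + (q + 4 * k) * C0)) q := by
    intro t
    have h1 := (A.II_right (a := x) (b := 3/2) (by linarith) hn1 (by norm_num) t).1
    rw [abs_le] at h1
    have h0 : 0 ≤ e + k * t ^ 2 := by positivity
    have h2 : (e + k * t ^ 2) * (3/2 - x) ≤ (e + k * t ^ 2) * 1 := by gcongr; linarith
    have h3 : k * t ^ 2 ≤ q * t ^ 2 := mul_le_mul_of_nonneg_right hq (sq_nonneg t)
    have h4 : 0 ≤ (q + 4 * k) * C0 := by positivity
    linarith
  have h1 := A.J_dyadic hx0 hn1 hq0 hm hmx n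
  rw [← e1] at h1
  refine h1.mono ?_ ?_
  · have : k * C0 ≤ q * C0 := mul_le_mul_of_nonneg_right hq hc
    nlinarith
  · have hi1 : (0:ℝ) < 1 / 2 ^ n := by positivity
    have : 3 * k * (1 - 1 / 2 ^ n) ≤ 3 * k * 1 := by gcongr; linarith
    linarith

/-- **second main inequality** -/
theorem AF.main2 (A : AF L e U k η F) {δ H : ℝ} (hδ : 0 < δ) (hδ' : δ < 1/2)
    (hH : 1/2 + η ≤ δ + H) (hH1 : H ≤ 1) (hHδ : δ / 2 ≤ H) {p q : ℝ} (hp : 0 ≤ p) (hq : k ≤ q)
    (hm : Maj (II F 0 (3/2)) p q) (h0 : F (pt 0 0) ≠ 0) :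
    g F 0 0 ≤ 2 * H / δ ^ 2 * (p + 7 * e + 30 * C0 * q) + δ / 4 * L := by
  have hk := A.k0
  have he := A.e0
  have hL := A.L0
  have hη := A.η0
  have hC0 := C0_nonneg
  have hq0 : 0 ≤ q := hk.trans hq
  have hH0 : 0 < H := by linarith
  set K : ℝ := 2 * H / δ ^ 2 with hK
  have hK0 : 0 ≤ K := by positivity
  set p₁ : ℝ := p + 2 * e + 10 * C0 * q with hp₁
  have hp₁0 : 0 ≤ p₁ := by positivity
  have hmδ : Maj (II F δ (3/2)) p₁ (4 * q) := A.J_right hδ (by linarith) hp hq hm
  have hm1 : Maj (II F 0 (3/2)) p₁ (4 * q) := hm.mono (by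
    have : 0 ≤ 10 * C0 * q := by positivity
    linarith) (by linarith)
  -- the difference function
  set D : ℝ → ℝ := fun t => (p₁ + 4 * q * t ^ 2) - II F δ (3/2) t with hD
  have hD0 : ∀ t, 0 ≤ D t := by
    intro t
    have := hmδ t
    simp only [hD]
    linarith
  have hDK : ∀ {κ : ℝ}, 0 < κ → κ ≤ 3 → KI κ D := by
    intro κ hκ hκ3 t
    have h1 := (quad_int hκ p₁ (4 * q) t).sub
      (A.II_ker_integrable (a := δ) (b := 3/2) (by linarith) (by linarith) (by norm_num) hκ hκ3 t)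
    refine h1.congr (Eventually.of_forall fun y => ?_)
    simp only [hD, Pi.sub_apply]
    ring
  have hDE : ∀ t, E (δ/2) D t ≤ 2 * H / δ *
      (p₁ + 4 * q * C0 * H ^ 2 + 4 * q * t ^ 2 + (5 * e + 5 * k * t ^ 2 + 2 * k * C0)) := by
    intro t
    have h1 : E (δ/2) D t ≤ 2 * H / δ * E H D t := by
      unfold E
      rw [← integral_const_mul]
      refine integral_mono (hDK (by linarith) (by linarith) t)
        ((hDK hH0 (by linarith) t).const_mul _) fun y => ?_
      have h2 := ker_le (by linarith : 0 < δ/2) hHδ y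
      have h3 := hD0 (t + y)
      calc D (t + y) * Pool.Agent.Y757.LS.ker (δ/2) y ≤ D (t + y) * (H / (δ/2) * ker H y) := by gcongr
        _ = 2 * H / δ * (D (t + y) * ker H y) := by field_simp
    have h2 : E H D t = (p₁ + 4 * q * C0 * H ^ 2 + 4 * q * t ^ 2) - E H (II F δ (3/2)) t := by
      rw [← E_quad hH0 p₁ (4 * q) t]
      unfold E
      rw [← integral_sub (quad_int hH0 p₁ (4 * q) t)
        (A.II_ker_integrable (a := δ) (b := 3/2) (by linarith) (by linarith) (by norm_num) hH0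
          (by linarith) t)]
      refine integral_congr_ae (Eventually.of_forall fun y => ?_)
      simp only [hD]
      ring
    have h3 := A.avg_lower hδ.le (by linarith) hH0 hH1 (by linarith) t
    have h4 : 0 ≤ 2 * H / δ := by positivity
    refine h1.trans (mul_le_mul_of_nonneg_left ?_ h4)
    linarith
  set S : Finset ℝ := {0} with hS
  have hV : ∀ d t, V F S d t = (1 / (2 * d)) * II F (-d) d t := by
    intro d t
    unfold V
    rw [hS, Finset.sum_singleton, zero_sub, zero_add]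
  -- bound for the window of size `δ`
  have hVδ : ∀ t, V F S δ t ≤ 1 / δ * D t + δ / 4 * L := by
    intro t
    rw [hV δ t]
    have h1 := A.II_sym hδ.le t
    have h2 := A.II_split 0 δ (3/2) t
    have h4 := hm1 t
    have h6 : II F (-δ) δ t ≤ 2 * D t + δ ^ 2 / 2 * L := by
      simp only [hD]
      linarith
    calc 1 / (2 * δ) * II F (-δ) δ t ≤ 1 / (2 * δ) * (2 * D t + δ ^ 2 / 2 * L) := by gcongr
      _ = _ := by
          field_simp
          ring
  have hδ2 : 0 < δ / 2 := by linarith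
  -- the majorant for the window of size `δ/2`
  have hmaj : Maj (V F S (δ/2)) (K * (p₁ + 4 * q * C0 * H ^ 2 + 5 * e + 2 * k * C0) + δ / 4 * L)
      (K * (4 * q + 5 * k)) := by
    intro t
    have hSc : ∀ c ∈ S, -(3/2) ≤ c - 2 * (δ/2) ∧ c + 2 * (δ/2) ≤ 4 := by
      intro c hc
      rw [hS, Finset.mem_singleton] at hc
      rw [hc]; constructor <;> linarith
    have h1 := A.V_double (S := S) hδ2 (by linarith) hSc t
    rw [show 2 * (δ / 2) = δ by ring] at h1 hSc
    have hk1 : KI (δ/2) (V F S δ) := A.V_KI hδ hδ2 (by linarith) hSc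
    have i1 := (hDK hδ2 (by linarith) t).const_mul (1 / δ)
    have i2 := (ker_integrable hδ2).const_mul (δ / 4 * L)
    have h2 : E (δ/2) (V F S δ) t ≤ 1 / δ * E (δ/2) D t + δ / 4 * L := by
      have e0 : δ / 4 * L = ∫ y, δ / 4 * L * Pool.Agent.Y757.LS.ker (δ/2) y := by
        rw [integral_const_mul, integral_ker hδ2, mul_one]
      rw [e0]
      unfold E
      rw [← integral_const_mul, ← integral_add i1 i2]
      refine integral_mono (hk1 t) (i1.add i2) fun y => ?_
      have h3 := hVδ (t + y)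
      have h4 := ker_pos hδ2 y
      simp only [Pi.add_apply]
      calc V F S δ (t + y) * Pool.Agent.Y757.LS.ker (δ/2) y ≤ (1 / δ * D (t + y) + δ / 4 * L) * Pool.Agent.Y757.LS.ker (δ/2) y := by gcongr
        _ = _ := by ring
    have h3 : 1 / δ * E (δ/2) D t ≤
        K * (p₁ + 4 * q * C0 * H ^ 2 + 4 * q * t ^ 2 + (5 * e + 5 * k * t ^ 2 + 2 * k * C0)) := by
      calc 1 / δ * E (δ/2) D t ≤ 1 / δ * (2 * H / δ *
            (p₁ + 4 * q * C0 * H ^ 2 + 4 * q * t ^ 2 + (5 * e + 5 * k * t ^ 2 + 2 * k * C0))) := by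
            gcongr
            exact hDE t
        _ = _ := by rw [hK]; field_simp
    linarith
  have hcen := A.centre_le (S := S) (δ := δ/2) hδ2 (by linarith) (by
    intro c hc
    rw [hS, Finset.mem_singleton] at hc
    rw [hc]; constructor <;> linarith) (by
    intro c hc
    rw [hS, Finset.mem_singleton] at hc
    rw [hc]; exact h0) (by positivity) hmaj
  rw [hS, Finset.sum_singleton] at hcen
  have a1 : q * C0 * H ^ 2 ≤ q * C0 * 1 := by
    have : H ^ 2 ≤ 1 := by nlinarith
    gcongr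
  have a0 : k * C0 ≤ q * C0 := mul_le_mul_of_nonneg_right hq hC0
  have a3 : K * (4 * q + 5 * k) * C0 * (δ / 2) ^ 2 ≤ K * (9 * q * C0) := by
    have h1 : (δ / 2) ^ 2 ≤ 1 := by nlinarith
    calc K * (4 * q + 5 * k) * C0 * (δ / 2) ^ 2 ≤ K * (4 * q + 5 * k) * C0 * 1 := by gcongr
      _ = K * (4 * (q * C0) + 5 * (k * C0)) := by ring
      _ ≤ K * (4 * (q * C0) + 5 * (q * C0)) := by gcongr
      _ = _ := by ring
  have a4 : K * (p₁ + 4 * q * C0 * H ^ 2 + 5 * e + 2 * k * C0) ≤
      K * (p + 7 * e + 16 * C0 * q) := by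
    gcongr K * ?_
    rw [hp₁]
    linarith
  have a5 : 0 ≤ K * (5 * C0 * q) := by positivity
  have a6 : K * (p + 7 * e + 30 * C0 * q) = K * (p + 7 * e + 16 * C0 * q) + K * (9 * q * C0) +
      K * (5 * C0 * q) := by ring
  linarith

end Pool.Agent.J4H31.SA
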