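import Mathlib
import Pool.Agent.J4H31.SA.S

/-!
# Project SA: the law, for functions with the properties `AF`
-/

set_option autoImplicit false

open MeasureTheory Filter Topology Set Real

namespace Pool.Agent.J4H31.SA

open Pool.Agent.Y757.LS (C0 C0_nonneg)

variable {F : ℂ → ℂ} {L e U k η : ℝ}

/-- a bound near `0` gives a quadratic majorant -/
lemma AF.loc_maj (A : AF L e U k η F) {B P : ℝ} (hB : 0 < B)
    (h : ∀ t, |t| ≤ B → II F 0 (3/2) t ≤ P) :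
    Maj (II F 0 (3/2)) P ((3/2 * U + |P|) / B ^ 2 + 3/2 * k) := by
  have hk := A.k0
  have hU := A.U0
  intro t
  rcases le_or_gt |t| B with h1 | h1
  · have h2 := h t h1
    have h3 : 0 ≤ ((3/2 * U + |P|) / B ^ 2 + 3/2 * k) * t ^ 2 := by positivity
    linarith
  · have h2 := (A.II_upper (a := 0) (b := 3/2) (by norm_num) (by norm_num) (by norm_num) t).1
    have h3 : 1 ≤ t ^ 2 / B ^ 2 := by
      rw [one_le_div (by positivity), ← sq_abs t]
      exact pow_le_pow_left₀ hB.le h1.le 2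
    have h4 : 0 ≤ 3/2 * U + |P| := by positivity
    have h5 : ((3/2 * U + |P|) / B ^ 2 + 3/2 * k) * t ^ 2 =
        (3/2 * U + |P|) * (t ^ 2 / B ^ 2) + 3/2 * k * t ^ 2 := by
      field_simp
    have h6 : (3/2 * U + |P|) * 1 ≤ (3/2 * U + |P|) * (t ^ 2 / B ^ 2) := by gcongr
    have h7 := neg_abs_le P
    rw [h5]
    linarith

/-- the law, in terms of a main inequality -/
lemma law_lin {α β μ₁ μ₂ κ a η : ℝ} (hα : 0 ≤ α) (hμ₁ : 0 ≤ μ₁) (hμ₂ : 0 ≤ μ₂) (ha : 0 ≤ a)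
    (h : α * a + β < κ)
    (main : ∀ (L e U k : ℝ) (F : ℂ → ℂ), AF L e U k η F → ∀ p q : ℝ, 0 ≤ p → k ≤ q →
      Maj (II F 0 (3/2)) p q → F (pt 0 0) ≠ 0 → g F 0 0 ≤ α * p + β * L + μ₁ * e + μ₂ * q) :
    ∃ κ' B : ℝ, 0 < κ' ∧ 0 < B ∧ ∀ K : ℝ, 0 ≤ K → ∃ L₀ : ℝ, ∀ (L : ℝ) (F : ℂ → ℂ), L₀ ≤ L →
      AF L (κ' * L + K) (2 * L + K) K η F → F (pt 0 0) ≠ 0 →
      (∀ t, |t| ≤ B → II F 0 (3/2) t ≤ a * L + K) → g F 0 0 + K < κ * L := by
  set γ : ℝ := κ - (α * a + β) with hγ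
  have hγ0 : 0 < γ := by linarith
  set κ' : ℝ := γ / (4 * (μ₁ + 1)) with hκ'
  have hκ'0 : 0 < κ' := by positivity
  set B : ℝ := Real.sqrt (4 * μ₂ * (3 + a) / γ + 1) with hB
  have hB0 : 0 < B := by positivity
  have hB2 : B ^ 2 = 4 * μ₂ * (3 + a) / γ + 1 := Real.sq_sqrt (by positivity)
  have hB1 : 1 ≤ B ^ 2 := by
    rw [hB2]
    have : 0 ≤ 4 * μ₂ * (3 + a) / γ := by positivity
    linarith
  refine ⟨κ', B, hκ'0, hB0, fun K hK => ⟨max 1 (4 * ((α + μ₁ + 4 * μ₂ + 1) * K + 1) / γ),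
    fun L F hL A h0 hb => ?_⟩⟩
  have hL1 : 1 ≤ L := (le_max_left _ _).trans hL
  have hL2 : 4 * ((α + μ₁ + 4 * μ₂ + 1) * K + 1) / γ ≤ L := (le_max_right _ _).trans hL
  rw [div_le_iff₀ hγ0] at hL2
  have hP : 0 ≤ a * L + K := by positivity
  have hm := A.loc_maj hB0 hb
  rw [abs_of_nonneg hP] at hm
  have hq : K ≤ (3/2 * (2 * L + K) + (a * L + K)) / B ^ 2 + 3/2 * K := by
    have : 0 ≤ (3/2 * (2 * L + K) + (a * L + K)) / B ^ 2 := by positivity
    linarith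
  have h1 := main L _ _ _ F A _ _ hP hq hm h0
  -- the coefficient
  have h2 : μ₁ * κ' ≤ γ / 4 := by
    rw [hκ', mul_div_assoc', div_le_div_iff₀ (by positivity) (by norm_num)]
    nlinarith
  have h3 : μ₂ * ((3/2 * (2 * L + K) + (a * L + K)) / B ^ 2) ≤ γ / 4 * L + 3 * μ₂ * K := by
    have e1 : μ₂ * ((3/2 * (2 * L + K) + (a * L + K)) / B ^ 2) =
        μ₂ * (3 + a) / B ^ 2 * L + 5 / 2 * (μ₂ * K) / B ^ 2 := by
      field_simp
      ring
    have e2 : μ₂ * (3 + a) / B ^ 2 ≤ γ / 4 := by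
      rw [div_le_div_iff₀ (by positivity) (by norm_num), hB2]
      have e3 : γ * (4 * μ₂ * (3 + a) / γ + 1) = 4 * μ₂ * (3 + a) + γ := by
        field_simp
      rw [e3]
      linarith
    have e3 : 5 / 2 * (μ₂ * K) / B ^ 2 ≤ 5 / 2 * (μ₂ * K) := div_le_self (by positivity) hB1
    have e4 : μ₂ * (3 + a) / B ^ 2 * L ≤ γ / 4 * L := mul_le_mul_of_nonneg_right e2 (by linarith)
    have e5 : 0 ≤ μ₂ * K := by positivity
    rw [e1]
    linarith
  have h4 : μ₁ * (κ' * L) ≤ γ / 4 * L := by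
    calc μ₁ * (κ' * L) = (μ₁ * κ') * L := by ring
      _ ≤ _ := mul_le_mul_of_nonneg_right h2 (by linarith)
  have e6 : κ * L = α * (a * L) + β * L + γ * L := by rw [hγ]; ring
  have h5 : 0 ≤ μ₂ * K := by positivity
  nlinarith

/-- the region of pairs `(κ, a)` for which large values `C^κ` force `J ≥ a log C` nearby -/
def Law (κ a : ℝ) : Prop :=
  (∃ x : ℝ, 1/4 < x ∧ x ≤ 1/2 ∧ a < x * (κ - x / 4)) ∨
  (∃ δ : ℝ, 0 < δ ∧ δ ≤ 1/3 ∧ a * (1 - 2 * δ) < δ ^ 2 * (κ - δ / 4))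

/-- **the law** -/
theorem law {κ a : ℝ} (ha : 0 ≤ a) (h : Law κ a) :
    ∃ κ' η B : ℝ, 0 < κ' ∧ 0 < η ∧ η ≤ 1/4 ∧ 0 < B ∧ ∀ K : ℝ, 0 ≤ K → ∃ L₀ : ℝ,
      ∀ (L : ℝ) (F : ℂ → ℂ), L₀ ≤ L → AF L (κ' * L + K) (2 * L + K) K η F → F (pt 0 0) ≠ 0 →
      (∀ t, |t| ≤ B → II F 0 (3/2) t ≤ a * L + K) → g F 0 0 + K < κ * L := by
  have hC0 := C0_nonneg
  rcases h with ⟨x, hx1, hx2, hxa⟩ | ⟨δ, hδ0, hδ1, hδa⟩
  · have hx0 : 0 < x := by linarith
    set η : ℝ := min (1/4) (2 * x - 1/2) with hη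
    have hη0 : 0 < η := lt_min (by norm_num) (by linarith)
    have hη1 : η ≤ 1/4 := min_le_left _ _
    have hη2 : η ≤ 2 * x - 1/2 := min_le_right _ _
    obtain ⟨κ', B, h1, h2, h3⟩ := law_lin (α := 1 / x) (β := x / 4) (μ₁ := 6) (μ₂ := 2 * C0) (κ := κ)
      (a := a) (η := η) (by positivity) (by norm_num) (by positivity) ha (by
        have : 1 / x * a < κ - x / 4 := by
          rw [one_div, inv_mul_lt_iff₀ hx0]
          exact hxa
        linarith) (fun L e U k F A p q hp hq hm h0 => by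
        have := A.main1 hx1 hx2 (by linarith) hq hm h0
        rw [show 1 / x * p = p / x by ring]
        exact this)
    exact ⟨κ', η, B, h1, hη0, hη1, h2, h3⟩
  · set D : ℝ := δ ^ 2 * (κ - δ / 4) - a * (1 - 2 * δ) with hD
    have hD0 : 0 < D := by linarith
    set η : ℝ := min (1/4) (D / (4 * (a + 1))) with hη
    have hη0 : 0 < η := lt_min (by norm_num) (by positivity)
    have hη1 : η ≤ 1/4 := min_le_left _ _
    have hη2 : η ≤ D / (4 * (a + 1)) := min_le_right _ _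
    have hη3 : a * (2 * η) < D := by
      rw [le_div_iff₀ (by positivity)] at hη2
      nlinarith
    set H : ℝ := 1/2 - δ + η with hH
    have hH0 : 0 < H := by linarith
    have hα : 0 ≤ 2 * H / δ ^ 2 := by positivity
    obtain ⟨κ', B, h1, h2, h3⟩ := law_lin (α := 2 * H / δ ^ 2) (β := δ / 4) (μ₁ := 2 * H / δ ^ 2 * 7)
      (μ₂ := 2 * H / δ ^ 2 * (30 * C0)) (κ := κ) (a := a) (η := η) hα (by positivity) (by positivity)
      ha (by
        have h1 : 2 * H / δ ^ 2 * a < κ - δ / 4 := by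
          rw [div_mul_eq_mul_div, div_lt_iff₀ (by positivity)]
          have : 2 * H * a = a * (1 - 2 * δ) + a * (2 * η) := by rw [hH]; ring
          rw [this]
          linarith
        linarith) (fun L e U k F A p q hp hq hm h0 => by
        have := A.main2 hδ0 (by linarith) (H := H) (by linarith) (by linarith) (by linarith) hp hq hm h0
        linarith)
    exact ⟨κ', η, B, h1, hη0, hη1, h2, h3⟩

/-- **unconditional lower bound for the maximum of the horizontal integral** -/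
theorem law_zero {ε : ℝ} (hε : 0 < ε) :
    ∃ κ' B : ℝ, 0 < κ' ∧ 0 < B ∧ ∀ K : ℝ, 0 ≤ K → ∃ L₀ : ℝ, ∀ (L : ℝ) (F : ℂ → ℂ), L₀ ≤ L →
      AF L (κ' * L + K) (2 * L + K) K (1/4) F →
      ∃ t, |t| ≤ B ∧ -ε * L + K < II F 0 (3/2) t := by
  have hC0 := C0_nonneg
  set κ' : ℝ := ε / 20 with hκ'
  have hκ'0 : 0 < κ' := by positivity
  set B : ℝ := Real.sqrt (4 * C0 * (3 + ε) / ε + 1) with hB
  have hB0 : 0 < B := by positivity
  have hB2 : B ^ 2 = 4 * C0 * (3 + ε) / ε + 1 := Real.sq_sqrt (by positivity)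
  have hB1 : 1 ≤ B ^ 2 := by
    rw [hB2]
    have : 0 ≤ 4 * C0 * (3 + ε) / ε := by positivity
    linarith
  refine ⟨κ', B, hκ'0, hB0, fun K hK => ⟨max 1 (4 * ((6 + 10 * C0) * K + 1) / ε),
    fun L F hL A => ?_⟩⟩
  have hL1 : 1 ≤ L := (le_max_left _ _).trans hL
  have hL2 : 4 * ((6 + 10 * C0) * K + 1) / ε ≤ L := (le_max_right _ _).trans hL
  rw [div_le_iff₀ hε] at hL2
  by_contra hcon
  push Not at hcon
  have hm := A.loc_maj hB0 hcon
  have h1 := A.main0 hm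
  have hP : |(-ε * L + K)| ≤ ε * L + K := by
    rw [abs_le]; constructor <;> nlinarith
  have h3 : (3/2 * (2 * L + K) + |(-ε * L + K)|) / B ^ 2 * C0 ≤ ε / 4 * L + 3 * C0 * K := by
    have e0 : (3/2 * (2 * L + K) + |(-ε * L + K)|) / B ^ 2 * C0 ≤
        (3/2 * (2 * L + K) + (ε * L + K)) / B ^ 2 * C0 := by gcongr
    have e1 : (3/2 * (2 * L + K) + (ε * L + K)) / B ^ 2 * C0 =
        C0 * (3 + ε) / B ^ 2 * L + 5 / 2 * (C0 * K) / B ^ 2 := by
      field_simp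
      ring
    have e2 : C0 * (3 + ε) / B ^ 2 ≤ ε / 4 := by
      rw [div_le_div_iff₀ (by positivity) (by norm_num), hB2]
      have e3 : ε * (4 * C0 * (3 + ε) / ε + 1) = 4 * C0 * (3 + ε) + ε := by
        field_simp
      rw [e3]
      linarith
    have e3 : 5 / 2 * (C0 * K) / B ^ 2 ≤ 5 / 2 * (C0 * K) := div_le_self (by positivity) hB1
    have e4 : C0 * (3 + ε) / B ^ 2 * L ≤ ε / 4 * L := mul_le_mul_of_nonneg_right e2 (by linarith)
    have e5 : 0 ≤ C0 * K := by positivity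
    rw [e1] at e0
    linarith
  have h5 : 0 ≤ C0 * K := by positivity
  have h6 : 5 * (κ' * L) = ε / 4 * L := by rw [hκ']; ring
  nlinarith

end Pool.Agent.J4H31.SA
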