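import Mathlib
import Pool.Agent.J4H31.SA.Law

/-!
# Project SA: the laws in measure

The horizontal integral is almost subharmonic in the mean (`AF.semi`), so an upper bound outside a
small set gives an upper bound everywhere (`spread`).
-/

set_option autoImplicit false

open MeasureTheory Filter Topology Set Real

namespace Pool.Agent.J4H31.SA

open Pool.Agent.Y757.LS (ker_pos ker_continuous ker_integrable integral_ker C0 C0_nonneg
  integral_quad_ker)

variable {F : ℂ → ℂ} {L e U k η : ℝ}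

lemma AF.mono_e (A : AF L e U k η F) {e' : ℝ} (he : e ≤ e') : AF L e' U k η F :=
  { diff := A.diff
    L0 := A.L0
    e0 := A.e0.trans he
    U0 := A.U0
    k0 := A.k0
    η0 := A.η0
    η1 := A.η1
    up := A.up
    lo := fun s t h1 h2 => (Real.exp_le_exp.2 (by linarith)).trans (A.lo s t h1 h2)
    hi := fun s t h1 h2 => (A.hi s t h1 h2).trans (Real.exp_le_exp.2 (by linarith))
    refl := A.refl }

/-- the horizontal integral is almost subharmonic in the mean -/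
theorem AF.semi (A : AF L e U k η F) {h : ℝ} (hh : 0 < h) (hh2 : h ≤ 1/2) (t : ℝ) :
    II F 0 (3/2) t ≤ (∫ y, II F 0 (3/2) (t + y) * Pool.Agent.Y757.LS.ker h y) + h ^ 2 / 4 * L +
      h * (e + k * t ^ 2 + k * C0 * h ^ 2) := by
  have h1 := A.D_ineq (a := 0) (b := 3/2) (h := h) hh (by linarith) (by norm_num) (by linarith)
    (by linarith) t
  have i1 := A.II_ker_integrable (a := 0 - h) (b := 3/2 - h) (by linarith) (by linarith)
    (by linarith) hh (by linarith) t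
  have i2 := A.II_ker_integrable (a := 0 + h) (b := 3/2 + h) (by linarith) (by linarith)
    (by linarith) hh (by linarith) t
  have i3 := A.II_ker_integrable (a := 0) (b := 3/2) (by linarith) (by linarith)
    (by linarith) hh (by linarith) t
  have i4 := quad_int hh (h ^ 2 / 2 * L + 2 * h * e) (2 * h * k) t
  rw [← integral_add i1 i2] at h1
  have h2 : ∫ y, (II F (0 - h) (3/2 - h) (t + y) * Pool.Agent.Y757.LS.ker h y +
      II F (0 + h) (3/2 + h) (t + y) * Pool.Agent.Y757.LS.ker h y) ≤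
      ∫ y, (2 * (II F 0 (3/2) (t + y) * Pool.Agent.Y757.LS.ker h y) +
        (h ^ 2 / 2 * L + 2 * h * e + 2 * h * k * (t + y) ^ 2) * Pool.Agent.Y757.LS.ker h y) := by
    refine integral_mono (i1.add i2) ((i3.const_mul 2).add i4) fun y => ?_
    have hk := ker_pos hh y
    have a1 := A.II_sym (x := h) hh.le (t + y)
    have a2 := A.II_split (-h) 0 h (t + y)
    have a3 := A.II_split (-h) 0 (3/2) (t + y)
    have a4 := A.II_split (-h) (3/2 - h) (3/2) (t + y)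
    have a5 := A.II_split 0 h (3/2) (t + y)
    have a6 := A.II_split h (3/2) (3/2 + h) (t + y)
    have hη := A.η1
    have a7 := (A.II_right (a := 3/2 - h) (b := 3/2) (by linarith) (by linarith) (by norm_num)
      (t + y)).1
    have a8 := (A.II_right (a := 3/2) (b := 3/2 + h) (by linarith) (by linarith) (by linarith)
      (t + y)).1
    rw [abs_le] at a7 a8
    have e1 : (e + k * (t + y) ^ 2) * (3/2 - (3/2 - h)) = h * e + h * k * (t + y) ^ 2 := by ring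
    have e2 : (e + k * (t + y) ^ 2) * (3/2 + h - 3/2) = h * e + h * k * (t + y) ^ 2 := by ring
    rw [e1] at a7
    rw [e2] at a8
    simp only
    rw [zero_sub, zero_add, ← add_mul, ← mul_assoc, ← add_mul]
    apply mul_le_mul_of_nonneg_right _ hk.le
    linarith [a7.1, a8.2]
  rw [integral_add (i3.const_mul 2) i4, integral_const_mul, integral_quad_ker hh] at h2
  linarith

lemma ker_le_half {h : ℝ} (hh : 0 < h) (y : ℝ) : Pool.Agent.Y757.LS.ker h y ≤ 1 / (2 * h) := by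
  unfold Pool.Agent.Y757.LS.ker
  apply one_div_le_one_div_of_le (by positivity)
  have h1 := Real.one_le_cosh (π * y / (2 * h))
  nlinarith

/-- a bound outside a small set -/
lemma AF.good (A : AF L e U k η F) {B P h δ : ℝ} (hh : 0 < h) (hh2 : h ≤ 1/2) (hB : 0 ≤ B)
    (hδ : 0 ≤ δ) (hm : volume {t : ℝ | |t| ≤ B + 1 ∧ P < II F 0 (3/2) t} ≤ ENNReal.ofReal δ)
    (t : ℝ) (ht : |t| ≤ B) :
    II F 0 (3/2) t ≤ P + (3/2 * (U + k * (B + 1) ^ 2) + |P|) * (1 / (2 * h) * δ) +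
      (3/2 * (U + 2 * k * B ^ 2 + 2 * k) + |P|) * C0 * h ^ 2 + h ^ 2 / 4 * L +
      h * (e + k * B ^ 2 + k * C0 * h ^ 2) := by
  have hk0 := A.k0
  have hU0 := A.U0
  obtain ⟨S, hS⟩ : ∃ S : Set ℝ, S = {t : ℝ | |t| ≤ B + 1 ∧ P < II F 0 (3/2) t} := ⟨_, rfl⟩
  rw [← hS] at hm
  have hSm : MeasurableSet S := by
    rw [hS]
    exact (measurableSet_le measurable_id.abs measurable_const).inter
      (measurableSet_lt measurable_const (II_measurable A.diff.continuous 0 (3/2)))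
  obtain ⟨W, hW⟩ : ∃ W : ℝ, W = 3/2 * (U + k * (B + 1) ^ 2) + |P| := ⟨_, rfl⟩
  obtain ⟨Q, hQ⟩ : ∃ Q : ℝ, Q = 3/2 * (U + 2 * k * B ^ 2 + 2 * k) + |P| := ⟨_, rfl⟩
  have hW0 : 0 ≤ W := by rw [hW]; positivity
  have hQ0 : 0 ≤ Q := by rw [hQ]; positivity
  rw [← hW, ← hQ]
  have ht2 : t ^ 2 ≤ B ^ 2 := by
    rw [← sq_abs t]
    exact pow_le_pow_left₀ (abs_nonneg _) ht 2
  have hpt : ∀ y, II F 0 (3/2) (t + y) ≤ P + Q * (0 + y) ^ 2 + W * S.indicator (fun _ => (1:ℝ)) (t + y) := by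
    intro y
    have hi0 : 0 ≤ S.indicator (fun _ => (1:ℝ)) (t + y) := Set.indicator_nonneg (fun _ _ => zero_le_one) _
    have h2 := (A.II_upper (a := 0) (b := 3/2) (by norm_num) (by norm_num) (by norm_num) (t + y)).1
    have h3 := neg_abs_le P
    rcases le_or_gt |y| 1 with h1 | h1
    · have hty : |t + y| ≤ B + 1 := (abs_add_le _ _).trans (by linarith)
      have hQy : 0 ≤ Q * (0 + y) ^ 2 := by positivity
      rcases le_or_gt (II F 0 (3/2) (t + y)) P with h4 | h4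
      · have : 0 ≤ W * S.indicator (fun _ => (1:ℝ)) (t + y) := by positivity
        linarith
      · have hmem : t + y ∈ S := by
          rw [hS]
          exact ⟨hty, h4⟩
        rw [Set.indicator_of_mem hmem, mul_one]
        have h5 : (t + y) ^ 2 ≤ (B + 1) ^ 2 := by
          rw [← sq_abs (t + y)]
          exact pow_le_pow_left₀ (abs_nonneg _) hty 2
        have h6 : k * (t + y) ^ 2 ≤ k * (B + 1) ^ 2 := mul_le_mul_of_nonneg_left h5 hk0
        rw [hW]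
        linarith
    · have h4 : 0 ≤ W * S.indicator (fun _ => (1:ℝ)) (t + y) := by positivity
      have h5 : 1 ≤ y ^ 2 := by
        rw [← sq_abs y]
        nlinarith
      have h6 : (t + y) ^ 2 ≤ 2 * B ^ 2 + 2 * y ^ 2 := by nlinarith [sq_nonneg (t - y)]
      have h7 : k * (t + y) ^ 2 ≤ k * (2 * B ^ 2 + 2 * y ^ 2) := mul_le_mul_of_nonneg_left h6 hk0
      have h8 : U * 1 ≤ U * y ^ 2 := mul_le_mul_of_nonneg_left h5 hU0
      have h9 : k * B ^ 2 * 1 ≤ k * B ^ 2 * y ^ 2 := mul_le_mul_of_nonneg_left h5 (by positivity)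
      have h10 : |P| * 1 ≤ |P| * y ^ 2 := mul_le_mul_of_nonneg_left h5 (abs_nonneg _)
      have e1 : Q * (0 + y) ^ 2 = 3/2 * (U * y ^ 2 + 2 * (k * B ^ 2 * y ^ 2) + 2 * k * y ^ 2) +
          |P| * y ^ 2 := by rw [hQ]; ring
      rw [e1]
      linarith
  have i1 := A.II_ker_integrable (a := 0) (b := 3/2) (by norm_num) (by norm_num)
    (by norm_num) hh (by linarith) t
  have i2 := quad_int hh P Q 0
  have hind : Measurable (fun y => S.indicator (fun _ => (1:ℝ)) (t + y)) :=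
    (measurable_const.indicator hSm).comp (measurable_const_add t)
  have i5 : Integrable (fun y => S.indicator (fun _ => (1:ℝ)) (t + y)) := by
    have i6 : Integrable (S.indicator (fun _ => (1:ℝ))) := by
      rw [integrable_indicator_iff hSm]
      refine integrableOn_const ?_
      exact (lt_of_le_of_lt hm ENNReal.ofReal_lt_top).ne
    exact i6.comp_add_left t
  have i3 : Integrable (fun y => S.indicator (fun _ => (1:ℝ)) (t + y) * Pool.Agent.Y757.LS.ker h y) := by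
    refine (i5.const_mul (1 / (2 * h))).mono' (hind.mul (ker_continuous hh).measurable).aestronglyMeasurable
      (Eventually.of_forall fun y => ?_)
    have hk := ker_pos hh y
    have hi0 : 0 ≤ S.indicator (fun _ => (1:ℝ)) (t + y) := Set.indicator_nonneg (fun _ _ => zero_le_one) _
    rw [Real.norm_of_nonneg (by positivity), mul_comm]
    exact mul_le_mul_of_nonneg_right (ker_le_half hh y) hi0
  have h3 : ∫ y, S.indicator (fun _ => (1:ℝ)) (t + y) * Pool.Agent.Y757.LS.ker h y ≤ 1 / (2 * h) * δ := by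
    calc ∫ y, S.indicator (fun _ => (1:ℝ)) (t + y) * Pool.Agent.Y757.LS.ker h y ≤
          ∫ y, 1 / (2 * h) * S.indicator (fun _ => (1:ℝ)) (t + y) := by
          refine integral_mono i3 (i5.const_mul _) fun y => ?_
          have hi0 : 0 ≤ S.indicator (fun _ => (1:ℝ)) (t + y) :=
            Set.indicator_nonneg (fun _ _ => zero_le_one) _
          simp only
          rw [mul_comm]
          exact mul_le_mul_of_nonneg_right (ker_le_half hh y) hi0
      _ = 1 / (2 * h) * volume.real S := by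
          rw [integral_const_mul, integral_add_left_eq_self (S.indicator (fun _ => (1:ℝ))) t,
            integral_indicator hSm, setIntegral_const, smul_eq_mul, mul_one]
      _ ≤ _ := by
          refine mul_le_mul_of_nonneg_left ?_ (by positivity)
          exact ENNReal.toReal_le_of_le_ofReal hδ hm
  have h4 : ∫ y, II F 0 (3/2) (t + y) * Pool.Agent.Y757.LS.ker h y ≤
      ∫ y, ((P + Q * (0 + y) ^ 2) * Pool.Agent.Y757.LS.ker h y +
        W * (S.indicator (fun _ => (1:ℝ)) (t + y) * Pool.Agent.Y757.LS.ker h y)) := by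
    refine integral_mono i1 (i2.add (i3.const_mul W)) fun y => ?_
    have hk := ker_pos hh y
    simp only
    rw [← mul_assoc, ← add_mul]
    exact mul_le_mul_of_nonneg_right (hpt y) hk.le
  rw [integral_add i2 (i3.const_mul W), integral_const_mul, integral_quad_ker hh] at h4
  have h5 : W * ∫ y, S.indicator (fun _ => (1:ℝ)) (t + y) * Pool.Agent.Y757.LS.ker h y ≤
      W * (1 / (2 * h) * δ) := mul_le_mul_of_nonneg_left h3 hW0
  have h6 := A.semi hh hh2 t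
  have h7 : h * (e + k * t ^ 2 + k * C0 * h ^ 2) ≤ h * (e + k * B ^ 2 + k * C0 * h ^ 2) := by
    have : k * t ^ 2 ≤ k * B ^ 2 := mul_le_mul_of_nonneg_left ht2 hk0
    exact mul_le_mul_of_nonneg_left (by linarith) hh.le
  have e0 : Q * ((0:ℝ) ^ 2 + C0 * h ^ 2) = Q * C0 * h ^ 2 := by ring
  rw [e0] at h4
  linarith

/-- **a bound outside a small set gives a bound everywhere** -/
theorem spread {γ b B : ℝ} (hγ : 0 < γ) (hb : 0 ≤ b) (hB : 0 ≤ B) :
    ∃ κ' δ : ℝ, 0 < κ' ∧ 0 < δ ∧ ∀ K : ℝ, 0 ≤ K → ∃ L₀ : ℝ, ∀ (L η : ℝ) (F : ℂ → ℂ), L₀ ≤ L →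
      AF L (κ' * L + K) (2 * L + K) K η F → ∀ P : ℝ, |P| ≤ b * L + K →
      volume {t : ℝ | |t| ≤ B + 1 ∧ P < II F 0 (3/2) t} ≤ ENNReal.ofReal δ →
      ∀ t : ℝ, |t| ≤ B → II F 0 (3/2) t ≤ P + γ * L := by
  have hC0 := C0_nonneg
  obtain ⟨h, hh⟩ : ∃ h : ℝ, h = min (1/2) (γ / (8 * (3 + b) * (C0 + 1))) := ⟨_, rfl⟩
  have hq : 0 < γ / (8 * (3 + b) * (C0 + 1)) := by positivity
  have hh0 : 0 < h := by rw [hh]; exact lt_min (by norm_num) hq
  have hh1 : h ≤ 1/2 := by rw [hh]; exact min_le_left _ _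
  have hh2 : h ≤ γ / (8 * (3 + b) * (C0 + 1)) := by rw [hh]; exact min_le_right _ _
  rw [le_div_iff₀ (by positivity)] at hh2
  -- coefficients
  have c1 : (3 + b) * C0 * h ^ 2 ≤ γ / 8 := by
    have h1 : 0 ≤ (3 + b) * h := by positivity
    have h2 : (3 + b) * C0 * h ^ 2 ≤ (3 + b) * C0 * h := by
      have : h ^ 2 ≤ h := by nlinarith
      exact mul_le_mul_of_nonneg_left this (by positivity)
    nlinarith
  have c2 : h ^ 2 / 4 ≤ γ / 8 := by
    have h1 : h ^ 2 ≤ h := by nlinarith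
    have h2 : 0 ≤ h * C0 := by positivity
    have h3 : 0 ≤ h * b := by positivity
    have h4 : 0 ≤ h * b * C0 := by positivity
    nlinarith
  obtain ⟨δ, hδ⟩ : ∃ δ : ℝ, δ = γ * h / (4 * (3 + b)) := ⟨_, rfl⟩
  have hδ0 : 0 < δ := by rw [hδ]; positivity
  have c3 : (3 + b) * (1 / (2 * h) * δ) = γ / 8 := by
    rw [hδ]
    field_simp
    norm_num
  obtain ⟨D, hD⟩ : ∃ D : ℝ, D = 1 / (2 * h) * δ := ⟨_, rfl⟩
  have hD0 : 0 ≤ D := by rw [hD]; positivity
  rw [← hD] at c3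
  refine ⟨γ / 8, δ, by positivity, hδ0, fun K hK => ?_⟩
  obtain ⟨W, hW⟩ : ∃ W : ℝ, W = (3/2 * (K + K * (B + 1) ^ 2) + K) * D +
    (3/2 * (K + 2 * K * B ^ 2 + 2 * K) + K) * C0 * h ^ 2 + (K + K * B ^ 2 + K * C0 * h ^ 2) := ⟨_, rfl⟩
  refine ⟨max 0 (2 * W / γ), fun L η F hL A P hP hv t ht => ?_⟩
  have hL0 : 0 ≤ L := (le_max_left _ _).trans hL
  have hL1 : 2 * W / γ ≤ L := (le_max_right _ _).trans hL
  rw [div_le_iff₀ hγ] at hL1
  have h1 := A.good hh0 hh1 hB hδ0.le hv t ht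
  rw [← hD] at h1
  have h2 : (3/2 * (2 * L + K + K * (B + 1) ^ 2) + |P|) * D ≤
      (3/2 * (2 * L + K + K * (B + 1) ^ 2) + (b * L + K)) * D :=
    mul_le_mul_of_nonneg_right (by linarith) hD0
  have h3 : (3/2 * (2 * L + K + 2 * K * B ^ 2 + 2 * K) + |P|) * C0 * h ^ 2 ≤
      (3/2 * (2 * L + K + 2 * K * B ^ 2 + 2 * K) + (b * L + K)) * C0 * h ^ 2 := by
    have e3 : ∀ z : ℝ, z * C0 * h ^ 2 = z * (C0 * h ^ 2) := fun z => by ring
    rw [e3, e3]
    exact mul_le_mul_of_nonneg_right (by linarith) (by positivity)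
  have h4 : h * (γ / 8 * L + K + K * B ^ 2 + K * C0 * h ^ 2) ≤
      1 * (γ / 8 * L + K + K * B ^ 2 + K * C0 * h ^ 2) := by
    exact mul_le_mul_of_nonneg_right (by linarith) (by positivity)
  have e1 : (3/2 * (2 * L + K + K * (B + 1) ^ 2) + (b * L + K)) * D = (3 + b) * D * L +
      (3/2 * (K + K * (B + 1) ^ 2) + K) * D := by ring
  have e2 : (3/2 * (2 * L + K + 2 * K * B ^ 2 + 2 * K) + (b * L + K)) * C0 * h ^ 2 =
      (3 + b) * C0 * h ^ 2 * L + (3/2 * (K + 2 * K * B ^ 2 + 2 * K) + K) * C0 * h ^ 2 := by ring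
  rw [e1, c3] at h2
  rw [e2] at h3
  have h5 : (3 + b) * C0 * h ^ 2 * L ≤ γ / 8 * L := mul_le_mul_of_nonneg_right c1 hL0
  have h6 : h ^ 2 / 4 * L ≤ γ / 8 * L := mul_le_mul_of_nonneg_right c2 hL0
  linarith

lemma Law.exists_gt {κ a : ℝ} (h : Law κ a) : ∃ a' : ℝ, a < a' ∧ Law κ a' := by
  rcases h with ⟨x, hx1, hx2, hxa⟩ | ⟨δ, hδ0, hδ1, hδa⟩
  · exact ⟨(a + x * (κ - x / 4)) / 2, by linarith, Or.inl ⟨x, hx1, hx2, by linarith⟩⟩
  · have h12 : 0 < 1 - 2 * δ := by linarith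
    have h1 : a < δ ^ 2 * (κ - δ / 4) / (1 - 2 * δ) := by rwa [lt_div_iff₀ h12]
    refine ⟨(a + δ ^ 2 * (κ - δ / 4) / (1 - 2 * δ)) / 2, by linarith, Or.inr ⟨δ, hδ0, hδ1, ?_⟩⟩
    rw [← lt_div_iff₀ h12]
    linarith

/-- **the law in measure** -/
theorem law_meas {κ a : ℝ} (ha : 0 ≤ a) (h : Law κ a) :
    ∃ κ' η B δ : ℝ, 0 < κ' ∧ 0 < η ∧ η ≤ 1/4 ∧ 0 < B ∧ 0 < δ ∧ ∀ K : ℝ, 0 ≤ K → ∃ L₀ : ℝ,
      ∀ (L : ℝ) (F : ℂ → ℂ), L₀ ≤ L → AF L (κ' * L + K) (2 * L + K) K η F → F (pt 0 0) ≠ 0 →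
      volume {t : ℝ | |t| ≤ B ∧ a * L + K < II F 0 (3/2) t} ≤ ENNReal.ofReal δ →
      g F 0 0 + K < κ * L := by
  obtain ⟨a₁, ha1, hlaw⟩ := h.exists_gt
  obtain ⟨κ₁, η, B, hκ1, hη0, hη1, hB, H⟩ := law (by linarith : 0 ≤ a₁) hlaw
  obtain ⟨κ₂, δ, hκ2, hδ, H2⟩ := spread (γ := a₁ - a) (b := a) (B := B) (by linarith) ha hB.le
  refine ⟨min κ₁ κ₂, η, B + 1, δ, lt_min hκ1 hκ2, hη0, hη1, by linarith, hδ, fun K hK => ?_⟩
  obtain ⟨L₁, HL1⟩ := H K hK
  obtain ⟨L₂, HL2⟩ := H2 K hK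
  refine ⟨max L₁ L₂, fun L F hL A h0 hv => ?_⟩
  have hL0 := A.L0
  have h1 : min κ₁ κ₂ * L + K ≤ κ₁ * L + K := by
    have := mul_le_mul_of_nonneg_right (min_le_left κ₁ κ₂) hL0
    linarith
  have h2 : min κ₁ κ₂ * L + K ≤ κ₂ * L + K := by
    have := mul_le_mul_of_nonneg_right (min_le_right κ₁ κ₂) hL0
    linarith
  refine HL1 L F ((le_max_left _ _).trans hL) (A.mono_e h1) h0 fun t ht => ?_
  have h3 := HL2 L η F ((le_max_right _ _).trans hL) (A.mono_e h2) (a * L + K)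
    (by rw [abs_of_nonneg (by positivity)]) hv t ht
  linarith

/-- **unconditional lower bound, in measure** -/
theorem zero_meas {ε : ℝ} (hε : 0 < ε) :
    ∃ κ' B δ : ℝ, 0 < κ' ∧ 0 < B ∧ 0 < δ ∧ ∀ K : ℝ, 0 ≤ K → ∃ L₀ : ℝ,
      ∀ (L : ℝ) (F : ℂ → ℂ), L₀ ≤ L → AF L (κ' * L + K) (2 * L + K) K (1/4) F →
      ENNReal.ofReal δ < volume {t : ℝ | |t| ≤ B ∧ -ε * L + K < II F 0 (3/2) t} := by
  obtain ⟨κ₁, B, hκ1, hB, H⟩ := law_zero (half_pos hε)
  obtain ⟨κ₂, δ, hκ2, hδ, H2⟩ := spread (γ := ε / 2) (b := ε) (B := B) (half_pos hε) hε.le hB.le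
  refine ⟨min κ₁ κ₂, B + 1, δ, lt_min hκ1 hκ2, by linarith, hδ, fun K hK => ?_⟩
  obtain ⟨L₁, HL1⟩ := H K hK
  obtain ⟨L₂, HL2⟩ := H2 K hK
  refine ⟨max L₁ L₂, fun L F hL A => ?_⟩
  have hL0 := A.L0
  have h1 : min κ₁ κ₂ * L + K ≤ κ₁ * L + K := by
    have := mul_le_mul_of_nonneg_right (min_le_left κ₁ κ₂) hL0
    linarith
  have h2 : min κ₁ κ₂ * L + K ≤ κ₂ * L + K := by
    have := mul_le_mul_of_nonneg_right (min_le_right κ₁ κ₂) hL0
    linarith
  by_contra hcon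
  rw [not_lt] at hcon
  obtain ⟨t, ht, h3⟩ := HL1 L F ((le_max_left _ _).trans hL) (A.mono_e h1)
  have h4 := HL2 L (1/4) F ((le_max_right _ _).trans hL) (A.mono_e h2) (-ε * L + K)
    (by rw [abs_le]; constructor <;> nlinarith) hcon t ht
  linarith

end Pool.Agent.J4H31.SA
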