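import Mathlib
import Pool.Agent.J4H31.SA.M

/-!
# Project SA: an upper bound gives smallness in the mean
-/

set_option autoImplicit false

open MeasureTheory Filter Topology Set Real

namespace Pool.Agent.J4H31.SA

open Pool.Agent.Y757.LS (ker_pos ker_continuous ker_integrable integral_ker C0 C0_nonneg
  integral_quad_ker)

variable {F : ℂ → ℂ} {L e U k η : ℝ}

lemma cosh_half_pi_le : Real.cosh (π / 2) ≤ 3 := by
  have h1 : Real.exp (8 / 5) ≤ 5 := by
    have h2 : Real.exp (8 / 5) ^ 5 ≤ 5 ^ 5 := by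
      have e : Real.exp (8 / 5) ^ 5 = Real.exp 1 ^ 8 := by
        rw [← Real.exp_nat_mul, ← Real.exp_nat_mul]
        norm_num
      rw [e]
      have h3 := Real.exp_one_lt_d9
      calc Real.exp 1 ^ 8 ≤ (2.7182818286 : ℝ) ^ 8 := pow_le_pow_left₀ (Real.exp_pos _).le h3.le 8
        _ ≤ 5 ^ 5 := by norm_num
    exact (pow_le_pow_iff_left₀ (Real.exp_pos _).le (by norm_num) (by norm_num)).1 h2
  have h2 : Real.exp (π / 2) ≤ 5 := by
    refine le_trans (Real.exp_le_exp.2 ?_) h1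
    have := Real.pi_lt_d2
    linarith
  have h3 : Real.exp (-(π / 2)) ≤ 1 := by
    rw [Real.exp_le_one_iff]
    have := Real.pi_pos
    linarith
  rw [Real.cosh_eq]
  linarith

lemma ker_one_ge {y : ℝ} (hy : |y| ≤ 1) : 1 / 6 ≤ Pool.Agent.Y757.LS.ker 1 y := by
  unfold Pool.Agent.Y757.LS.ker
  have h0 := Real.cosh_pos (π * y / (2 * 1))
  have h1 : Real.cosh (π * y / (2 * 1)) ≤ Real.cosh (π / 2) := by
    rw [Real.cosh_le_cosh, abs_of_pos (by positivity : 0 < π / 2), abs_div, abs_mul,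
      abs_of_pos Real.pi_pos, abs_of_pos (by norm_num : (0:ℝ) < 2 * 1)]
    have := Real.pi_pos
    rw [mul_one]
    apply div_le_div_of_nonneg_right _ (by norm_num)
    nlinarith
  have h2 := cosh_half_pi_le
  apply one_div_le_one_div_of_le (by positivity)
  linarith

/-- smallness in the mean -/
lemma AF.mean (A : AF L e U k η F) {p q : ℝ} (hp : 0 ≤ p) (hq : 0 ≤ q)
    (hm : Maj (II F 0 (3/2)) p q) :
    ∫⁻ y in Icc (-1 : ℝ) 1, ENNReal.ofReal |II F 0 (3/2) y| ≤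
      ENNReal.ofReal (8 * p + 6 * (q * C0 + 5 * e + 2 * k * C0) + 2 * q) := by
  have hη := A.η0
  have he := A.e0
  have hk := A.k0
  have hC0 := C0_nonneg
  have h1 := A.avg_lower (δ := 0) (H := 1) le_rfl (by norm_num) one_pos le_rfl (by linarith [A.η1]) 0
  unfold E at h1
  have i1 := A.II_ker_integrable (a := 0) (b := 3/2) (by norm_num) (by norm_num)
    (by norm_num) one_pos (by norm_num) 0
  have i2 := quad_int one_pos p q 0
  have i3 : Integrable (fun y => (p + q * (0 + y) ^ 2) * Pool.Agent.Y757.LS.ker 1 y -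
      II F 0 (3/2) (0 + y) * Pool.Agent.Y757.LS.ker 1 y) := i2.sub i1
  have hM : ∀ y, II F 0 (3/2) (0 + y) ≤ p + q * (0 + y) ^ 2 := fun y => hm (0 + y)
  have hnn : ∀ y, 0 ≤ (p + q * (0 + y) ^ 2) * Pool.Agent.Y757.LS.ker 1 y -
      II F 0 (3/2) (0 + y) * Pool.Agent.Y757.LS.ker 1 y := fun y => by
    have := mul_le_mul_of_nonneg_right (hM y) (ker_pos one_pos y).le
    linarith
  have h2 : ∫ y, ((p + q * (0 + y) ^ 2) * Pool.Agent.Y757.LS.ker 1 y -
      II F 0 (3/2) (0 + y) * Pool.Agent.Y757.LS.ker 1 y) ≤ p + q * C0 + 5 * e + 2 * k * C0 := by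
    rw [integral_sub i2 i1, integral_quad_ker one_pos]
    have e1 : 5 * k * (0:ℝ) ^ 2 = 0 := by ring
    rw [e1] at h1
    have e2 : p + q * ((0:ℝ) ^ 2 + C0 * 1 ^ 2) = p + q * C0 := by ring
    rw [e2]
    linarith
  have hpt : ∀ y ∈ Icc (-1 : ℝ) 1, ENNReal.ofReal |II F 0 (3/2) y| ≤
      ENNReal.ofReal (6 * ((p + q * (0 + y) ^ 2) * Pool.Agent.Y757.LS.ker 1 y -
        II F 0 (3/2) (0 + y) * Pool.Agent.Y757.LS.ker 1 y)) + ENNReal.ofReal (p + q) := by
    intro y hy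
    have hy1 : |y| ≤ 1 := abs_le.2 hy
    rw [← ENNReal.ofReal_add (by have := hnn y; positivity) (by positivity)]
    apply ENNReal.ofReal_le_ofReal
    have hk6 := ker_one_ge hy1
    have h3 := hM y
    rw [zero_add] at h3 ⊢
    have h4 : y ^ 2 ≤ 1 := by
      rw [← sq_abs]
      exact pow_le_one₀ (abs_nonneg _) hy1
    have h5 : q * y ^ 2 ≤ q * 1 := mul_le_mul_of_nonneg_left h4 hq
    have h6 : 0 ≤ q * y ^ 2 := by positivity
    have h7 : (p + q * y ^ 2 - II F 0 (3/2) y) * (1 / 6) ≤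
        (p + q * y ^ 2 - II F 0 (3/2) y) * Pool.Agent.Y757.LS.ker 1 y :=
      mul_le_mul_of_nonneg_left hk6 (by linarith)
    rw [abs_le]
    constructor <;> linarith
  calc ∫⁻ y in Icc (-1 : ℝ) 1, ENNReal.ofReal |II F 0 (3/2) y| ≤
        ∫⁻ y in Icc (-1 : ℝ) 1, (ENNReal.ofReal (6 * ((p + q * (0 + y) ^ 2) *
          Pool.Agent.Y757.LS.ker 1 y - II F 0 (3/2) (0 + y) * Pool.Agent.Y757.LS.ker 1 y)) +
          ENNReal.ofReal (p + q)) := setLIntegral_mono' measurableSet_Icc hpt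
    _ = (∫⁻ y in Icc (-1 : ℝ) 1, ENNReal.ofReal (6 * ((p + q * (0 + y) ^ 2) *
          Pool.Agent.Y757.LS.ker 1 y - II F 0 (3/2) (0 + y) * Pool.Agent.Y757.LS.ker 1 y))) +
          ENNReal.ofReal (p + q) * volume (Icc (-1 : ℝ) 1) := by
        rw [lintegral_add_right _ measurable_const, setLIntegral_const]
    _ ≤ (∫⁻ y, ENNReal.ofReal (6 * ((p + q * (0 + y) ^ 2) *
          Pool.Agent.Y757.LS.ker 1 y - II F 0 (3/2) (0 + y) * Pool.Agent.Y757.LS.ker 1 y))) +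
          ENNReal.ofReal (p + q) * volume (Icc (-1 : ℝ) 1) :=
        add_le_add (setLIntegral_le_lintegral _ _) le_rfl
    _ = ENNReal.ofReal (6 * ∫ y, ((p + q * (0 + y) ^ 2) *
          Pool.Agent.Y757.LS.ker 1 y - II F 0 (3/2) (0 + y) * Pool.Agent.Y757.LS.ker 1 y)) +
          ENNReal.ofReal (2 * (p + q)) := by
        rw [← integral_const_mul, ofReal_integral_eq_lintegral_ofReal (i3.const_mul 6)
          (Eventually.of_forall fun y => by have := hnn y; positivity),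
          Real.volume_Icc, ← ENNReal.ofReal_mul (by positivity)]
        congr 2
        ring
    _ ≤ _ := by
        have h8 : 0 ≤ ∫ y, ((p + q * (0 + y) ^ 2) * Pool.Agent.Y757.LS.ker 1 y -
          II F 0 (3/2) (0 + y) * Pool.Agent.Y757.LS.ker 1 y) := integral_nonneg hnn
        rw [← ENNReal.ofReal_add (by positivity) (by positivity)]
        apply ENNReal.ofReal_le_ofReal
        linarith

/-- **an upper bound gives smallness in the mean** -/
theorem mean_of_upper {a ε : ℝ} (ha : 0 ≤ a) (hε : 0 < ε) :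
    ∃ κ' B : ℝ, 0 < κ' ∧ 0 < B ∧ ∀ K : ℝ, 0 ≤ K → ∃ L₀ : ℝ, ∀ (L η : ℝ) (F : ℂ → ℂ), L₀ ≤ L →
      AF L (κ' * L + K) (2 * L + K) K η F → (∀ t, |t| ≤ B → II F 0 (3/2) t ≤ a * L + K) →
      ∫⁻ y in Icc (-1 : ℝ) 1, ENNReal.ofReal |II F 0 (3/2) y| ≤ ENNReal.ofReal ((8 * a + ε) * L) := by
  have hC0 := C0_nonneg
  obtain ⟨B, hB⟩ : ∃ B : ℝ, B = Real.sqrt (4 * (6 * C0 + 2) * (3 + a) / ε + 1) := ⟨_, rfl⟩
  have hB0 : 0 < B := by rw [hB]; positivity
  have hB2 : B ^ 2 = 4 * (6 * C0 + 2) * (3 + a) / ε + 1 := by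
    rw [hB]
    exact Real.sq_sqrt (by positivity)
  have hB1 : 1 ≤ B ^ 2 := by
    rw [hB2]
    have : 0 ≤ 4 * (6 * C0 + 2) * (3 + a) / ε := by positivity
    linarith
  refine ⟨ε / 120, B, by positivity, hB0, fun K hK => ?_⟩
  obtain ⟨W, hW⟩ : ∃ W : ℝ, W = 8 * K + 30 * K + 12 * K * C0 + (6 * C0 + 2) * (5 / 2 * K + 3 / 2 * K) :=
    ⟨_, rfl⟩
  refine ⟨max 0 (2 * W / ε), fun L η F hL A hb => ?_⟩
  have hL0 : 0 ≤ L := (le_max_left _ _).trans hL
  have hL1 : 2 * W / ε ≤ L := (le_max_right _ _).trans hL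
  rw [div_le_iff₀ hε] at hL1
  have hP : 0 ≤ a * L + K := by positivity
  have hm := A.loc_maj hB0 hb
  rw [abs_of_nonneg hP] at hm
  have hq : 0 ≤ (3/2 * (2 * L + K) + (a * L + K)) / B ^ 2 + 3/2 * K := by positivity
  refine (A.mean hP hq hm).trans (ENNReal.ofReal_le_ofReal ?_)
  have h3 : (6 * C0 + 2) * ((3/2 * (2 * L + K) + (a * L + K)) / B ^ 2) ≤
      ε / 4 * L + (6 * C0 + 2) * (5 / 2 * K) := by
    have e1 : (6 * C0 + 2) * ((3/2 * (2 * L + K) + (a * L + K)) / B ^ 2) =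
        (6 * C0 + 2) * (3 + a) / B ^ 2 * L + (6 * C0 + 2) * (5 / 2 * K) / B ^ 2 := by
      field_simp
      ring
    have e2 : (6 * C0 + 2) * (3 + a) / B ^ 2 ≤ ε / 4 := by
      rw [div_le_div_iff₀ (by positivity) (by norm_num), hB2]
      have e3 : ε * (4 * (6 * C0 + 2) * (3 + a) / ε + 1) = 4 * (6 * C0 + 2) * (3 + a) + ε := by
        field_simp
      rw [e3]
      linarith
    have e3 : (6 * C0 + 2) * (5 / 2 * K) / B ^ 2 ≤ (6 * C0 + 2) * (5 / 2 * K) :=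
      div_le_self (by positivity) hB1
    have e4 := mul_le_mul_of_nonneg_right e2 hL0
    rw [e1]
    linarith
  have e5 : (6 * C0 + 2) * (3 / 2 * K) = 6 * C0 * (3 / 2 * K) + 2 * (3 / 2 * K) := by ring
  have e6 : (8 * a + ε) * L = 8 * (a * L) + ε * L := by ring
  rw [e6]
  obtain ⟨x, hx⟩ : ∃ x : ℝ, x = (3/2 * (2 * L + K) + (a * L + K)) / B ^ 2 := ⟨_, rfl⟩
  rw [← hx] at h3 ⊢
  nlinarith

end Pool.Agent.J4H31.SA
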