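import Pool.Agent.J4H31.SA.Jcmp
import Pool.Agent.J4H31.SA.Mean
import Pool.Agent.J4H1.LG.E

/-!
# Project SA: the criteria for families
-/

set_option autoImplicit false

open Complex MeasureTheory Filter Topology Set
open scoped ComplexConjugate

namespace Pool.Agent.J4H31.SA

open Pool.Agent.J4H1.LH (LineBound)

/-- `J(t) ≤ a log C(t)` for large conductors -/
def Upper {ι : Type} (L : ι → ℂ → ℂ) (C : ι → ℝ → ℝ) (a : ℝ) : Prop :=
  ∃ C₀ : ℝ, ∀ (i : ι) (t : ℝ), C₀ ≤ Real.log (C i t) → J (L i) t ≤ a * Real.log (C i t)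

/-- `J(t) ≤ a log C(T)` for `|t - T| ≤ 1` up to sets of small measure, for large conductors -/
def Mostly {ι : Type} (L : ι → ℂ → ℂ) (C : ι → ℝ → ℝ) (a : ℝ) : Prop :=
  ∀ δ : ℝ, 0 < δ → ∃ C₀ : ℝ, ∀ (i : ι) (T : ℝ), C₀ ≤ Real.log (C i T) →
    volume {t : ℝ | |t - T| ≤ 1 ∧ a * Real.log (C i T) < J (L i) t} ≤ ENNReal.ofReal δ

/-- `∫_{T-1}^{T+1} |J(t)| dt ≤ a log C(T)` for large conductors -/
def MeanB {ι : Type} (L : ι → ℂ → ℂ) (C : ι → ℝ → ℝ) (a : ℝ) : Prop :=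
  ∃ C₀ : ℝ, ∀ (i : ι) (T : ℝ), C₀ ≤ Real.log (C i T) →
    ∫⁻ t in Icc (T - 1) (T + 1), ENNReal.ofReal |J (L i) t| ≤ ENNReal.ofReal (a * Real.log (C i T))

lemma J_measurable {L : ℂ → ℂ} (hL : Measurable L) : Measurable (J L) := by
  unfold J
  have h1 : ∀ (a b : ℝ), Measurable (fun t : ℝ => ∫ σ in Ioc a b, Real.log ‖L (σ + t * I)‖) := by
    intro a b
    have h2 : StronglyMeasurable (Function.uncurry fun (t σ : ℝ) => Real.log ‖L (σ + t * I)‖) := by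
      refine Measurable.stronglyMeasurable ?_
      exact Real.measurable_log.comp ((hL.comp (by fun_prop)).norm)
    exact (h2.integral_prod_right (ν := volume.restrict (Ioc a b))).measurable
  unfold intervalIntegral
  exact (h1 _ _).sub (h1 _ _)

/-- the properties of the family -/
structure SP {ι : Type} (L : ι → ℂ → ℂ) (C : ι → ℝ → ℝ) : Prop where
  one_le : ∀ i t, 1 ≤ C i t
  shift : ∃ m : ℝ, 0 ≤ m ∧ ∀ (i : ι) (t v : ℝ), Real.log (C i (t + v)) ≤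
    Real.log (C i t) + m * Real.log (1 + |v|)
  lower : ∀ ε : ℝ, 0 < ε → ∃ B δ L₀ : ℝ, 0 < δ ∧ ∀ (i : ι) (T : ℝ), L₀ ≤ Real.log (C i T) →
    ENNReal.ofReal δ < volume {t : ℝ | |t - T| ≤ B ∧ -ε * Real.log (C i T) < J (L i) t}
  law : ∀ κ a : ℝ, 0 ≤ a → Law κ a → ∃ B δ L₀ : ℝ, 0 < δ ∧ ∀ (i : ι) (T : ℝ),
    L₀ ≤ Real.log (C i T) → C i T ^ κ ≤ ‖L i (1 / 2 + T * I)‖ →
    ENNReal.ofReal δ < volume {t : ℝ | |t - T| ≤ B ∧ a * Real.log (C i T) < J (L i) t}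
  upper : ∀ θ : ℝ, 0 ≤ θ → θ ≤ 1 / 4 → LineBound L C θ → ∀ a : ℝ, θ / 4 < a → Upper L C a
  meas : ∀ i, Measurable (J (L i))
  spread : ∀ a γ : ℝ, 0 ≤ a → 0 < γ → ∃ δ L₀ : ℝ, 0 < δ ∧ ∀ (i : ι) (T : ℝ),
    L₀ ≤ Real.log (C i T) →
    volume {t : ℝ | |t - T| ≤ 1 ∧ a * Real.log (C i T) < J (L i) t} ≤ ENNReal.ofReal δ →
    J (L i) T ≤ (a + γ) * Real.log (C i T)
  mean : ∀ a ε : ℝ, 0 ≤ a → 0 < ε → ∃ B L₀ : ℝ, ∀ (i : ι) (T : ℝ), L₀ ≤ Real.log (C i T) →
    (∀ t : ℝ, |t - T| ≤ B → J (L i) t ≤ a * Real.log (C i T)) →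
    ∫⁻ t in Icc (T - 1) (T + 1), ENNReal.ofReal |J (L i) t| ≤
      ENNReal.ofReal ((8 * a + ε) * Real.log (C i T))
  small : ∀ L₁ : ℝ, ∃ M : ℝ, ∀ (i : ι) (T : ℝ), Real.log (C i T) ≤ L₁ →
    ‖L i (1 / 2 + T * I)‖ ≤ M

/-- the quadratic law -/
lemma law_sq {κ a : ℝ} (h1 : 1/8 ≤ κ) (h2 : κ ≤ 1/4) (h : a < κ ^ 2) : Law κ a := by
  left
  rcases h1.eq_or_lt with h3 | h3
  · subst h3
    set e : ℝ := min (1/8) ((1/64 - a) * 2) with he
    have ha : a < 1/64 := by norm_num at h; linarith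
    have he0 : 0 < e := lt_min (by norm_num) (by linarith)
    have he1 : e ≤ 1/8 := min_le_left _ _
    have he2 : e ≤ (1/64 - a) * 2 := min_le_right _ _
    refine ⟨1/4 + e, by linarith, by linarith, ?_⟩
    nlinarith
  · exact ⟨2 * κ, by linarith, by linarith, by nlinarith⟩

/-- the cubic law -/
lemma law_cube {κ a : ℝ} (h1 : 0 < κ) (h2 : κ ≤ 1/8) (h0 : 0 ≤ a)
    (h : a < 64 / 27 * κ ^ 3) : Law κ a := by
  right
  refine ⟨8 / 3 * κ, by positivity, by linarith, ?_⟩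
  have e1 : (8 / 3 * κ) ^ 2 * (κ - 8 / 3 * κ / 4) = 64 / 27 * κ ^ 3 := by ring
  rw [e1]
  have e2 : a * (1 - 2 * (8 / 3 * κ)) ≤ a * 1 := by
    apply mul_le_mul_of_nonneg_left _ h0
    linarith
  linarith

section

variable {ι : Type} {L : ι → ℂ → ℂ} {C : ι → ℝ → ℝ}

lemma SP.log_nonneg (P : SP L C) (i : ι) (t : ℝ) : 0 ≤ Real.log (C i t) :=
  Real.log_nonneg (P.one_le i t)

/-- the conductor near a point -/
lemma SP.near (P : SP L C) (R : ℝ) : ∃ w : ℝ, 0 ≤ w ∧ ∀ (i : ι) (T t : ℝ), |t - T| ≤ R →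
    Real.log (C i t) ≤ Real.log (C i T) + w ∧ Real.log (C i T) ≤ Real.log (C i t) + w := by
  obtain ⟨m, hm, hsh⟩ := P.shift
  have hw0 : 0 ≤ m * Real.log (1 + |R|) := by
    have : 0 ≤ Real.log (1 + |R|) := Real.log_nonneg (by linarith [abs_nonneg R])
    positivity
  refine ⟨m * Real.log (1 + |R|), hw0, fun i T t ht => ?_⟩
  have hR : |t - T| ≤ |R| := ht.trans (le_abs_self R)
  have hlog : ∀ v : ℝ, |v| ≤ |R| → m * Real.log (1 + |v|) ≤ m * Real.log (1 + |R|) := by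
    intro v hv
    apply mul_le_mul_of_nonneg_left _ hm
    exact Real.log_le_log (by positivity) (by linarith)
  constructor
  · have h2 := hsh i T (t - T)
    rw [add_sub_cancel] at h2
    linarith [hlog (t - T) hR]
  · have h3 := hsh i t (T - t)
    rw [add_sub_cancel] at h3
    rw [abs_sub_comm] at hR
    linarith [hlog (T - t) hR]

/-- a bound everywhere is a bound up to small sets -/
lemma SP.mostly_of_upper (P : SP L C) {a a' : ℝ} (ha : 0 ≤ a) (h : a < a') (hU : Upper L C a) :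
    Mostly L C a' := by
  obtain ⟨C₀, hC₀⟩ := hU
  obtain ⟨w, hw0, hw⟩ := P.near 1
  intro δ hδ
  refine ⟨|C₀| + w + a * w / (a' - a), fun i T hT => ?_⟩
  have hD : 0 < a' - a := by linarith
  have h0 : 0 ≤ a * w / (a' - a) := by positivity
  have hemp : {t : ℝ | |t - T| ≤ 1 ∧ a' * Real.log (C i T) < J (L i) t} = ∅ := by
    rw [Set.eq_empty_iff_forall_notMem]
    rintro t ⟨ht1, ht2⟩
    obtain ⟨h1, h2⟩ := hw i T t ht1
    have h3 := hC₀ i t (by linarith [le_abs_self C₀])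
    have h4 : a * Real.log (C i t) ≤ a * (Real.log (C i T) + w) := mul_le_mul_of_nonneg_left h1 ha
    have h5 : a * w / (a' - a) ≤ Real.log (C i T) := by
      have := abs_nonneg C₀
      linarith
    rw [div_le_iff₀ hD] at h5
    linarith
  rw [hemp, measure_empty]
  exact bot_le

/-- **self-improvement** -/
theorem SP.upper_of_mostly (P : SP L C) {a a' : ℝ} (ha : 0 ≤ a) (h : a < a') (hU : Mostly L C a) :
    Upper L C a' := by
  obtain ⟨δ, L₀, hδ, H⟩ := P.spread a (a' - a) ha (by linarith)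
  obtain ⟨C₀, hC₀⟩ := hU δ hδ
  refine ⟨max L₀ C₀, fun i T hT => ?_⟩
  have h1 := H i T ((le_max_left _ _).trans hT) (hC₀ i T ((le_max_right _ _).trans hT))
  rwa [add_sub_cancel] at h1

/-- smallness in the mean -/
theorem SP.mean_of_upper (P : SP L C) {a a' : ℝ} (ha : 0 ≤ a) (h : 8 * a < a') (hU : Upper L C a) :
    MeanB L C a' := by
  obtain ⟨c, hc⟩ : ∃ c : ℝ, c = (a' - 8 * a) / 16 := ⟨_, rfl⟩
  have hc0 : 0 < c := by rw [hc]; linarith
  obtain ⟨B, L₀, H⟩ := P.mean (a + c) (8 * c) (by linarith) (by linarith)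
  obtain ⟨C₀, hC₀⟩ := hU
  obtain ⟨w, hw0, hw⟩ := P.near B
  have h0 : 0 ≤ a * w / c := by positivity
  refine ⟨|L₀| + |C₀| + w + a * w / c, fun i T hT => ?_⟩
  have a0 := abs_nonneg L₀
  have a1 := abs_nonneg C₀
  have h1 := H i T (by linarith [le_abs_self L₀]) fun t ht => by
    obtain ⟨h1, h2⟩ := hw i T t ht
    have h3 := hC₀ i t (by linarith [le_abs_self C₀])
    have h4 : a * Real.log (C i t) ≤ a * (Real.log (C i T) + w) := mul_le_mul_of_nonneg_left h1 ha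
    have h5 : a * w / c ≤ Real.log (C i T) := by linarith
    rw [div_le_iff₀ hc0] at h5
    linarith
  have e : 8 * (a + c) + 8 * c = a' := by rw [hc]; ring
  rwa [e] at h1

/-- Markov's inequality -/
theorem SP.mostly_of_mean (P : SP L C) (h : ∀ ε : ℝ, 0 < ε → MeanB L C ε) {ε : ℝ} (hε : 0 < ε) :
    Mostly L C ε := by
  intro δ hδ
  obtain ⟨C₀, hC₀⟩ := h (ε * δ) (by positivity)
  refine ⟨max 1 C₀, fun i T hT => ?_⟩
  have h1 : 1 ≤ Real.log (C i T) := (le_max_left _ _).trans hT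
  have h2 := hC₀ i T ((le_max_right _ _).trans hT)
  obtain ⟨x, hx⟩ : ∃ x : ℝ, x = ε * Real.log (C i T) := ⟨_, rfl⟩
  have hx0 : 0 < x := by rw [hx]; positivity
  have hm : AEMeasurable (fun t => ENNReal.ofReal |J (L i) t|)
      (volume.restrict (Icc (T - 1) (T + 1))) :=
    ((P.meas i).abs.ennreal_ofReal).aemeasurable
  have h3 := meas_ge_le_lintegral_div hm (ε := ENNReal.ofReal x) (by simpa using hx0)
    ENNReal.ofReal_ne_top
  have hsub : {t : ℝ | |t - T| ≤ 1 ∧ ε * Real.log (C i T) < J (L i) t} ⊆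
      {t : ℝ | ENNReal.ofReal x ≤ ENNReal.ofReal |J (L i) t|} ∩ Icc (T - 1) (T + 1) := by
    rintro t ⟨ht1, ht2⟩
    rw [abs_le] at ht1
    refine ⟨?_, ⟨by linarith, by linarith⟩⟩
    apply ENNReal.ofReal_le_ofReal
    rw [hx]
    exact ht2.le.trans (le_abs_self _)
  calc volume {t : ℝ | |t - T| ≤ 1 ∧ ε * Real.log (C i T) < J (L i) t} ≤
        volume ({t : ℝ | ENNReal.ofReal x ≤ ENNReal.ofReal |J (L i) t|} ∩ Icc (T - 1) (T + 1)) :=
        measure_mono hsub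
    _ ≤ (volume.restrict (Icc (T - 1) (T + 1))) {t : ℝ | ENNReal.ofReal x ≤ ENNReal.ofReal |J (L i) t|} :=
        Measure.le_restrict_apply _ _
    _ ≤ (∫⁻ t in Icc (T - 1) (T + 1), ENNReal.ofReal |J (L i) t|) / ENNReal.ofReal x := h3
    _ ≤ ENNReal.ofReal (ε * δ * Real.log (C i T)) / ENNReal.ofReal x := by gcongr
    _ = ENNReal.ofReal δ := by
        rw [← ENNReal.ofReal_div_of_pos hx0]
        congr 1
        rw [hx]
        field_simp

/-- larger windows -/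
lemma SP.mostly_wide (P : SP L C) {a a' : ℝ} (ha : 0 ≤ a) (h : a < a') (hU : Mostly L C a)
    (B : ℝ) {δ : ℝ} (hδ : 0 < δ) : ∃ C₀ : ℝ, ∀ (i : ι) (T : ℝ), C₀ ≤ Real.log (C i T) →
    volume {t : ℝ | |t - T| ≤ B ∧ a' * Real.log (C i T) < J (L i) t} ≤ ENNReal.ofReal δ := by
  obtain ⟨n, hn⟩ := exists_nat_ge |B|
  obtain ⟨w, hw0, hw⟩ := P.near n
  have hn1 : (0:ℝ) < 2 * n + 1 := by positivity
  obtain ⟨C₀, hC₀⟩ := hU (δ / (2 * n + 1)) (by positivity)
  have hD : 0 < a' - a := by linarith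
  have h0 : 0 ≤ a * w / (a' - a) := by positivity
  refine ⟨|C₀| + w + a * w / (a' - a), fun i T hT => ?_⟩
  -- the windows
  have hsub : {t : ℝ | |t - T| ≤ B ∧ a' * Real.log (C i T) < J (L i) t} ⊆
      ⋃ k ∈ Finset.range (2 * n + 1), {t : ℝ | |t - (T - n + k)| ≤ 1 ∧
        a * Real.log (C i (T - n + k)) < J (L i) t} := by
    rintro t ⟨ht1, ht2⟩
    have ht3 : |t - T| ≤ n := ht1.trans ((le_abs_self B).trans hn)
    rw [abs_le] at ht3
    obtain ⟨k, hk⟩ : ∃ k : ℕ, k = ⌊t - T + n⌋₊ := ⟨_, rfl⟩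
    have hpos : 0 ≤ t - T + n := by linarith
    have hk1 : (k:ℝ) ≤ t - T + n := by rw [hk]; exact Nat.floor_le hpos
    have hk2 : t - T + n < k + 1 := by rw [hk]; exact Nat.lt_floor_add_one _
    have hk3 : k ≤ 2 * n := by
      have : (k:ℝ) ≤ 2 * n := by linarith
      exact_mod_cast this
    rw [Set.mem_iUnion₂]
    refine ⟨k, Finset.mem_range.2 (by omega), ?_, ?_⟩
    · rw [abs_le]; constructor <;> linarith
    · have hk4 : (k:ℝ) ≤ 2 * n := by exact_mod_cast hk3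
      have hk5 : (0:ℝ) ≤ k := Nat.cast_nonneg k
      obtain ⟨h1, h2⟩ := hw i T (T - n + k) (by rw [abs_le]; constructor <;> linarith)
      have h4 : a * Real.log (C i (T - n + k)) ≤ a * (Real.log (C i T) + w) :=
        mul_le_mul_of_nonneg_left h1 ha
      have h5 : a * w / (a' - a) ≤ Real.log (C i T) := by
        have := abs_nonneg C₀
        linarith
      rw [div_le_iff₀ hD] at h5
      linarith
  calc volume {t : ℝ | |t - T| ≤ B ∧ a' * Real.log (C i T) < J (L i) t} ≤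
        volume (⋃ k ∈ Finset.range (2 * n + 1), {t : ℝ | |t - (T - n + k)| ≤ 1 ∧
          a * Real.log (C i (T - n + k)) < J (L i) t}) := measure_mono hsub
    _ ≤ ∑ k ∈ Finset.range (2 * n + 1), volume {t : ℝ | |t - (T - n + k)| ≤ 1 ∧
          a * Real.log (C i (T - n + k)) < J (L i) t} := measure_biUnion_finset_le _ _
    _ ≤ ∑ _k ∈ Finset.range (2 * n + 1), ENNReal.ofReal (δ / (2 * n + 1)) := by
        refine Finset.sum_le_sum fun k hk => hC₀ i _ ?_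
        have hk3 : k ≤ 2 * n := by
          have := Finset.mem_range.1 hk
          omega
        have hk4 : (k:ℝ) ≤ 2 * n := by exact_mod_cast hk3
        have hk5 : (0:ℝ) ≤ k := Nat.cast_nonneg k
        obtain ⟨h1, h2⟩ := hw i T (T - n + k) (by rw [abs_le]; constructor <;> linarith)
        linarith [le_abs_self C₀]
    _ = ENNReal.ofReal δ := by
        rw [Finset.sum_const, Finset.card_range, nsmul_eq_mul, ← ENNReal.ofReal_natCast,
          ← ENNReal.ofReal_mul (Nat.cast_nonneg _)]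
        congr 1
        push_cast
        field_simp

/-- **one-sided criterion with exponents** -/
theorem SP.crit (P : SP L C) {κ a : ℝ} (hκ : 0 ≤ κ) (ha : 0 ≤ a) (h : Law κ a)
    (hJ : Mostly L C a) : LineBound L C κ := by
  obtain ⟨a', haa, hL⟩ := h.exists_gt
  obtain ⟨B, δ, L₀, hδ, hB⟩ := P.law κ a' (by linarith) hL
  obtain ⟨C₀, hC₀⟩ := P.mostly_wide ha haa hJ B hδ
  obtain ⟨M, hM⟩ := P.small (max L₀ C₀)
  have key : ∀ (i : ι) (T : ℝ), max L₀ C₀ < Real.log (C i T) →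
      ‖L i (1 / 2 + T * I)‖ ≤ C i T ^ κ := by
    intro i T hT
    by_contra hcon
    rw [not_le] at hcon
    exact absurd (hC₀ i T ((le_max_right _ _).trans hT.le))
      (not_le.2 (hB i T ((le_max_left _ _).trans hT.le) hcon.le))
  intro ε hε
  refine ⟨|M| + 1, fun i t => ?_⟩
  have h1 := P.one_le i t
  have h2 : 1 ≤ C i t ^ (κ + ε) := Real.one_le_rpow h1 (by linarith)
  have h0 := abs_nonneg M
  rcases le_or_gt (Real.log (C i t)) (max L₀ C₀) with h3 | h3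
  · have h4 := hM i t h3
    have h5 := le_abs_self M
    nlinarith
  · have h4 := key i t h3
    have h5 : C i t ^ κ ≤ C i t ^ (κ + ε) := Real.rpow_le_rpow_of_exponent_le h1 (by linarith)
    nlinarith

lemma line_mono (h1 : ∀ i t, 1 ≤ C i t) {θ θ' : ℝ} (h : θ ≤ θ') (hL : LineBound L C θ) :
    LineBound L C θ' := Pool.Agent.J4H1.LG.line_mono h1 h hL

lemma line_of_lt {θ : ℝ} (h : ∀ θ' : ℝ, θ < θ' → θ' < θ + 1 → LineBound L C θ') : LineBound L C θ := by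
  intro ε hε
  obtain ⟨e, he⟩ : ∃ e : ℝ, e = min (ε / 2) (1 / 2) := ⟨_, rfl⟩
  have he0 : 0 < e := by rw [he]; exact lt_min (by linarith) (by norm_num)
  have he1 : e ≤ 1 / 2 := by rw [he]; exact min_le_right _ _
  obtain ⟨B, hB⟩ := h (θ + e) (by linarith) (by linarith) (ε - e) (by
    have : e ≤ ε / 2 := by rw [he]; exact min_le_left _ _
    linarith)
  refine ⟨B, fun i t => ?_⟩
  have := hB i t
  rwa [show θ + e + (ε - e) = θ + ε by ring] at this

lemma Mostly.mono (h1 : ∀ i t, 1 ≤ C i t) {a a' : ℝ} (h : a ≤ a') (hU : Mostly L C a) :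
    Mostly L C a' := by
  intro δ hδ
  obtain ⟨C₀, hC₀⟩ := hU δ hδ
  refine ⟨C₀, fun i T hT => (measure_mono ?_).trans (hC₀ i T hT)⟩
  rintro t ⟨ht1, ht2⟩
  refine ⟨ht1, lt_of_le_of_lt ?_ ht2⟩
  exact mul_le_mul_of_nonneg_right h (Real.log_nonneg (h1 i T))

lemma Upper.mono (h1 : ∀ i t, 1 ≤ C i t) {a a' : ℝ} (h : a ≤ a') (hU : Upper L C a) :
    Upper L C a' := by
  obtain ⟨C₀, hC₀⟩ := hU
  refine ⟨C₀, fun i t ht => (hC₀ i t ht).trans ?_⟩
  exact mul_le_mul_of_nonneg_right h (Real.log_nonneg (h1 i t))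

/-- the square root law -/
theorem SP.crit_sqrt (P : SP L C) {a : ℝ} (h1 : 1 / 64 ≤ a) (h2 : a ≤ 1 / 16)
    (hJ : ∀ a' : ℝ, a < a' → Mostly L C a') : LineBound L C (Real.sqrt a) := by
  have ha0 : 0 ≤ a := by linarith
  have hs1 : 1 / 8 ≤ Real.sqrt a := by
    rw [Real.le_sqrt (by norm_num) ha0]
    linarith
  have hsa := Real.sq_sqrt ha0
  rcases h2.eq_or_lt with h3 | h3
  · -- the convexity bound
    refine line_of_lt fun θ' hθ' _ => ?_
    have hs : Real.sqrt a = 1 / 4 := by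
      rw [h3, show (1 / 16 : ℝ) = (1 / 4) ^ 2 by norm_num, Real.sqrt_sq (by norm_num)]
    rw [hs] at hθ'
    obtain ⟨a', ha'⟩ : ∃ a' : ℝ, a' = (1 / 16 + 1 / 2 * (θ' - 1 / 8)) / 2 := ⟨_, rfl⟩
    refine P.crit (a := a') (by linarith) (by linarith) (Or.inl ⟨1 / 2, by norm_num, le_rfl, ?_⟩)
      (hJ a' (by linarith))
    rw [ha']
    linarith
  · refine line_of_lt fun θ' hθ' _ => ?_
    have hs2 : Real.sqrt a < 1 / 4 := by
      rw [Real.sqrt_lt' (by norm_num)]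
      linarith
    obtain ⟨κ, hκ⟩ : ∃ κ : ℝ, κ = min θ' (1 / 4) := ⟨_, rfl⟩
    have hκ1 : Real.sqrt a < κ := by rw [hκ]; exact lt_min hθ' hs2
    have hκ2 : κ ≤ 1 / 4 := by rw [hκ]; exact min_le_right _ _
    have hκ3 : κ ≤ θ' := by rw [hκ]; exact min_le_left _ _
    have h4 : a < κ ^ 2 := by nlinarith
    obtain ⟨a', ha'⟩ : ∃ a' : ℝ, a' = (a + κ ^ 2) / 2 := ⟨_, rfl⟩
    refine line_mono P.one_le hκ3 ?_
    exact P.crit (a := a') (by linarith) (by linarith) (law_sq (by linarith) hκ2 (by linarith))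
      (hJ a' (by linarith))

/-- the cube root law -/
theorem SP.crit_cube (P : SP L C) {κ : ℝ} (h1 : 0 ≤ κ) (h2 : κ ≤ 1 / 8)
    (hJ : ∀ a : ℝ, 64 / 27 * κ ^ 3 < a → Mostly L C a) : LineBound L C κ := by
  rcases h2.eq_or_lt with h3 | h3
  · refine line_of_lt fun θ' hθ' _ => ?_
    -- at `κ = 1/8` the cubic law is weaker than the quadratic one
    have e1 : 64 / 27 * κ ^ 3 = 1 / 216 := by rw [h3]; norm_num
    rw [e1] at hJ
    refine line_mono P.one_le hθ'.le ?_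
    rw [h3]
    exact P.crit (a := 1 / 100) (by norm_num) (by norm_num)
      (law_sq le_rfl (by norm_num) (by norm_num)) (hJ _ (by norm_num))
  · refine line_of_lt fun θ' hθ' _ => ?_
    obtain ⟨κ', hκ'⟩ : ∃ κ' : ℝ, κ' = min θ' (1 / 8) := ⟨_, rfl⟩
    have hκ1 : κ < κ' := by rw [hκ']; exact lt_min hθ' h3
    have hκ2 : κ' ≤ 1 / 8 := by rw [hκ']; exact min_le_right _ _
    have hκ3 : κ' ≤ θ' := by rw [hκ']; exact min_le_left _ _
    have h4 : κ ^ 3 < κ' ^ 3 := pow_lt_pow_left₀ hκ1 h1 (by norm_num)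
    have h5 : 0 ≤ κ ^ 3 := by positivity
    obtain ⟨a', ha'⟩ : ∃ a' : ℝ, a' = 64 / 27 * ((κ ^ 3 + κ' ^ 3) / 2) := ⟨_, rfl⟩
    refine line_mono P.one_le hκ3 ?_
    exact P.crit (a := a') (by linarith) (by linarith)
      (law_cube (by linarith) hκ2 (by linarith) (by linarith)) (hJ a' (by linarith))

/-- **one-sided criterion** -/
theorem SP.lindelof_upper (P : SP L C) (h : LineBound L C 0) {ε : ℝ} (hε : 0 < ε) : Upper L C ε :=
  P.upper 0 le_rfl (by norm_num) h ε (by linarith)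

theorem SP.lindelof_mostly (P : SP L C) (h : ∀ ε : ℝ, 0 < ε → Mostly L C ε) : LineBound L C 0 := by
  refine P.crit_cube le_rfl (by norm_num) fun a ha => h a ?_
  have : (64 / 27 * (0:ℝ) ^ 3) = 0 := by norm_num
  linarith

theorem SP.lindelof_mean (P : SP L C) (h : LineBound L C 0) {ε : ℝ} (hε : 0 < ε) : MeanB L C ε :=
  P.mean_of_upper (a := ε / 16) (by positivity) (by linarith) (P.lindelof_upper h (by positivity))

theorem SP.mostly_all (P : SP L C) (h : ∀ ε : ℝ, 0 < ε → Upper L C ε) {ε : ℝ} (hε : 0 < ε) :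
    Mostly L C ε :=
  P.mostly_of_upper (half_pos hε).le (half_lt_self hε) (h _ (half_pos hε))

/-- **subconvexity** -/
theorem SP.subconvex_upper (P : SP L C) (h : ∃ θ : ℝ, θ < 1 / 4 ∧ LineBound L C θ) :
    ∃ a : ℝ, a < 1 / 16 ∧ Upper L C a := by
  obtain ⟨θ, hθ, h⟩ := h
  obtain ⟨θ', hθ'⟩ : ∃ θ' : ℝ, θ' = max θ 0 := ⟨_, rfl⟩
  have h0 : 0 ≤ θ' := by rw [hθ']; exact le_max_right _ _
  have h1 : θ ≤ θ' := by rw [hθ']; exact le_max_left _ _
  have h2 : θ' < 1 / 4 := by rw [hθ']; exact max_lt hθ (by norm_num)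
  refine ⟨(θ' / 4 + 1 / 16) / 2, by linarith, ?_⟩
  exact P.upper θ' h0 h2.le (line_mono P.one_le h1 h) _ (by linarith)

theorem SP.subconvex_mostly (P : SP L C) (h : ∃ a : ℝ, a < 1 / 16 ∧ Mostly L C a) :
    ∃ θ : ℝ, θ < 1 / 4 ∧ LineBound L C θ := by
  obtain ⟨a, ha, h⟩ := h
  obtain ⟨a', ha'⟩ : ∃ a' : ℝ, a' = max a (1 / 64) := ⟨_, rfl⟩
  have h1 : 1 / 64 ≤ a' := by rw [ha']; exact le_max_right _ _
  have h2 : a ≤ a' := by rw [ha']; exact le_max_left _ _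
  have h3 : a' < 1 / 16 := by rw [ha']; exact max_lt ha (by norm_num)
  refine ⟨Real.sqrt a', ?_, P.crit_sqrt h1 h3.le fun b hb => h.mono P.one_le (by linarith)⟩
  rw [Real.sqrt_lt' (by norm_num)]
  linarith

theorem SP.subconvex_mid (P : SP L C) (h : ∃ a : ℝ, a < 1 / 16 ∧ Upper L C a) :
    ∃ a : ℝ, a < 1 / 16 ∧ Mostly L C a := by
  obtain ⟨a, ha, h⟩ := h
  obtain ⟨a', ha'⟩ : ∃ a' : ℝ, a' = max a 0 := ⟨_, rfl⟩
  have h1 : 0 ≤ a' := by rw [ha']; exact le_max_right _ _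
  have h2 : a ≤ a' := by rw [ha']; exact le_max_left _ _
  have h3 : a' < 1 / 16 := by rw [ha']; exact max_lt ha (by norm_num)
  exact ⟨(a' + 1 / 16) / 2, by linarith, P.mostly_of_upper h1 (by linarith) (h.mono P.one_le h2)⟩

end

end Pool.Agent.J4H31.SA
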