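import Pool.Agent.J4H31.SA.Crit
import Pool.Agent.J4H1.LG.Dr
import Pool.Agent.W320.HF.Rect

/-!
# Project SA: families of automorphic L-functions
-/

set_option autoImplicit false

open Complex MeasureTheory Filter Topology Set
open scoped ComplexConjugate

namespace Pool.Agent.J4H31.SA

open Pool.Agent.J4H34.HF (DR Xi cond_ge)
open Pool.Agent.J4H1.LH (LineBound Lf fT gT lT GT log_cond_shift)
open Pool.Agent.J4H8.LH (lT_nonneg GT_pos)
open Pool.Agent.J4H1.LG (Lf_diff line_mj small_bd cls_dr PD)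

variable {m : ℕ} {K : ℝ}

/-- comparison of measures -/
lemma vol_shift (f : ℝ → ℝ) {B c : ℝ} (T : ℝ) : volume {τ : ℝ | |τ| ≤ B ∧ c < f (T + τ)} =
    volume {t : ℝ | |t - T| ≤ B ∧ c < f t} := by
  have h1 := measure_preimage_add volume T {t : ℝ | |t - T| ≤ B ∧ c < f t}
  rw [← h1]
  congr 1
  ext τ
  simp only [Set.mem_ofPred_eq, Set.mem_preimage, add_sub_cancel_left]

/-- the properties of a class -/
structure CA (m : ℕ) (P : ℝ → (Fin m → ℂ) → (ℂ → ℂ) → Prop) : Prop where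
  cls : Pool.Agent.J4H1.LG.Cls m 2 P
  re : ∀ {N : ℝ} {μ : Fin m → ℂ} {Λ : ℂ → ℂ}, P N μ Λ → ∀ j, (μ j).re ≤ 1 / 2
  af : HAF m P

theorem ca_dr (hm : 1 ≤ m) (hK : 0 ≤ K) : CA m (PD (m := m) K) where
  cls := cls_dr hm hK
  re := by
    rintro N μ Λ ⟨α, ε, d⟩
    exact d.dat.re_le
  af := af hm hK

variable {P : ℝ → (Fin m → ℂ) → (ℂ → ℂ) → Prop}

/-- uniform lower bound for `J` in measure -/
theorem lower_ca (hm : 1 ≤ m) (hP : CA m P) {ε : ℝ} (hε : 0 < ε) : ∃ B δ L₀ : ℝ, 0 < δ ∧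
    ∀ (N : ℝ) (μ : Fin m → ℂ) (Λ : ℂ → ℂ), P N μ Λ →
    ∀ T : ℝ, L₀ ≤ Real.log (Pool.Agent.J4H34.HF.cond N μ T) → ENNReal.ofReal δ <
      volume {t : ℝ | |t - T| ≤ B ∧ -ε * Real.log (Pool.Agent.J4H34.HF.cond N μ T) < J (Lf μ Λ) t} := by
  obtain ⟨κ', B, δ, hκ', hB, hδ, H⟩ := zero_meas hε
  obtain ⟨K0, hK0, HA⟩ := hP.af κ' (1 / 4) hκ' (by norm_num) le_rfl
  have hm0 : (0:ℝ) ≤ m := Nat.cast_nonneg m
  obtain ⟨K', hK'⟩ : ∃ K' : ℝ, K' = K0 + (1500 * m * (4 + B ^ 2) + 5 * m) := ⟨_, rfl⟩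
  have h1 : 0 ≤ 1500 * (m:ℝ) * (4 + B ^ 2) + 5 * m := by positivity
  obtain ⟨L₀, HL⟩ := H K' (by linarith)
  refine ⟨B, δ, L₀, hδ, fun N μ Λ d T hT => ?_⟩
  have e1 : 2 * lT N μ T = Real.log (Pool.Agent.J4H34.HF.cond N μ T) := by unfold lT; ring
  have A := HA N μ Λ d T K' (by linarith)
  rw [e1] at A
  refine (HL _ _ hT A).trans_le ?_
  rw [← vol_shift]
  refine measure_mono ?_
  rintro τ ⟨hτ, h2⟩
  refine ⟨hτ, ?_⟩
  have h3 := le_J hm (hP.cls.one_le d) (hP.re d) (hP.cls.ent d) A τ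
  have h4 : τ ^ 2 ≤ B ^ 2 := by
    rw [← sq_abs τ]
    exact pow_le_pow_left₀ (abs_nonneg _) hτ 2
  have h5 : 1500 * (m:ℝ) * (4 + τ ^ 2) ≤ 1500 * m * (4 + B ^ 2) :=
    mul_le_mul_of_nonneg_left (by linarith) (by positivity)
  linarith

/-- **the local law, uniform in the L-function** -/
theorem law_ca (hm : 1 ≤ m) (hP : CA m P) {κ a : ℝ} (ha : 0 ≤ a) (h : Law κ a) :
    ∃ B δ L₀ : ℝ, 0 < δ ∧
    ∀ (N : ℝ) (μ : Fin m → ℂ) (Λ : ℂ → ℂ), P N μ Λ →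
    ∀ T : ℝ, L₀ ≤ Real.log (Pool.Agent.J4H34.HF.cond N μ T) →
      Pool.Agent.J4H34.HF.cond N μ T ^ κ ≤ ‖Lf μ Λ (1 / 2 + T * I)‖ → ENNReal.ofReal δ <
      volume {t : ℝ | |t - T| ≤ B ∧ a * Real.log (Pool.Agent.J4H34.HF.cond N μ T) < J (Lf μ Λ) t} := by
  obtain ⟨κ', η, B, δ, hκ', hη, hη1, hB, hδ, H⟩ := law_meas ha h
  obtain ⟨K0, hK0, HA⟩ := hP.af κ' η hκ' hη hη1
  have hm0 : (0:ℝ) ≤ m := Nat.cast_nonneg m
  obtain ⟨K', hK'⟩ : ∃ K' : ℝ, K' = K0 + (1500 * m * (4 + B ^ 2) + 5 * m) := ⟨_, rfl⟩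
  have h1 : 0 ≤ 1500 * (m:ℝ) * B ^ 2 := by positivity
  obtain ⟨L₀, HL⟩ := H K' (by linarith)
  refine ⟨B, δ, L₀, hδ, fun N μ Λ d T hT hL => ?_⟩
  have e1 : 2 * lT N μ T = Real.log (Pool.Agent.J4H34.HF.cond N μ T) := by unfold lT; ring
  have A := HA N μ Λ d T K' (by linarith)
  rw [e1] at A
  have hc := cond_ge (μ := μ) (hP.cls.one_le d) T
  have hc0 : 0 < Pool.Agent.J4H34.HF.cond N μ T := by linarith
  by_contra hcon
  rw [not_lt] at hcon
  have hpos : 0 < ‖Lf μ Λ (1 / 2 + T * I)‖ := lt_of_lt_of_le (Real.rpow_pos_of_pos hc0 κ) hL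
  obtain ⟨h0, h2⟩ := base_point hm (hP.cls.one_le d) (hP.re d) T (norm_pos_iff.1 hpos)
  have h3 := HL _ _ hT A h0 (by
    refine le_trans ?_ hcon
    rw [← vol_shift]
    refine measure_mono ?_
    rintro τ ⟨hτ, h6⟩
    refine ⟨hτ, ?_⟩
    have h3 := le_J hm (hP.cls.one_le d) (hP.re d) (hP.cls.ent d) A τ
    have h4 : τ ^ 2 ≤ B ^ 2 := by
      rw [← sq_abs τ]
      exact pow_le_pow_left₀ (abs_nonneg _) hτ 2
    have h5 : 1500 * (m:ℝ) * (4 + τ ^ 2) ≤ 1500 * m * (4 + B ^ 2) :=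
      mul_le_mul_of_nonneg_left (by linarith) (by positivity)
    linarith)
  have h4 := Real.log_le_log (Real.rpow_pos_of_pos hc0 κ) hL
  rw [Real.log_rpow hc0] at h4
  linarith

/-- **self-improvement, local form** -/
theorem spread_ca (hm : 1 ≤ m) (hP : CA m P) {a γ : ℝ} (ha : 0 ≤ a) (hγ : 0 < γ) :
    ∃ δ L₀ : ℝ, 0 < δ ∧ ∀ (N : ℝ) (μ : Fin m → ℂ) (Λ : ℂ → ℂ), P N μ Λ →
    ∀ T : ℝ, L₀ ≤ Real.log (Pool.Agent.J4H34.HF.cond N μ T) →
      volume {t : ℝ | |t - T| ≤ 1 ∧ a * Real.log (Pool.Agent.J4H34.HF.cond N μ T) < J (Lf μ Λ) t} ≤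
        ENNReal.ofReal δ →
      J (Lf μ Λ) T ≤ (a + γ) * Real.log (Pool.Agent.J4H34.HF.cond N μ T) := by
  obtain ⟨κ', δ, hκ', hδ, H⟩ := spread (γ := γ / 2) (b := a) (B := 0) (half_pos hγ) ha le_rfl
  obtain ⟨K0, hK0, HA⟩ := hP.af κ' (1 / 4) hκ' (by norm_num) le_rfl
  have hm0 : (0:ℝ) ≤ m := Nat.cast_nonneg m
  obtain ⟨K', hK'⟩ : ∃ K' : ℝ, K' = K0 + (1500 * m * (4 + 1 ^ 2) + 5 * m) := ⟨_, rfl⟩
  have h1 : 0 ≤ 1500 * (m:ℝ) * (4 + 1 ^ 2) + 5 * m := by positivity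
  have hK'0 : 0 ≤ K' := by linarith
  obtain ⟨L₀, HL⟩ := H K' (by linarith)
  refine ⟨δ, |L₀| + (2 * K' + 12000 * m) / (γ / 2), hδ, fun N μ Λ d T hT hv => ?_⟩
  have e1 : 2 * lT N μ T = Real.log (Pool.Agent.J4H34.HF.cond N μ T) := by unfold lT; ring
  have A := HA N μ Λ d T K' (by linarith)
  rw [e1] at A
  have hL0 := A.L0
  have hq : 0 ≤ (2 * K' + 12000 * m) / (γ / 2) := by positivity
  have h2 := HL _ _ _ (by linarith [le_abs_self L₀]) A
    (a * Real.log (Pool.Agent.J4H34.HF.cond N μ T) + K')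
    (by rw [abs_of_nonneg (by positivity)]) (by
      refine le_trans ?_ hv
      rw [← vol_shift]
      refine measure_mono ?_
      rintro τ ⟨hτ, h6⟩
      rw [zero_add] at hτ
      refine ⟨hτ, ?_⟩
      have h3 := le_J hm (hP.cls.one_le d) (hP.re d) (hP.cls.ent d) A τ
      have h4 : τ ^ 2 ≤ 1 ^ 2 := by
        rw [← sq_abs τ]
        exact pow_le_pow_left₀ (abs_nonneg _) hτ 2
      have h5 : 1500 * (m:ℝ) * (4 + τ ^ 2) ≤ 1500 * m * (4 + 1 ^ 2) :=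
        mul_le_mul_of_nonneg_left (by linarith) (by positivity)
      linarith) 0 (by rw [abs_zero])
  have h3 := J_le hm (hP.cls.one_le d) (hP.re d) (hP.cls.ent d) A 0
  rw [add_zero] at h3
  have e2 : 1500 * (m:ℝ) * (4 + (0:ℝ) ^ 2) = 6000 * m := by ring
  rw [e2] at h3
  have h4 : (2 * K' + 12000 * m) / (γ / 2) ≤ Real.log (Pool.Agent.J4H34.HF.cond N μ T) := by
    have := abs_nonneg L₀
    linarith
  rw [div_le_iff₀ (half_pos hγ)] at h4
  linarith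

/-- **smallness in the mean, local form** -/
theorem mean_ca (hm : 1 ≤ m) (hP : CA m P) {a ε : ℝ} (ha : 0 ≤ a) (hε : 0 < ε) :
    ∃ B L₀ : ℝ, ∀ (N : ℝ) (μ : Fin m → ℂ) (Λ : ℂ → ℂ), P N μ Λ →
    ∀ T : ℝ, L₀ ≤ Real.log (Pool.Agent.J4H34.HF.cond N μ T) →
      (∀ t : ℝ, |t - T| ≤ B → J (Lf μ Λ) t ≤ a * Real.log (Pool.Agent.J4H34.HF.cond N μ T)) →
      ∫⁻ t in Icc (T - 1) (T + 1), ENNReal.ofReal |J (Lf μ Λ) t| ≤
        ENNReal.ofReal ((8 * a + ε) * Real.log (Pool.Agent.J4H34.HF.cond N μ T)) := by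
  obtain ⟨κ', B, hκ', hB, H⟩ := mean_of_upper (a := a) (ε := ε / 2) ha (half_pos hε)
  obtain ⟨K0, hK0, HA⟩ := hP.af κ' (1 / 4) hκ' (by norm_num) le_rfl
  have hm0 : (0:ℝ) ≤ m := Nat.cast_nonneg m
  obtain ⟨K', hK'⟩ : ∃ K' : ℝ, K' = K0 + (1500 * m * (4 + B ^ 2) + 5 * m) := ⟨_, rfl⟩
  have h1 : 0 ≤ 1500 * (m:ℝ) * (4 + B ^ 2) + 5 * m := by positivity
  obtain ⟨L₀, HL⟩ := H K' (by linarith)
  obtain ⟨W, hW⟩ : ∃ W : ℝ, W = 1500 * m * (4 + 1 ^ 2) + 5 * m := ⟨_, rfl⟩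
  have hW0 : 0 ≤ W := by rw [hW]; positivity
  refine ⟨B, |L₀| + 2 * W / (ε / 2), fun N μ Λ d T hT hb => ?_⟩
  have e1 : 2 * lT N μ T = Real.log (Pool.Agent.J4H34.HF.cond N μ T) := by unfold lT; ring
  have A := HA N μ Λ d T K' (by linarith)
  rw [e1] at A
  have hL0 := A.L0
  have hq : 0 ≤ 2 * W / (ε / 2) := by positivity
  have h2 := HL _ _ _ (by linarith [le_abs_self L₀]) A fun τ hτ => by
    have h3 := le_J hm (hP.cls.one_le d) (hP.re d) (hP.cls.ent d) A τ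
    have h4 : τ ^ 2 ≤ B ^ 2 := by
      rw [← sq_abs τ]
      exact pow_le_pow_left₀ (abs_nonneg _) hτ 2
    have h5 : 1500 * (m:ℝ) * (4 + τ ^ 2) ≤ 1500 * m * (4 + B ^ 2) :=
      mul_le_mul_of_nonneg_left (by linarith) (by positivity)
    have h6 := hb (T + τ) (by rwa [add_sub_cancel_left])
    linarith
  have hpt : ∀ y ∈ Icc (-1 : ℝ) 1, ENNReal.ofReal |J (Lf μ Λ) (T + y)| ≤
      ENNReal.ofReal |II (FF N μ Λ T) 0 (3/2) y| + ENNReal.ofReal W := by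
    intro y hy
    have hy1 : |y| ≤ 1 := abs_le.2 hy
    rw [← ENNReal.ofReal_add (abs_nonneg _) hW0]
    apply ENNReal.ofReal_le_ofReal
    have h3 := le_J hm (hP.cls.one_le d) (hP.re d) (hP.cls.ent d) A y
    have h3' := J_le hm (hP.cls.one_le d) (hP.re d) (hP.cls.ent d) A y
    have h4 : y ^ 2 ≤ 1 ^ 2 := by
      rw [← sq_abs y]
      exact pow_le_pow_left₀ (abs_nonneg _) hy1 2
    have h5 : 1500 * (m:ℝ) * (4 + y ^ 2) ≤ 1500 * m * (4 + 1 ^ 2) :=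
      mul_le_mul_of_nonneg_left (by linarith) (by positivity)
    have h6 := neg_abs_le (II (FF N μ Λ T) 0 (3/2) y)
    have h7 := le_abs_self (II (FF N μ Λ T) 0 (3/2) y)
    rw [abs_le]
    constructor <;> linarith
  have hshift : ∫⁻ t in Icc (T - 1) (T + 1), ENNReal.ofReal |J (Lf μ Λ) t| =
      ∫⁻ y in Icc (-1 : ℝ) 1, ENNReal.ofReal |J (Lf μ Λ) (T + y)| := by
    have h8 := (measurePreserving_add_left (volume : Measure ℝ) T).setLIntegral_comp_preimage_emb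
      (measurableEmbedding_addLeft T) (fun t => ENNReal.ofReal |J (Lf μ Λ) t|) (Icc (T - 1) (T + 1))
    rw [← h8]
    congr 2
    ext y
    simp only [Set.mem_preimage, Set.mem_Icc]
    constructor
    · rintro ⟨h1, h2⟩; exact ⟨by linarith, by linarith⟩
    · rintro ⟨h1, h2⟩; exact ⟨by linarith, by linarith⟩
  rw [hshift]
  calc ∫⁻ y in Icc (-1 : ℝ) 1, ENNReal.ofReal |J (Lf μ Λ) (T + y)| ≤
        ∫⁻ y in Icc (-1 : ℝ) 1, (ENNReal.ofReal |II (FF N μ Λ T) 0 (3/2) y| + ENNReal.ofReal W) :=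
        setLIntegral_mono' measurableSet_Icc hpt
    _ = (∫⁻ y in Icc (-1 : ℝ) 1, ENNReal.ofReal |II (FF N μ Λ T) 0 (3/2) y|) +
          ENNReal.ofReal W * volume (Icc (-1 : ℝ) 1) := by
        rw [lintegral_add_right _ measurable_const, setLIntegral_const]
    _ ≤ ENNReal.ofReal ((8 * a + ε / 2) * Real.log (Pool.Agent.J4H34.HF.cond N μ T)) +
          ENNReal.ofReal W * volume (Icc (-1 : ℝ) 1) := add_le_add h2 le_rfl
    _ ≤ _ := by
        rw [Real.volume_Icc, ← ENNReal.ofReal_mul hW0, ← ENNReal.ofReal_add (by positivity)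
          (by linarith)]
        apply ENNReal.ofReal_le_ofReal
        have h4 : 2 * W / (ε / 2) ≤ Real.log (Pool.Agent.J4H34.HF.cond N μ T) := by
          have := abs_nonneg L₀
          linarith
        rw [div_le_iff₀ (half_pos hε)] at h4
        linarith

/-- **families of automorphic L-functions** -/
theorem sp_ca (hm : 1 ≤ m) (hP : CA m P) {ι : Type} {N : ι → ℝ} {μ : ι → Fin m → ℂ}
    {Λ : ι → ℂ → ℂ} (hD : ∀ i, P (N i) (μ i) (Λ i)) :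
    SP (fun i => Lf (μ i) (Λ i)) (fun i => Pool.Agent.J4H34.HF.cond (N i) (μ i)) := by
  have hm0 : (0:ℝ) ≤ m := Nat.cast_nonneg m
  refine
    { one_le := fun i t => cond_ge (hP.cls.one_le (hD i)) t
      shift := ⟨m, hm0, fun i t v => log_cond_shift (hP.cls.one_le (hD i)) t v⟩
      lower := fun ε₀ hε₀ => ?_
      law := fun κ a ha h => ?_
      upper := fun θ hθ hθ1 h a ha => ?_
      meas := fun i => J_measurable (Lf_diff (hP.cls.ent (hD i))).continuous.measurable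
      spread := fun a γ ha hγ => ?_
      mean := fun a ε ha hε => ?_
      small := fun L₁ => ?_ }
  · obtain ⟨B, δ, L₀, hδ, H⟩ := lower_ca (m := m) hm hP hε₀
    exact ⟨B, δ, L₀, hδ, fun i T hT => H _ _ _ (hD i) T hT⟩
  · obtain ⟨B, δ, L₀, hδ, H⟩ := law_ca (m := m) hm hP ha h
    exact ⟨B, δ, L₀, hδ, fun i T hT hL => H _ _ _ (hD i) T hT hL⟩
  · -- the upper bound
    obtain ⟨w, hw⟩ : ∃ w : ℝ, w = a - θ / 4 := ⟨_, rfl⟩
    have hw0 : 0 < w := by linarith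
    obtain ⟨κ', hκ'⟩ : ∃ κ' : ℝ, κ' = min (w / 8) 1 := ⟨_, rfl⟩
    have hκ0 : 0 < κ' := by rw [hκ']; exact lt_min (by linarith) one_pos
    have hκ1 : κ' ≤ w / 8 := by rw [hκ']; exact min_le_left _ _
    obtain ⟨η, hη⟩ : ∃ η : ℝ, η = min (w / 4) (1 / 4) := ⟨_, rfl⟩
    have hη0 : 0 < η := by rw [hη]; exact lt_min (by linarith) (by norm_num)
    have hη1 : η ≤ 1 / 4 := by rw [hη]; exact min_le_right _ _
    have hη2 : η ≤ w / 4 := by rw [hη]; exact min_le_left _ _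
    obtain ⟨K0, hK0, HA⟩ := hP.af κ' η hκ0 hη0 hη1
    obtain ⟨ℓ0, HM⟩ := line_mj Pool.Agent.W320.HF.rect hP.cls hD hθ hθ1 h hη0 (by linarith)
      (κ := κ') hκ0
    obtain ⟨W, hW⟩ : ∃ W : ℝ, W = K0 + 1500 * m * 4 := ⟨_, rfl⟩
    have hW0 : 0 ≤ W := by rw [hW]; positivity
    refine ⟨|ℓ0| + 4 * W / w, fun i T hT => ?_⟩
    simp only at hT ⊢
    obtain ⟨Lc, hLc⟩ : ∃ Lc : ℝ, Lc = Real.log (Pool.Agent.J4H34.HF.cond (N i) (μ i) T) := ⟨_, rfl⟩
    have e1 : 2 * lT (N i) (μ i) T = Lc := by rw [hLc]; unfold lT; ring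
    rw [← hLc] at hT ⊢
    have q0 : 0 ≤ 4 * W / w := by positivity
    have hL0 : 0 ≤ Lc := by linarith [abs_nonneg ℓ0]
    have hT1 : ℓ0 ≤ Lc := by linarith [le_abs_self ℓ0]
    have hT2 : 4 * W / w ≤ Lc := by linarith [abs_nonneg ℓ0]
    rw [div_le_iff₀ hw0] at hT2
    have hmj := HM i T (by rw [← hLc]; exact hT1)
    have A := HA _ _ _ (hD i) T K0 le_rfl
    rw [e1] at A
    have hN := hP.cls.one_le (hD i)
    have hμ := hP.re (hD i)
    have hG := GT_pos hm hN hμ T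
    have h1 := J_le hm hN hμ (hP.cls.ent (hD i)) A 0
    rw [add_zero] at h1
    have h2 := A.II_split 0 (1 / 2 + η) (3 / 2) 0
    have h3 := (A.II_right (a := 1 / 2 + η) (b := 3 / 2) le_rfl (by linarith) (by norm_num) 0).1
    rw [abs_le] at h3
    -- the part near the line
    have hlT : lT (N i) (μ i) T = Lc / 2 := by linarith
    have h4 : ∀ s ∈ Icc (0:ℝ) (1 / 2 + η), g (FF (N i) (μ i) (Λ i) T) s 0 ≤
        Lc * θ * (1 - s / (1 / 2 + η)) + κ' * Lc / 2 := by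
      intro s hs
      have h5 := hmj s hs.1 hs.2
      have e2 : pt s 0 = (s : ℂ) := by unfold pt; simp
      have hb : 0 ≤ 1 - s / (1 / 2 + η) := by
        rw [sub_nonneg, div_le_one (by linarith)]
        exact hs.2
      have hr : 0 ≤ Lc * θ * (1 - s / (1 / 2 + η)) + κ' * Lc / 2 := by positivity
      unfold g
      rw [FF_norm T hG, e2]
      rcases eq_or_ne (fT (N i) (Λ i) T (s : ℂ)) 0 with h6 | h6
      · rw [h6, norm_zero, zero_mul, zero_mul, Real.log_zero]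
        exact hr
      · have h7 : 0 < ‖fT (N i) (Λ i) T (s : ℂ)‖ := norm_pos_iff.2 h6
        rw [Complex.ofReal_re, Real.log_le_iff_le_exp (by positivity), hlT]
        rw [hlT] at h5
        calc ‖fT (N i) (Λ i) T (s : ℂ)‖ * Real.exp (-(Lc / 2 * s)) * (GT (N i) (μ i) T)⁻¹
            ≤ (GT (N i) (μ i) T * Real.exp (Lc / 2 * (2 * θ + (1 - 2 * θ / (1 / 2 + η)) * s) +
              κ' * (Lc / 2))) * Real.exp (-(Lc / 2 * s)) * (GT (N i) (μ i) T)⁻¹ := by gcongr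
          _ = Real.exp (Lc / 2 * (2 * θ + (1 - 2 * θ / (1 / 2 + η)) * s) +
              κ' * (Lc / 2) + -(Lc / 2 * s)) := by
              rw [Real.exp_add _ (-(Lc / 2 * s))]
              field_simp
          _ = _ := by
              congr 1
              field_simp
              ring
    have hη' : 0 < 1 / 2 + η := by linarith
    have h5 : II (FF (N i) (μ i) (Λ i) T) 0 (1 / 2 + η) 0 ≤
        ∫ s in (0:ℝ)..(1 / 2 + η), (Lc * θ * (1 - s / (1 / 2 + η)) + κ' * Lc / 2) := by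
      unfold II
      exact intervalIntegral.integral_mono_on hη'.le (A.g_intervalIntegrable _ _ 0)
        (Continuous.intervalIntegrable (by fun_prop) _ _) h4
    have h6 : ∫ s in (0:ℝ)..(1 / 2 + η), (Lc * θ * (1 - s / (1 / 2 + η)) + κ' * Lc / 2) =
        Lc * θ * (1 / 2 + η) / 2 + κ' * Lc / 2 * (1 / 2 + η) := by
      have e2 : (fun s : ℝ => Lc * θ * (1 - s / (1 / 2 + η)) + κ' * Lc / 2) =
          fun s => (Lc * θ + κ' * Lc / 2) + (-(Lc * θ / (1 / 2 + η))) * s := by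
        funext s; field_simp; ring
      rw [e2, intervalIntegral.integral_add (intervalIntegrable_const)
        (Continuous.intervalIntegrable (by fun_prop) _ _), intervalIntegral.integral_const,
        intervalIntegral.integral_const_mul, integral_id]
      simp only [smul_eq_mul]
      field_simp
      ring
    rw [h6] at h5
    have h7 : (κ' * Lc + K0 + K0 * (0:ℝ) ^ 2) * (3 / 2 - (1 / 2 + η)) ≤ (κ' * Lc + K0) * 1 := by
      have : (0:ℝ) ^ 2 = 0 := by norm_num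
      rw [this, mul_zero, add_zero]
      exact mul_le_mul_of_nonneg_left (by linarith) (by positivity)
    have h8 : κ' * Lc ≤ w / 8 * Lc := mul_le_mul_of_nonneg_right hκ1 hL0
    have h9 : κ' * Lc / 2 * (1 / 2 + η) ≤ κ' * Lc := by
      have : 0 ≤ κ' * Lc := by positivity
      nlinarith
    have h10 : Lc * θ * (1 / 2 + η) / 2 ≤ Lc * (θ / 4) + w / 32 * Lc := by
      have h11 : Lc * (θ * η) ≤ Lc * (1 / 4 * (w / 4)) := by gcongr
      linarith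
    have h12 : a * Lc = Lc * (θ / 4) + w * Lc := by rw [hw]; ring
    rw [h12]
    have h13 : (4 + (0:ℝ) ^ 2) = 4 := by norm_num
    rw [h13] at h1
    linarith
  · obtain ⟨δ, L₀, hδ, H⟩ := spread_ca (m := m) hm hP ha hγ
    exact ⟨δ, L₀, hδ, fun i T hT hv => H _ _ _ (hD i) T hT hv⟩
  · obtain ⟨B, L₀, H⟩ := mean_ca (m := m) hm hP ha hε
    exact ⟨B, L₀, fun i T hT hv => H _ _ _ (hD i) T hT hv⟩
  · -- small conductors
    obtain ⟨K1, K2, hK1, H1, H2⟩ := hP.cls.aut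
    refine ⟨Real.exp (3 / 4 * |L₁| + 4 * K1), fun i T hT => ?_⟩
    obtain ⟨hud, hgi, hgu⟩ := H1 (N i) (μ i) (Λ i) (hD i) T
    have h1 := small_bd hK1 (hP.cls.one_le (hD i)) hud hgi (r := 0) le_rfl (by norm_num)
    have e1 : (1 / 2 + ((0:ℝ) : ℂ) + T * I) = 1 / 2 + T * I := by push_cast; ring
    rw [e1] at h1
    refine h1.trans (Real.exp_le_exp.2 ?_)
    have e2 : lT (N i) (μ i) T = Real.log (Pool.Agent.J4H34.HF.cond (N i) (μ i) T) / 2 := rfl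
    rw [e2]
    have := le_abs_self L₁
    linarith

end Pool.Agent.J4H31.SA
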