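import Pool.Agent.J4H31.SA.Jint

/-!
# Project SA: comparison of the horizontal integrals
-/

set_option autoImplicit false

open Complex MeasureTheory Filter Topology Set
open scoped ComplexConjugate

namespace Pool.Agent.J4H31.SA

open H353.E H353.F
open Pool.Agent.J4H34.HF (DR Xi cond_ge LL LL_bound xi_eq)
open Pool.Agent.J4H1.LH
open Pool.Agent.J4H8.LH
open Pool.Agent.W169.HF (UD)

variable {m : ℕ} {K N : ℝ} {μ : Fin m → ℂ} {α : Fin m → ℕ → ℂ} {ε : ℂ} {Λ : ℂ → ℂ}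

lemma pt_shift (T s τ : ℝ) : (1 / 2 + (T : ℂ) * I + pt s τ) = ((s + 1 / 2 : ℝ) : ℂ) + ((T + τ : ℝ) : ℂ) * I := by
  unfold pt
  push_cast
  ring

lemma Lf_pt (hN : 1 ≤ N) (T s τ : ℝ) : Lf μ Λ (((s + 1 / 2 : ℝ) : ℂ) + ((T + τ : ℝ) : ℂ) * I) =
    fT N Λ T (pt s τ) * (gT N μ T (pt s τ))⁻¹ := by
  rw [← pt_shift, Lf_eq (by linarith : 0 < N)]
  rfl

lemma norm_L_le (hm : 1 ≤ m) (hN : 1 ≤ N) (hμ : ∀ j, (μ j).re ≤ 1 / 2) (T : ℝ) {s : ℝ} (hs : 0 ≤ s)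
    (τ : ℝ) : ‖Lf μ Λ (((s + 1 / 2 : ℝ) : ℂ) + ((T + τ : ℝ) : ℂ) * I)‖ ≤
      ‖FF N μ Λ T (pt s τ)‖ * Real.exp (1000 * m * (1 + (s ^ 2 + τ ^ 2))) := by
  have hG := GT_pos hm hN hμ T
  have h1 := gT_inv hm hN hμ T (u := pt s τ) (by rw [pt_re]; exact hs)
  rw [pt_re, pt_sq] at h1
  rw [Lf_pt hN, norm_mul, FF_norm T hG, pt_re]
  calc ‖fT N Λ T (pt s τ)‖ * ‖(gT N μ T (pt s τ))⁻¹‖ ≤ ‖fT N Λ T (pt s τ)‖ *
        ((GT N μ T)⁻¹ * Real.exp (-(lT N μ T * s) + 1000 * m * (1 + (s ^ 2 + τ ^ 2)))) := by gcongr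
    _ = _ := by rw [Real.exp_add]; ring

lemma norm_F_le (hm : 1 ≤ m) (hN : 1 ≤ N) (hμ : ∀ j, (μ j).re ≤ 1 / 2) (T : ℝ) {s : ℝ} (hs : 0 < s)
    (τ : ℝ) : ‖FF N μ Λ T (pt s τ)‖ ≤ ‖Lf μ Λ (((s + 1 / 2 : ℝ) : ℂ) + ((T + τ : ℝ) : ℂ) * I)‖ *
      Real.exp (1000 * m * (1 + (s ^ 2 + τ ^ 2)) + 2 * m * Real.sqrt (1 / s)) := by
  have hG := GT_pos hm hN hμ T
  obtain ⟨h0, h1⟩ := gT_up2 hm hN hμ T (u := pt s τ) (by rw [pt_re]; exact hs)
  rw [pt_re, pt_sq] at h1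
  rw [Lf_pt hN, norm_mul, FF_norm T hG, pt_re, norm_inv]
  have h2 : 0 < ‖gT N μ T (pt s τ)‖ := norm_pos_iff.2 h0
  have h3 : Real.exp (-(lT N μ T * s)) * (GT N μ T)⁻¹ ≤ ‖gT N μ T (pt s τ)‖⁻¹ *
      Real.exp (1000 * m * (1 + (s ^ 2 + τ ^ 2)) + 2 * m * Real.sqrt (1 / s)) := by
    rw [← div_eq_mul_inv, div_le_iff₀ hG, inv_mul_eq_div, div_mul_eq_mul_div, le_div_iff₀ h2]
    calc Real.exp (-(lT N μ T * s)) * ‖gT N μ T (pt s τ)‖ ≤ Real.exp (-(lT N μ T * s)) *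
          (GT N μ T * Real.exp (lT N μ T * s + 1000 * m * (1 + (s ^ 2 + τ ^ 2)) +
            2 * m * Real.sqrt (1 / s))) := by gcongr
      _ = _ := by
          rw [mul_left_comm, ← Real.exp_add, mul_comm]
          congr 2
          ring
  calc ‖fT N Λ T (pt s τ)‖ * Real.exp (-(lT N μ T * s)) * (GT N μ T)⁻¹ =
        ‖fT N Λ T (pt s τ)‖ * (Real.exp (-(lT N μ T * s)) * (GT N μ T)⁻¹) := by ring
    _ ≤ ‖fT N Λ T (pt s τ)‖ * (‖gT N μ T (pt s τ)‖⁻¹ *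
      Real.exp (1000 * m * (1 + (s ^ 2 + τ ^ 2)) + 2 * m * Real.sqrt (1 / s))) := by gcongr
    _ = _ := by ring

lemma log_le_add {a b w : ℝ} (ha : 0 ≤ a) (hw : 0 ≤ w) (h : a ≤ b * Real.exp w)
    (h' : a = 0 → b = 0) : Real.log a ≤ Real.log b + w := by
  rcases ha.eq_or_lt with h0 | h0
  · rw [← h0, h' h0.symm, Real.log_zero]
    linarith
  · have hb : 0 < b := by
      by_contra hcon
      rw [not_lt] at hcon
      have := mul_nonpos_of_nonpos_of_nonneg hcon (Real.exp_pos w).le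
      linarith
    have h1 := Real.log_le_log h0 h
    rwa [Real.log_mul hb.ne' (Real.exp_pos _).ne', Real.log_exp] at h1

lemma J_eq (L : ℂ → ℂ) (t : ℝ) :
    J L t = ∫ s in (0:ℝ)..(3/2), Real.log ‖L (((s + 1 / 2 : ℝ) : ℂ) + (t : ℂ) * I)‖ := by
  unfold J
  have h1 := intervalIntegral.integral_comp_add_right
    (fun σ : ℝ => Real.log ‖L ((σ : ℂ) + (t : ℂ) * Complex.I)‖) (1/2) (a := 0) (b := 3/2)
  rw [show (0:ℝ) + 1/2 = 1/2 by norm_num, show (3:ℝ)/2 + 1/2 = 2 by norm_num] at h1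
  rw [← h1]

lemma L_intervalIntegrable {L : ℂ → ℂ} (hL : Differentiable ℂ L) (t a b : ℝ) :
    IntervalIntegrable (fun s : ℝ => Real.log ‖L (((s + 1 / 2 : ℝ) : ℂ) + (t : ℂ) * I)‖) volume a b := by
  refine MeromorphicOn.intervalIntegrable_log_norm
    (f := fun s : ℝ => L (((s + 1 / 2 : ℝ) : ℂ) + (t : ℂ) * I)) ?_
  intro s _
  have h1 : AnalyticAt ℝ L (((s + 1 / 2 : ℝ) : ℂ) + (t : ℂ) * I) := (hL.analyticAt _).restrictScalars
  have h2 : AnalyticAt ℝ (fun s : ℝ => (((s + 1 / 2 : ℝ) : ℂ) + (t : ℂ) * I)) s := by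
    have : (fun s : ℝ => (((s + 1 / 2 : ℝ) : ℂ) + (t : ℂ) * I)) =
        fun s : ℝ => ((s : ℂ) + (1 / 2 + (t : ℂ) * I)) := by
      funext s; push_cast; ring
    rw [this]
    refine AnalyticAt.add ?_ analyticAt_const
    exact Complex.ofRealCLM.analyticAt s
  exact (AnalyticAt.fun_comp (g := L) (f := fun s : ℝ => (((s + 1 / 2 : ℝ) : ℂ) + (t : ℂ) * I))
    h1 h2).meromorphicAt

/-- `J` is at most the horizontal integral -/
lemma J_le (hm : 1 ≤ m) (hN : 1 ≤ N) (hμ : ∀ j, (μ j).re ≤ 1 / 2) (hΛ : Differentiable ℂ Λ)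
    {T L e U k η : ℝ} (A : AF L e U k η (FF N μ Λ T)) (τ : ℝ) :
    J (Lf μ Λ) (T + τ) ≤ II (FF N μ Λ T) 0 (3/2) τ + 1500 * m * (4 + τ ^ 2) := by
  rw [J_eq]
  unfold II
  have i1 := A.g_intervalIntegrable 0 (3/2) τ
  have i2 := L_intervalIntegrable (Pool.Agent.J4H1.LG.Lf_diff (μ := μ) hΛ) (T + τ) 0 (3/2)
  have i3 : IntervalIntegrable (fun s => g (FF N μ Λ T) s τ + 1000 * m * (4 + τ ^ 2)) volume 0 (3/2) :=
    i1.add intervalIntegrable_const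
  have h1 := intervalIntegral.integral_mono_on_of_le_Ioo (by norm_num) i2 i3 (fun s hs => by
    have hs0 : 0 < s := hs.1
    have hs1 : s < 3/2 := hs.2
    have hw : (0:ℝ) ≤ 1000 * m * (1 + (s ^ 2 + τ ^ 2)) := by positivity
    have h2 := log_le_add (norm_nonneg _) hw (norm_L_le hm hN hμ (Λ := Λ) T hs0.le τ) (fun h0 => by
      have h3 := norm_F_le hm hN hμ (Λ := Λ) T hs0 τ
      rw [h0, zero_mul] at h3
      exact le_antisymm h3 (norm_nonneg _))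
    have h4 : 1000 * (m : ℝ) * (1 + (s ^ 2 + τ ^ 2)) ≤ 1000 * m * (4 + τ ^ 2) :=
      mul_le_mul_of_nonneg_left (by nlinarith) (by positivity)
    have h5 : Real.log ‖FF N μ Λ T (pt s τ)‖ = g (FF N μ Λ T) s τ := rfl
    rw [h5] at h2
    linarith)
  rw [intervalIntegral.integral_add i1 intervalIntegrable_const, intervalIntegral.integral_const,
    smul_eq_mul] at h1
  refine h1.trans (le_of_eq ?_)
  ring

lemma sqrt_int : IntervalIntegrable (fun s : ℝ => s ^ (-(1/2) : ℝ)) volume 0 (3/2) ∧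
    ∫ s in (0:ℝ)..(3/2), s ^ (-(1/2) : ℝ) ≤ 5/2 := by
  refine ⟨intervalIntegral.intervalIntegrable_rpow' (by norm_num), ?_⟩
  rw [integral_rpow (Or.inl (by norm_num))]
  have h1 : (-(1/2) + 1 : ℝ) = 1/2 := by norm_num
  rw [h1, Real.zero_rpow (by norm_num), ← Real.sqrt_eq_rpow]
  have h2 : Real.sqrt (3/2) ≤ 5/4 := by
    rw [Real.sqrt_le_left (by norm_num)]
    norm_num
  linarith

/-- the horizontal integral is at most `J` -/
lemma le_J (hm : 1 ≤ m) (hN : 1 ≤ N) (hμ : ∀ j, (μ j).re ≤ 1 / 2) (hΛ : Differentiable ℂ Λ)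
    {T L e U k η : ℝ} (A : AF L e U k η (FF N μ Λ T)) (τ : ℝ) :
    II (FF N μ Λ T) 0 (3/2) τ ≤ J (Lf μ Λ) (T + τ) + 1500 * m * (4 + τ ^ 2) + 5 * m := by
  rw [J_eq]
  unfold II
  have i1 := A.g_intervalIntegrable 0 (3/2) τ
  have i2 := L_intervalIntegrable (Pool.Agent.J4H1.LG.Lf_diff (μ := μ) hΛ) (T + τ) 0 (3/2)
  have i4 := sqrt_int.1.const_mul (2 * (m : ℝ))
  have i3 : IntervalIntegrable (fun s : ℝ =>
      Real.log ‖Lf μ Λ (((s + 1 / 2 : ℝ) : ℂ) + ((T + τ : ℝ) : ℂ) * I)‖ + 1000 * m * (4 + τ ^ 2))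
      volume 0 (3/2) := i2.add intervalIntegrable_const
  have h1 := intervalIntegral.integral_mono_on_of_le_Ioo (by norm_num) i1 (i3.add i4) (fun s hs => by
    have hs0 : 0 < s := hs.1
    have hs1 : s < 3/2 := hs.2
    have hw : (0:ℝ) ≤ 1000 * m * (1 + (s ^ 2 + τ ^ 2)) + 2 * m * Real.sqrt (1 / s) := by positivity
    have h2 := log_le_add (norm_nonneg _) hw (norm_F_le hm hN hμ (Λ := Λ) T hs0 τ) (fun h0 => by
      have h3 := norm_L_le hm hN hμ (Λ := Λ) T hs0.le τ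
      rw [h0, zero_mul] at h3
      exact le_antisymm h3 (norm_nonneg _))
    have h4 : 1000 * (m : ℝ) * (1 + (s ^ 2 + τ ^ 2)) ≤ 1000 * m * (4 + τ ^ 2) :=
      mul_le_mul_of_nonneg_left (by nlinarith) (by positivity)
    have h5 : Real.log ‖FF N μ Λ T (pt s τ)‖ = g (FF N μ Λ T) s τ := rfl
    have h6 : Real.sqrt (1 / s) = s ^ (-(1/2) : ℝ) := by
      rw [Real.sqrt_eq_rpow, one_div, Real.inv_rpow hs0.le, Real.rpow_neg hs0.le]
    rw [h5, h6] at h2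
    linarith)
  rw [intervalIntegral.integral_add i3 i4, intervalIntegral.integral_add i2 intervalIntegrable_const,
    intervalIntegral.integral_const, intervalIntegral.integral_const_mul, smul_eq_mul] at h1
  have h2 := mul_le_mul_of_nonneg_left sqrt_int.2 (by positivity : (0:ℝ) ≤ 2 * m)
  linarith

/-- the value at the centre -/
lemma base_point (hm : 1 ≤ m) (hN : 1 ≤ N) (hμ : ∀ j, (μ j).re ≤ 1 / 2) (T : ℝ)
    (h0 : Lf μ Λ (1 / 2 + T * I) ≠ 0) : FF N μ Λ T (pt 0 0) ≠ 0 ∧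
      Real.log ‖Lf μ Λ (1 / 2 + T * I)‖ ≤ g (FF N μ Λ T) 0 0 + 1000 * m := by
  have e1 : (((0 + 1 / 2 : ℝ) : ℂ) + ((T + 0 : ℝ) : ℂ) * I) = 1 / 2 + T * I := by
    push_cast; ring
  have h1 := norm_L_le hm hN hμ (Λ := Λ) T le_rfl 0
  rw [e1] at h1
  have h2 : FF N μ Λ T (pt 0 0) ≠ 0 := by
    intro h
    rw [h, norm_zero, zero_mul] at h1
    exact h0 (norm_eq_zero.1 (le_antisymm h1 (norm_nonneg _)))
  refine ⟨h2, ?_⟩
  have h3 := log_le_add (norm_nonneg _) (by positivity) h1 (fun h => absurd (norm_eq_zero.1 h) h0)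
  have h4 : 1000 * (m : ℝ) * (1 + ((0:ℝ) ^ 2 + 0 ^ 2)) = 1000 * m := by ring
  rw [h4] at h3
  exact h3

end Pool.Agent.J4H31.SA
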