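import Pool.Agent.J4H31.SA.DrI
import Pool.Agent.J4H1.LG.Zeta6
import Pool.Agent.J4H1.LG.AsmG

/-!
# Project SA: the Riemann zeta function
-/

set_option autoImplicit false

open Complex MeasureTheory Filter Topology Set
open scoped ComplexConjugate

namespace Pool.Agent.J4H31.SA

open Pool.Agent.J4H34.HF (LL)
open Pool.Agent.J4H1.LH (LineBound Lf fT gT lT GT)
open Pool.Agent.J4H8.LH (lT_nonneg GT_pos gT_cmp half_re)
open Pool.Agent.J4H1.LG
open Pool.Agent.J4H1.JP (XX m4 m4_re diff_XX)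

lemma rat_bd {η : ℝ} (hη : 0 < η) (hη1 : η ≤ 1) {s : ℂ} (hs : 1 + η ≤ s.re) :
    η ≤ ‖rat s‖ ∧ ‖rat s‖ ≤ 20 := by
  obtain ⟨p1, p2⟩ := pi_bd
  have h1 : η ≤ ‖s - 1‖ := by
    have := re_le_norm (s - 1)
    rw [sub_re, one_re] at this
    linarith
  have h2 : 3 ≤ ‖s + 2‖ := by
    have := re_le_norm (s + 2)
    rw [add_re, re_ofNat] at this
    linarith
  have h3 : ‖s + 2‖ ≤ ‖s - 1‖ + 3 := by
    have := norm_add_le (s - 1) 3
    have e : s - 1 + 3 = s + 2 := by ring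
    rw [e] at this
    have e3 : ‖(3 : ℂ)‖ = 3 := by norm_num
    rwa [e3] at this
  have h4 : ‖s - 1‖ ≤ ‖s + 2‖ := by
    apply abs_le_of_sq_le_sq' _ (by linarith) |>.2
    rw [Complex.sq_norm, Complex.sq_norm, Complex.normSq_apply, Complex.normSq_apply, sub_re, sub_im,
      add_re, add_im, one_re, one_im, re_ofNat, im_ofNat]
    nlinarith
  have hp : 0 < ‖s + 2‖ := by linarith
  have hn : ‖rat s‖ = 2 * Real.pi ^ 2 * (‖s - 1‖ / ‖s + 2‖) := by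
    unfold rat
    rw [norm_mul, norm_div, norm_mul, norm_pow, Complex.norm_real, Real.norm_eq_abs,
      abs_of_pos Real.pi_pos]
    norm_num
  have hq1 : ‖s - 1‖ / ‖s + 2‖ ≤ 1 := (div_le_one hp).2 h4
  have hq2 : η / 4 ≤ ‖s - 1‖ / ‖s + 2‖ := by
    rw [div_le_div_iff₀ (by norm_num) hp]
    nlinarith
  rw [hn]
  constructor
  · have h5 : 18 * (η / 4) ≤ 2 * Real.pi ^ 2 * (‖s - 1‖ / ‖s + 2‖) := by gcongr
    linarith
  · calc 2 * Real.pi ^ 2 * (‖s - 1‖ / ‖s + 2‖) ≤ 20 * 1 := by gcongr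
      _ = 20 := by norm_num

theorem haf_zeta : HAF 1 PZ := by
  intro κ' η hκ hη hη1
  obtain ⟨K1, hK1, hUD⟩ := ud_zeta
  obtain ⟨A₀, hA0, hLL⟩ := LL_bd1 hη (by linarith)
  obtain ⟨c, hc⟩ : ∃ c : ℝ, c = A₀ + 20 + Real.log (1 / η) := ⟨_, rfl⟩
  have hlog : 0 ≤ Real.log (1 / η) := Real.log_nonneg (by
    rw [le_div_iff₀ hη]
    linarith)
  have hc0 : 0 ≤ c := by rw [hc]; positivity
  obtain ⟨K2, hK2⟩ : ∃ K2 : ℝ, K2 = K1 + c := ⟨_, rfl⟩
  refine ⟨κ' + (0:ℝ) ^ 2 / (4 * κ') + 102 * K2, by rw [hK2]; positivity, ?_⟩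
  rintro N μ Λ ⟨rfl, rfl, rfl⟩ T K' hK'
  have hG := GT_pos (m := 1) le_rfl (N := 1) le_rfl m4_re T
  refine af_of (N := 1) (μ := m4) (Λ := XX) le_rfl (by linarith : 0 ≤ K1) (by linarith : K1 ≤ K2) hκ hη hη1
    (hUD T) (fun u hu => ?_) hK'
  have hz : (1 / 2 + (T : ℂ) * I + u).re = 1 / 2 + u.re := half_re T u
  have hfX : fT 1 XX T u = gT 1 m4 T u * (rat (1 / 2 + T * I + u) * cexp (LL a1 (1 / 2 + T * I + u))) := by
    unfold fT gT
    rw [Xi_one]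
    exact XX_exp (by rw [hz]; linarith)
  obtain ⟨r1, r2⟩ := rat_bd hη (by linarith) (s := 1 / 2 + T * I + u) (by rw [hz]; linarith)
  obtain ⟨g1, g2⟩ := gT_cmp (m := 1) le_rfl (N := 1) le_rfl m4_re T (u := u) (by linarith)
  have hL := hLL (1 / 2 + T * I + u) (by rw [hz]; linarith)
  have h2 : (2 : ℝ) ^ (-((1 / 2 + (T : ℂ) * I + u : ℂ).re - (1 + η))) ≤ 1 :=
    Real.rpow_le_one_of_one_le_of_nonpos (by norm_num) (by rw [hz]; linarith)
  have hL1 : ‖LL a1 (1 / 2 + T * I + u)‖ ≤ A₀ := by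
    calc ‖LL a1 (1 / 2 + T * I + u)‖ ≤ A₀ * (2 : ℝ) ^ (-((1 / 2 + (T : ℂ) * I + u : ℂ).re - (1 + η))) := hL
      _ ≤ A₀ * 1 := by gcongr
      _ = A₀ := mul_one _
  have hre := abs_le.1 ((Complex.abs_re_le_norm _).trans hL1)
  have he : ‖cexp (LL a1 (1 / 2 + T * I + u))‖ = Real.exp (LL a1 (1 / 2 + T * I + u)).re :=
    Complex.norm_exp _
  obtain ⟨x, hx⟩ : ∃ x : ℝ, x = (LL a1 (1 / 2 + (T : ℂ) * I + u)).re := ⟨_, rfl⟩
  rw [← hx] at hre he
  have hq : (0:ℝ) ≤ ‖u‖ ^ 2 := by positivity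
  have herr : 90 * ((1:ℕ):ℝ) * (1 + ‖u‖ ^ 2) + c ≤ 0 * Real.sqrt (1 + 2 * lT 1 m4 T) + K2 * (1 + ‖u‖ ^ 2) := by
    rw [hK2]
    push_cast
    nlinarith
  rw [hfX, norm_mul, norm_mul, he]
  constructor
  · have h3 : Real.exp (-c) ≤ ‖rat (1 / 2 + T * I + u)‖ * Real.exp x := by
      calc Real.exp (-c) ≤ Real.exp (Real.log η + x) := by
            apply Real.exp_le_exp.2
            rw [hc, one_div, Real.log_inv]
            linarith [hre.1]
        _ = η * Real.exp x := by rw [Real.exp_add, Real.exp_log hη]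
        _ ≤ _ := by gcongr
    calc GT 1 m4 T * Real.exp (lT 1 m4 T * u.re -
          (0 * Real.sqrt (1 + 2 * lT 1 m4 T) + K2 * (1 + ‖u‖ ^ 2)))
        ≤ GT 1 m4 T * Real.exp (lT 1 m4 T * u.re - 90 * ((1:ℕ):ℝ) * (1 + ‖u‖ ^ 2) + -c) := by
          refine mul_le_mul_of_nonneg_left (Real.exp_le_exp.2 ?_) hG.le
          linarith
      _ = (GT 1 m4 T * Real.exp (lT 1 m4 T * u.re - 90 * ((1:ℕ):ℝ) * (1 + ‖u‖ ^ 2))) *
          Real.exp (-c) := by rw [Real.exp_add]; ring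
      _ ≤ ‖gT 1 m4 T u‖ * (‖rat (1 / 2 + T * I + u)‖ * Real.exp x) := by gcongr
  · have h3 : ‖rat (1 / 2 + T * I + u)‖ * Real.exp x ≤ Real.exp c := by
      calc ‖rat (1 / 2 + T * I + u)‖ * Real.exp x ≤ Real.exp 20 * Real.exp A₀ := by
            have h5 : (20:ℝ) ≤ Real.exp 20 := by linarith [Real.add_one_le_exp (20:ℝ)]
            have h6 : Real.exp x ≤ Real.exp A₀ := Real.exp_le_exp.2 hre.2
            exact mul_le_mul (r2.trans h5) h6 (Real.exp_pos _).le (Real.exp_pos _).le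
        _ = Real.exp (20 + A₀) := by rw [Real.exp_add]
        _ ≤ Real.exp c := by
            apply Real.exp_le_exp.2
            rw [hc]
            linarith
    calc ‖gT 1 m4 T u‖ * (‖rat (1 / 2 + T * I + u)‖ * Real.exp x)
        ≤ (GT 1 m4 T * Real.exp (lT 1 m4 T * u.re + 90 * ((1:ℕ):ℝ) * (1 + ‖u‖ ^ 2))) * Real.exp c := by
          gcongr
      _ = GT 1 m4 T * Real.exp (lT 1 m4 T * u.re + 90 * ((1:ℕ):ℝ) * (1 + ‖u‖ ^ 2) + c) := by
          rw [Real.exp_add _ c]; ring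
      _ ≤ _ := by
          refine mul_le_mul_of_nonneg_left (Real.exp_le_exp.2 ?_) hG.le
          linarith

theorem ca_zeta : CA 1 PZ where
  cls := cls_zeta prof
  re := by
    rintro N μ Λ ⟨rfl, rfl, rfl⟩
    exact m4_re
  af := haf_zeta

/-- the regularised zeta function has all the properties -/
theorem sp_LZ : SP LZ CZ :=
  sp_ca (m := 1) le_rfl ca_zeta (ι := Unit) (N := fun _ => 1) (μ := fun _ => m4) (Λ := fun _ => XX)
    fun _ => ⟨rfl, rfl, rfl⟩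

end Pool.Agent.J4H31.SA
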