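import Pool.Agent.J4H31.SA.Zet

/-!
# Project SA: the Riemann zeta function, with the conductor `1 + |t|`
-/

set_option autoImplicit false

open Complex MeasureTheory Filter Topology Set
open scoped ComplexConjugate

namespace Pool.Agent.J4H31.SA

open Pool.Agent.J4H1.LH (LineBound Lf)
open Pool.Agent.J4H1.LG
open Pool.Agent.J4H1.JP (XX m4 diff_XX)

lemma Law.exists_lt {κ a : ℝ} (ha : 0 ≤ a) (h : Law κ a) : ∃ κ' : ℝ, 0 < κ' ∧ κ' < κ ∧ Law κ' a := by
  rcases h with ⟨x, hx1, hx2, hxa⟩ | ⟨δ, hδ0, hδ1, hδa⟩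
  · have hx0 : 0 < x := by linarith
    have h1 : a / x < κ - x / 4 := by rwa [div_lt_iff₀ hx0, mul_comm]
    have h2 : 0 ≤ a / x := by positivity
    refine ⟨(κ + (a / x + x / 4)) / 2, by linarith, by linarith, Or.inl ⟨x, hx1, hx2, ?_⟩⟩
    have h3 : a / x < (κ + (a / x + x / 4)) / 2 - x / 4 := by linarith
    rw [div_lt_iff₀ hx0] at h3
    linarith
  · have h12 : 0 < 1 - 2 * δ := by linarith
    have hd2 : 0 < δ ^ 2 := by positivity
    have h1 : a * (1 - 2 * δ) / δ ^ 2 < κ - δ / 4 := by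
      rw [div_lt_iff₀ hd2]
      linarith
    have h2 : 0 ≤ a * (1 - 2 * δ) / δ ^ 2 := by positivity
    refine ⟨(κ + (a * (1 - 2 * δ) / δ ^ 2 + δ / 4)) / 2, by linarith, by linarith,
      Or.inr ⟨δ, hδ0, hδ1, ?_⟩⟩
    have h3 : a * (1 - 2 * δ) / δ ^ 2 < (κ + (a * (1 - 2 * δ) / δ ^ 2 + δ / 4)) / 2 - δ / 4 := by
      linarith
    rw [div_lt_iff₀ hd2] at h3
    linarith

/-- pointwise comparison -/
lemma LZ_cmp {z : ℂ} (h1 : 0 < z.re) (h2 : 1 ≤ |z.im|) :
    ‖riemannZeta z‖ ≤ ‖Lf m4 XX z‖ ∧ ‖Lf m4 XX z‖ ≤ 20 * ‖riemannZeta z‖ := by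
  obtain ⟨p1, p2⟩ := pi_bd
  have hz1 : z ≠ 1 := by
    intro h
    rw [h, one_im, abs_zero] at h2
    linarith
  have h3 : 1 ≤ ‖z - 1‖ := by
    have := Complex.abs_im_le_norm (z - 1)
    rw [sub_im, one_im, sub_zero] at this
    linarith
  have h4 : ‖z + 2‖ ≤ ‖z - 1‖ + 3 := by
    have := norm_add_le (z - 1) 3
    have e : z - 1 + 3 = z + 2 := by ring
    rw [e] at this
    have e3 : ‖(3 : ℂ)‖ = 3 := by norm_num
    rwa [e3] at this
  have hp : 0 < ‖z + 2‖ := by
    have := re_le_norm (z + 2)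
    rw [add_re, re_ofNat] at this
    linarith
  have h5 : ‖z - 1‖ ≤ ‖z + 2‖ := by
    apply abs_le_of_sq_le_sq' _ hp.le |>.2
    rw [Complex.sq_norm, Complex.sq_norm, Complex.normSq_apply, Complex.normSq_apply, sub_re, sub_im,
      add_re, add_im, one_re, one_im, re_ofNat, im_ofNat]
    nlinarith
  have hn : ‖Lf m4 XX z‖ = 2 * Real.pi ^ 2 * (‖z - 1‖ / ‖z + 2‖) * ‖riemannZeta z‖ := by
    rw [Lf_zeta h1 hz1, norm_mul, norm_mul, norm_div, norm_mul, norm_pow, Complex.norm_real,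
      Real.norm_eq_abs, abs_of_pos Real.pi_pos]
    norm_num
  have hq1 : ‖z - 1‖ / ‖z + 2‖ ≤ 1 := (div_le_one hp).2 h5
  have hq2 : 1 / 4 ≤ ‖z - 1‖ / ‖z + 2‖ := by
    rw [div_le_div_iff₀ (by norm_num) hp]
    linarith
  have hz := norm_nonneg (riemannZeta z)
  rw [hn]
  constructor
  · have h6 : 18 * (1 / 4) ≤ 2 * Real.pi ^ 2 * (‖z - 1‖ / ‖z + 2‖) := by gcongr
    nlinarith
  · have h6 : 2 * Real.pi ^ 2 * (‖z - 1‖ / ‖z + 2‖) ≤ 20 * 1 := by gcongr
    have := mul_le_mul_of_nonneg_right h6 hz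
    linarith

lemma zeta_intervalIntegrable {t : ℝ} (ht : 1 ≤ |t|) (a b : ℝ) :
    IntervalIntegrable (fun s : ℝ => Real.log ‖riemannZeta (((s + 1 / 2 : ℝ) : ℂ) + (t : ℂ) * I)‖)
      volume a b := by
  refine MeromorphicOn.intervalIntegrable_log_norm
    (f := fun s : ℝ => riemannZeta (((s + 1 / 2 : ℝ) : ℂ) + (t : ℂ) * I)) ?_
  intro s _
  have hne : (((s + 1 / 2 : ℝ) : ℂ) + (t : ℂ) * I) ∈ ({1}ᶜ : Set ℂ) := by
    intro h
    have h1 : (((s + 1 / 2 : ℝ) : ℂ) + (t : ℂ) * I) = 1 := h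
    have h2 := congrArg Complex.im h1
    have h3 : (((s + 1 / 2 : ℝ) : ℂ) + (t : ℂ) * I).im = t := by simp
    rw [h3, one_im] at h2
    rw [h2, abs_zero] at ht
    linarith
  have hd : DifferentiableOn ℂ riemannZeta ({1}ᶜ : Set ℂ) := fun z hz =>
    (differentiableAt_riemannZeta hz).differentiableWithinAt
  have h1 : AnalyticAt ℝ riemannZeta (((s + 1 / 2 : ℝ) : ℂ) + (t : ℂ) * I) :=
    (hd.analyticAt (isOpen_compl_singleton.mem_nhds hne)).restrictScalars
  have h2 : AnalyticAt ℝ (fun s : ℝ => (((s + 1 / 2 : ℝ) : ℂ) + (t : ℂ) * I)) s := by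
    have : (fun s : ℝ => (((s + 1 / 2 : ℝ) : ℂ) + (t : ℂ) * I)) =
        fun s : ℝ => ((s : ℂ) + (1 / 2 + (t : ℂ) * I)) := by
      funext s; push_cast; ring
    rw [this]
    refine AnalyticAt.add ?_ analyticAt_const
    exact Complex.ofRealCLM.analyticAt s
  exact (AnalyticAt.fun_comp (g := riemannZeta)
    (f := fun s : ℝ => (((s + 1 / 2 : ℝ) : ℂ) + (t : ℂ) * I)) h1 h2).meromorphicAt

/-- comparison of the horizontal integrals -/
lemma JZ_cmp {t : ℝ} (ht : 1 ≤ |t|) :
    J riemannZeta t ≤ J (LZ ()) t ∧ J (LZ ()) t ≤ J riemannZeta t + 3 / 2 * Real.log 20 := by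
  have hLZ : LZ () = Lf m4 XX := rfl
  rw [J_eq, J_eq, hLZ]
  have i1 := zeta_intervalIntegrable ht 0 (3/2)
  have i2 := L_intervalIntegrable (Lf_diff (μ := m4) diff_XX) t 0 (3/2)
  have hl20 : 0 ≤ Real.log 20 := Real.log_nonneg (by norm_num)
  have key : ∀ s ∈ Icc (0:ℝ) (3/2),
      Real.log ‖riemannZeta (((s + 1 / 2 : ℝ) : ℂ) + (t : ℂ) * I)‖ ≤
        Real.log ‖Lf m4 XX (((s + 1 / 2 : ℝ) : ℂ) + (t : ℂ) * I)‖ ∧
      Real.log ‖Lf m4 XX (((s + 1 / 2 : ℝ) : ℂ) + (t : ℂ) * I)‖ ≤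
        Real.log ‖riemannZeta (((s + 1 / 2 : ℝ) : ℂ) + (t : ℂ) * I)‖ + Real.log 20 := by
    intro s hs
    obtain ⟨z, hz⟩ : ∃ z : ℂ, z = (((s + 1 / 2 : ℝ) : ℂ) + (t : ℂ) * I) := ⟨_, rfl⟩
    have hre : z.re = s + 1 / 2 := by rw [hz]; simp
    have him : z.im = t := by rw [hz]; simp
    rw [← hz]
    obtain ⟨c1, c2⟩ := LZ_cmp (z := z) (by rw [hre]; linarith [hs.1]) (by rw [him]; exact ht)
    constructor
    · have := log_le_add (norm_nonneg (riemannZeta z)) le_rfl (w := 0) (b := ‖Lf m4 XX z‖)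
        (by rw [Real.exp_zero, mul_one]; exact c1) (fun h0 => by
          rw [h0, mul_zero] at c2
          exact le_antisymm c2 (norm_nonneg _))
      linarith
    · refine log_le_add (norm_nonneg _) hl20 ?_ (fun h0 => ?_)
      · rw [Real.exp_log (by norm_num)]
        linarith
      · rw [h0] at c1
        exact le_antisymm c1 (norm_nonneg _)
  constructor
  · exact intervalIntegral.integral_mono_on (by norm_num) i1 i2 fun s hs => (key s hs).1
  · have h1 := intervalIntegral.integral_mono_on (by norm_num) i2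
      (i1.add (intervalIntegrable_const (c := Real.log 20))) fun s hs => (key s hs).2
    rw [intervalIntegral.integral_add i1 intervalIntegrable_const, intervalIntegral.integral_const,
      smul_eq_mul] at h1
    refine h1.trans (le_of_eq ?_)
    ring

lemma big {T B : ℝ} (h : Real.log (2 + |B|) ≤ Real.log (1 + |T|)) {t : ℝ} (ht : |t - T| ≤ B) :
    1 ≤ |t| := by
  have h1 : 2 + |B| ≤ 1 + |T| := (Real.log_le_log_iff (by positivity) (by positivity)).1 h
  have h2 : |T| ≤ |t| + |t - T| := by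
    have := abs_sub_abs_le_abs_sub T t
    rw [abs_sub_comm] at this
    linarith
  have h3 := le_abs_self B
  linarith

lemma measurable_zeta : Measurable riemannZeta := by
  refine measurable_of_continuousOn_compl_singleton 1 fun z hz => ?_
  exact (differentiableAt_riemannZeta hz).continuousAt.continuousWithinAt

/-- **the Riemann zeta function has all the properties** -/
theorem sp_zeta : SP (fun _ : Unit => riemannZeta) (fun _ t => 1 + |t|) := by
  have P := sp_LZ
  obtain ⟨c, hc⟩ : ∃ c : ℝ, c = 3 / 2 * Real.log 20 := ⟨_, rfl⟩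
  have hc0 : 0 ≤ c := by
    have hl20 : 0 ≤ Real.log 20 := Real.log_nonneg (by norm_num)
    rw [hc]; positivity
  have hJ := fun (t : ℝ) (ht : 1 ≤ |t|) => JZ_cmp ht
  rw [← hc] at hJ
  have h5 := log5
  have hnn : ∀ t : ℝ, 0 ≤ Real.log (1 + |t|) := fun t => Real.log_nonneg (by linarith [abs_nonneg t])
  refine
    { one_le := fun _ t => by linarith [abs_nonneg t]
      shift := ⟨1, zero_le_one, fun _ t v => ?_⟩
      lower := fun ε hε => ?_
      law := fun κ a ha h => ?_
      upper := fun θ hθ hθ1 h a ha => ?_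
      meas := fun _ => J_measurable measurable_zeta
      spread := fun a γ ha hγ => ?_
      mean := fun a ε ha hε => ?_
      small := fun L₁ => ?_ }
  · rw [one_mul, ← Real.log_mul (by positivity) (by positivity)]
    apply Real.log_le_log (by positivity)
    have := abs_add_le t v
    nlinarith [abs_nonneg t, abs_nonneg v, mul_nonneg (abs_nonneg t) (abs_nonneg v)]
  · obtain ⟨B, δ, L₀, hδ, H⟩ := P.lower (ε / 2) (half_pos hε)
    have hb : 0 ≤ Real.log (2 + |B|) := Real.log_nonneg (by linarith [abs_nonneg B])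
    have hq : 0 ≤ 2 * c / ε := by positivity
    refine ⟨B, δ, |L₀| + Real.log (2 + |B|) + Real.log 5 + 2 * c / ε, hδ, fun i T hT => ?_⟩
    have a0 := abs_nonneg L₀
    have a1 := le_abs_self L₀
    refine (H i T (by linarith [log_lo i T])).trans_le (measure_mono ?_)
    rintro t ⟨ht1, ht2⟩
    refine ⟨ht1, ?_⟩
    have ht := big (T := T) (B := B) (by linarith) ht1
    obtain ⟨j1, j2⟩ := hJ t ht
    have h6 := mul_le_mul_of_nonneg_left (log_up i T) (half_pos hε).le
    have h7 : Real.log 5 + 2 * c / ε ≤ Real.log (1 + |T|) := by linarith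
    have h8 := mul_le_mul_of_nonneg_left h7 (half_pos hε).le
    have e1 : ε / 2 * (Real.log 5 + 2 * c / ε) = ε / 2 * Real.log 5 + c := by field_simp
    rw [e1] at h8
    have hLZ : LZ i = LZ () := rfl
    rw [hLZ] at ht2
    linarith
  · obtain ⟨a', haa, h1⟩ := h.exists_gt
    obtain ⟨κ', hκ0, hκκ, h2⟩ := h1.exists_lt (by linarith)
    obtain ⟨B, δ, L₀, hδ, H⟩ := P.law κ' a' (by linarith) h2
    have hb : 0 ≤ Real.log (2 + |B|) := Real.log_nonneg (by linarith [abs_nonneg B])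
    have hD : 0 < a' - a := by linarith
    have hK : 0 < κ - κ' := by linarith
    have hq1 : 0 ≤ c / (a' - a) := by positivity
    have hq2 : 0 ≤ κ' * Real.log 5 / (κ - κ') := by positivity
    refine ⟨B, δ, |L₀| + Real.log (2 + |B|) + c / (a' - a) + κ' * Real.log 5 / (κ - κ'), hδ,
      fun i T hT hL => ?_⟩
    have a0 := abs_nonneg L₀
    have a1 := le_abs_self L₀
    have hCZ : 0 < CZ i T := by linarith [CZ_lo i T, abs_nonneg T]
    refine (H i T (by linarith [log_lo i T]) ?_).trans_le (measure_mono ?_)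
    · have h3 := (Lf_cmp (r := 0) (t := T) le_rfl (by norm_num) (Or.inr rfl)).2
      have e0 : (1 / 2 + ((0 : ℝ) : ℂ) + (T : ℂ) * I) = 1 / 2 + T * I := by push_cast; ring
      rw [e0] at h3
      refine le_trans ?_ (hL.trans h3)
      rw [Real.rpow_def_of_pos hCZ, Real.rpow_def_of_pos (by positivity : 0 < 1 + |T|)]
      apply Real.exp_le_exp.2
      have h4 := mul_le_mul_of_nonneg_left (log_up i T) hκ0.le
      have h6 : κ' * Real.log 5 / (κ - κ') ≤ Real.log (1 + |T|) := by linarith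
      rw [div_le_iff₀ hK] at h6
      linarith
    · rintro t ⟨ht1, ht2⟩
      refine ⟨ht1, ?_⟩
      have ht := big (T := T) (B := B) (by linarith) ht1
      obtain ⟨j1, j2⟩ := hJ t ht
      have h4 := mul_le_mul_of_nonneg_left (log_lo i T) (by linarith : 0 ≤ a')
      have h6 : c / (a' - a) ≤ Real.log (1 + |T|) := by linarith
      rw [div_le_iff₀ hD] at h6
      have hLZ : LZ i = LZ () := rfl
      rw [hLZ] at ht2
      linarith
  · have hZ : LineZ θ := fun ε hε => (h ε hε).imp fun B HB t => HB () t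
    obtain ⟨a', ha'⟩ : ∃ a' : ℝ, a' = (a + θ / 4) / 2 := ⟨_, rfl⟩
    obtain ⟨C₀, H⟩ := P.upper θ hθ hθ1 ((lineZ_iff hθ).1 hZ) a' (by linarith)
    have hD : 0 < a - a' := by linarith
    have ha0 : 0 ≤ a' := by linarith
    have hq1 : 0 ≤ a' * Real.log 5 / (a - a') := by positivity
    have hl2 : 0 ≤ Real.log 2 := Real.log_nonneg (by norm_num)
    refine ⟨|C₀| + Real.log 2 + a' * Real.log 5 / (a - a'), fun i t ht => ?_⟩
    have b0 := abs_nonneg C₀
    have b1 := le_abs_self C₀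
    have ht1 : 1 ≤ |t| := by
      have h1 : Real.log 2 ≤ Real.log (1 + |t|) := by linarith
      have h2 : (2:ℝ) ≤ 1 + |t| := (Real.log_le_log_iff (by positivity) (by positivity)).1 h1
      linarith
    obtain ⟨j1, j2⟩ := hJ t ht1
    have h3 := H i t (by linarith [log_lo i t])
    have h4 := mul_le_mul_of_nonneg_left (log_up i t) ha0
    have h6 : a' * Real.log 5 / (a - a') ≤ Real.log (1 + |t|) := by linarith
    rw [div_le_iff₀ hD] at h6
    have hLZ : LZ i = LZ () := rfl
    rw [hLZ] at h3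
    linarith
  · obtain ⟨g, hg⟩ : ∃ g : ℝ, g = γ / 4 := ⟨_, rfl⟩
    have hg0 : 0 < g := by rw [hg]; linarith
    obtain ⟨δ, L₀, hδ, H⟩ := P.spread (a + g) g (by linarith) hg0
    have hq1 : 0 ≤ c / g := by positivity
    have hq2 : 0 ≤ (a + 2 * g) * Real.log 5 / g := by positivity
    obtain ⟨B₁, hB₁⟩ : ∃ B₁ : ℝ, B₁ = 1 := ⟨_, rfl⟩
    have hb : 0 ≤ Real.log (2 + |B₁|) := Real.log_nonneg (by linarith [abs_nonneg B₁])
    refine ⟨δ, |L₀| + Real.log (2 + |B₁|) + c / g + (a + 2 * g) * Real.log 5 / g, hδ,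
      fun i T hT hv => ?_⟩
    have a0 := abs_nonneg L₀
    have a1 := le_abs_self L₀
    have h6 : c / g ≤ Real.log (1 + |T|) := by linarith
    have h7 : (a + 2 * g) * Real.log 5 / g ≤ Real.log (1 + |T|) := by linarith
    rw [div_le_iff₀ hg0] at h6 h7
    have hLZ : LZ i = LZ () := rfl
    have h8 := H i T (by linarith [log_lo i T]) (by
      refine le_trans (measure_mono ?_) hv
      rintro t ⟨ht1, ht2⟩
      refine ⟨ht1, ?_⟩
      obtain ⟨j1, j2⟩ := hJ t (big (T := T) (B := B₁) (by linarith) (by rw [hB₁]; exact ht1))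
      have h4 := mul_le_mul_of_nonneg_left (log_lo i T) (by linarith : 0 ≤ a + g)
      rw [hLZ] at ht2
      linarith)
    obtain ⟨j1, j2⟩ := hJ T (big (T := T) (B := B₁) (by linarith) (by rw [sub_self, abs_zero, hB₁]; norm_num))
    have h9 := mul_le_mul_of_nonneg_left (log_up i T) (by linarith : 0 ≤ a + 2 * g)
    rw [hLZ] at h8
    have e1 : a + g + g = a + 2 * g := by ring
    rw [e1] at h8
    have e2 : γ = 4 * g := by rw [hg]; ring
    rw [e2]
    have := hnn T
    nlinarith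
  · obtain ⟨g, hg⟩ : ∃ g : ℝ, g = ε / 32 := ⟨_, rfl⟩
    have hg0 : 0 < g := by rw [hg]; linarith
    obtain ⟨B, L₀, H⟩ := P.mean (a + g) g (by linarith) hg0
    obtain ⟨B', hB'⟩ : ∃ B' : ℝ, B' = max B 1 := ⟨_, rfl⟩
    have hq1 : 0 ≤ c / g := by positivity
    have hq2 : 0 ≤ (8 * (a + g) + g) * Real.log 5 / g := by positivity
    have hb : 0 ≤ Real.log (2 + |B'|) := Real.log_nonneg (by linarith [abs_nonneg B'])
    refine ⟨B', |L₀| + Real.log (2 + |B'|) + c / g + (8 * (a + g) + g) * Real.log 5 / g,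
      fun i T hT hv => ?_⟩
    have a0 := abs_nonneg L₀
    have a1 := le_abs_self L₀
    have h6 : c / g ≤ Real.log (1 + |T|) := by linarith
    have h7 : (8 * (a + g) + g) * Real.log 5 / g ≤ Real.log (1 + |T|) := by linarith
    rw [div_le_iff₀ hg0] at h6 h7
    have hLZ : LZ i = LZ () := rfl
    have hbig : ∀ t : ℝ, |t - T| ≤ B' → 1 ≤ |t| := fun t ht =>
      big (T := T) (B := B') (by linarith) ht
    have h8 := H i T (by linarith [log_lo i T]) fun t ht => by
      have ht' : |t - T| ≤ B' := ht.trans (by rw [hB']; exact le_max_left _ _)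
      obtain ⟨j1, j2⟩ := hJ t (hbig t ht')
      have h3 := hv t ht'
      have h4 := mul_le_mul_of_nonneg_left (log_lo i T) (by linarith : 0 ≤ a + g)
      rw [hLZ]
      linarith
    calc ∫⁻ t in Icc (T - 1) (T + 1), ENNReal.ofReal |J riemannZeta t| ≤
          ∫⁻ t in Icc (T - 1) (T + 1), (ENNReal.ofReal |J (LZ i) t| + ENNReal.ofReal c) := by
          refine setLIntegral_mono' measurableSet_Icc fun t ht => ?_
          rw [← ENNReal.ofReal_add (abs_nonneg _) hc0]
          apply ENNReal.ofReal_le_ofReal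
          have ht' : |t - T| ≤ B' := by
            have h1 : |t - T| ≤ 1 := abs_le.2 ⟨by linarith [ht.1], by linarith [ht.2]⟩
            exact h1.trans (by rw [hB']; exact le_max_right _ _)
          obtain ⟨j1, j2⟩ := hJ t (hbig t ht')
          have h1 := neg_abs_le (J (LZ ()) t)
          have h2 := le_abs_self (J (LZ ()) t)
          rw [hLZ, abs_le]
          constructor <;> linarith
      _ = (∫⁻ t in Icc (T - 1) (T + 1), ENNReal.ofReal |J (LZ i) t|) +
            ENNReal.ofReal c * volume (Icc (T - 1) (T + 1)) := by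
          rw [lintegral_add_right _ measurable_const, setLIntegral_const]
      _ ≤ ENNReal.ofReal ((8 * (a + g) + g) * Real.log (CZ i T)) +
            ENNReal.ofReal c * volume (Icc (T - 1) (T + 1)) := add_le_add h8 le_rfl
      _ ≤ _ := by
          have hCn : 0 ≤ Real.log (CZ i T) := (hnn T).trans (log_lo i T)
          rw [Real.volume_Icc, ← ENNReal.ofReal_mul hc0, ← ENNReal.ofReal_add (by positivity)
            (by nlinarith)]
          apply ENNReal.ofReal_le_ofReal
          have h9 := mul_le_mul_of_nonneg_left (log_up i T) (by linarith : 0 ≤ 8 * (a + g) + g)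
          have e2 : ε = 32 * g := by rw [hg]; ring
          rw [e2]
          have := hnn T
          nlinarith
  · obtain ⟨M, hM⟩ := P.small (L₁ + Real.log 5)
    refine ⟨M, fun i T hT => ?_⟩
    have h3 := (Lf_cmp (r := 0) (t := T) le_rfl (by norm_num) (Or.inr rfl)).2
    have e0 : (1 / 2 + ((0 : ℝ) : ℂ) + (T : ℂ) * I) = 1 / 2 + T * I := by push_cast; ring
    rw [e0] at h3
    exact h3.trans (hM () T (by linarith [log_up () T]))

end Pool.Agent.J4H31.SA
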